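import Pool.Agent.Work.MP_499dc6_lc.SG.Stmts

/-!
MP_499dc6_lc, block SG, item Alt: the alternating sum of the `dd j h` vanishes unless `h` is a full cycle.
-/

set_option autoImplicit false

open Finset

noncomputable section

namespace Pool.Agent.Work.MP_499dc6_lc.SG

namespace Alt_aux

variable {β : Type} [Fintype β] [DecidableEq β]

/-- the alternating sum of the sums of principal minors is `det (1 - M)` -/
theorem alt_em (M : Matrix β β ℝ) (k : ℕ) (hk : 1 ≤ k) (hz : ∀ j, k ≤ j → em j M = 0) :
    ∑ j ∈ range k, (-1 : ℝ) ^ j * em j M = (1 - M).det := by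
  set p : Polynomial ℝ := (1 + (Polynomial.X : Polynomial ℝ) • M.map Polynomial.C).det with hp
  have hc : ∀ j, p.coeff j = em j M := fun j => Matrix.coeff_det_one_add_X_smul_eq_sum_minors M j
  have hdeg : p.natDegree < k := by
    by_contra hlt
    push Not at hlt
    have h0 : p.coeff p.natDegree = 0 := by rw [hc]; exact hz _ hlt
    have h1 : p = 0 := by
      rw [← Polynomial.leadingCoeff_eq_zero]; exact h0
    rw [h1, Polynomial.natDegree_zero] at hlt
    omega
  have he : Polynomial.eval (-1 : ℝ) p = (1 - M).det := by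
    have h2 := RingHom.map_det (Polynomial.evalRingHom (-1 : ℝ))
      (1 + (Polynomial.X : Polynomial ℝ) • M.map Polynomial.C)
    rw [← hp] at h2
    rw [Polynomial.coe_evalRingHom] at h2
    rw [h2]
    congr 1
    ext i j
    simp only [RingHom.mapMatrix_apply, Matrix.map_apply, Matrix.add_apply, Matrix.smul_apply, smul_eq_mul,
      Matrix.sub_apply, Polynomial.coe_evalRingHom, Polynomial.eval_add, Polynomial.eval_mul, Polynomial.eval_X,
      Polynomial.eval_C]
    have h3 : Polynomial.eval (-1 : ℝ) ((1 : Matrix β β (Polynomial ℝ)) i j) = (1 : Matrix β β ℝ) i j := by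
      by_cases hij : i = j
      · subst hij; simp
      · simp [Matrix.one_apply_ne hij]
    rw [h3]
    ring
  rw [← he, Polynomial.eval_eq_sum_range' hdeg]
  refine sum_congr rfl fun j _ => ?_
  rw [hc, mul_comm]

/-- an invariant proper nonempty set -/
theorem exists_inv (h : Equiv.Perm β) (hk : 2 ≤ Fintype.card β) (hf : ¬ IsFull h) :
    ∃ (S : Finset β) (a b : β), a ∈ S ∧ b ∉ S ∧ ∀ x, h x ∈ S ↔ x ∈ S := by
  classical
  have hne : Nonempty β := Fintype.card_pos_iff.1 (by omega)
  obtain ⟨x0⟩ := hne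
  let S : Finset β := univ.filter fun x => h.SameCycle x0 x
  have hS : ∀ x, x ∈ S ↔ h.SameCycle x0 x := fun x => by simp [S]
  have hinv : ∀ x, h x ∈ S ↔ x ∈ S := by
    intro x
    rw [hS, hS]
    exact Equiv.Perm.sameCycle_apply_right
  by_cases hall : ∀ x, x ∈ S
  · exfalso
    apply hf
    have hall' : ∀ x, h.SameCycle x0 x := fun x => (hS x).1 (hall x)
    have hx0 : h x0 ≠ x0 := by
      intro hfix
      obtain ⟨y, hy⟩ := Fintype.exists_ne_of_one_lt_card (by omega : 1 < Fintype.card β) x0
      obtain ⟨i, hi⟩ := hall' y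
      have : (h ^ i) x0 = x0 := Equiv.Perm.zpow_apply_eq_self_of_apply_eq_self hfix i
      exact hy (by rw [← hi, this])
    refine ⟨⟨x0, hx0, fun y _ => hall' y⟩, ?_⟩
    rw [eq_univ_iff_forall]
    intro x
    rw [Equiv.Perm.mem_support]
    intro hx
    exact hx0 ((hall' x).apply_eq_self_iff.2 hx)
  · push Not at hall
    obtain ⟨b, hb⟩ := hall
    exact ⟨S, x0, b, (hS x0).2 (Equiv.Perm.SameCycle.refl h x0), hb, hinv⟩

theorem det_zero (h : Equiv.Perm β) (hk : 2 ≤ Fintype.card β) (hf : ¬ IsFull h) : (1 - QM h).det = 0 := by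
  classical
  obtain ⟨S, a, b, ha, hb, hinv⟩ := exists_inv h hk hf
  have hk0 : (Fintype.card β : ℝ) ≠ 0 := by
    have : (0 : ℝ) < Fintype.card β := by exact_mod_cast (by omega : 0 < Fintype.card β)
    exact this.ne'
  rw [← Matrix.exists_mulVec_eq_zero_iff]
  set q : ℝ := (S.card : ℝ) / (Fintype.card β : ℝ) with hq
  let v : β → ℝ := fun x => (if x ∈ S then 1 else 0) - q
  have hvh : ∀ x, v (h x) = v x := by
    intro x
    simp only [v, hinv x]
  have hsum : ∑ x, v x = 0 := by
    simp only [v, sum_sub_distrib, sum_const, card_univ, nsmul_eq_mul, sum_ite_mem, univ_inter]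
    rw [hq]
    field_simp
    simp
  refine ⟨v, ?_, ?_⟩
  · intro h0
    have h1 : v a = 0 := congrFun h0 a
    have h2 : v b = 0 := congrFun h0 b
    simp only [v, ha, hb, if_true, if_false] at h1 h2
    linarith
  · rw [Matrix.sub_mulVec, Matrix.one_mulVec, sub_eq_zero]
    funext y
    simp only [Matrix.mulVec, dotProduct, QM, Matrix.of_apply, sub_mul, sum_sub_distrib]
    rw [← mul_sum, hsum, mul_zero, sub_zero]
    obtain ⟨x, rfl⟩ := h.surjective y
    have h3 : ∀ x', (if h x' = h x then (1 : ℝ) else 0) * v x' = if x' = x then v x' else 0 := by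
      intro x'
      by_cases hx : x' = x
      · subst hx; simp
      · rw [if_neg (fun hh => hx (h.injective hh)), if_neg hx, zero_mul]
    rw [sum_congr rfl fun x' _ => h3 x']
    simp [hvh]

end Alt_aux

theorem iAlt (h : StEe) : StAlt := by
  intro β _ _ g hk hf
  obtain ⟨-, -, -, hz⟩ := h β g (by omega)
  have h1 := Alt_aux.alt_em (QM g) (Fintype.card β) (by omega) (fun j hj => hz j hj)
  have h2 := Alt_aux.det_zero g hk hf
  rw [h2] at h1
  exact h1

end Pool.Agent.Work.MP_499dc6_lc.SG
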