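import Pool.Agent.Work.MP_499dc6_lc.SG.Stmts

/-!
MP_499dc6_lc, block SG, item AmB: basic facts on `Am`.
-/

set_option autoImplicit false

open Finset

noncomputable section

namespace Pool.Agent.Work.MP_499dc6_lc.SG

namespace AmB_aux

lemma avg_nonneg {ι : Type*} (s : Finset ι) (F : ι → ℝ) (h : ∀ i ∈ s, 0 ≤ F i) : 0 ≤ avg s F :=
  div_nonneg (Finset.sum_nonneg h) (Nat.cast_nonneg _)

lemma avg_mono {ι : Type*} (s : Finset ι) (F G : ι → ℝ) (h : ∀ i ∈ s, F i ≤ G i) :
    avg s F ≤ avg s G :=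
  div_le_div_of_nonneg_right (Finset.sum_le_sum h) (Nat.cast_nonneg _)

lemma avg_singleton {ι : Type*} (a : ι) (F : ι → ℝ) : avg {a} F = F a := by
  simp [avg]

lemma avg_congr {ι : Type*} (s : Finset ι) (F G : ι → ℝ) (h : ∀ i ∈ s, F i = G i) :
    avg s F = avg s G := by
  unfold avg
  rw [Finset.sum_congr rfl h]

lemma avg_const {ι : Type*} (s : Finset ι) (hs : s.Nonempty) (c : ℝ) :
    avg s (fun _ => c) = c := by
  unfold avg
  have : (s.card : ℝ) ≠ 0 := by
    have := hs.card_pos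
    positivity
  rw [Finset.sum_const, nsmul_eq_mul]
  field_simp

variable {β : Type} [Fintype β] [DecidableEq β]

lemma fixs_empty : fixs (∅ : Finset β) = univ := by
  simp [fixs]

lemma cE_empty (g : Equiv.Perm β → ℝ) (θ : Equiv.Perm β) : cE ∅ g θ = avg univ g := by
  unfold cE avg
  rw [fixs_empty]
  congr 1
  exact Fintype.sum_equiv (Equiv.mulLeft θ) _ _ (fun τ => rfl)

lemma fixs_eq_one (D : Finset β) (hD : Fintype.card β - 1 ≤ D.card) : fixs D = {1} := by
  ext τ
  simp only [fixs, mem_filter, mem_univ, true_and, mem_singleton]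
  constructor
  · intro h
    by_contra hne
    have h1 : 2 ≤ τ.support.card := Equiv.Perm.two_le_card_support_of_ne_one hne
    have h2 : Disjoint τ.support D := by
      rw [Finset.disjoint_left]
      intro x hx hxD
      exact (Equiv.Perm.mem_support.1 hx) (h x hxD)
    have h3 : τ.support.card + D.card ≤ Fintype.card β := by
      rw [← Finset.card_union_of_disjoint h2]
      exact Finset.card_le_univ _
    omega
  · rintro rfl x _
    rfl

lemma cE_eq (D : Finset β) (hD : Fintype.card β - 1 ≤ D.card) (g : Equiv.Perm β → ℝ)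
    (θ : Equiv.Perm β) : cE D g θ = g θ := by
  unfold cE
  rw [fixs_eq_one D hD, avg_singleton, mul_one]

lemma Am_top (g : Equiv.Perm β → ℝ) (hg : ∀ σ, g σ = 0 ∨ g σ = 1) (i : ℕ)
    (hi : i ≤ Fintype.card β) (hi' : Fintype.card β - 1 ≤ i) : Am i g = avg univ g := by
  unfold Am
  have h1 : ∀ D ∈ powersetCard i (univ : Finset β),
      avg univ (fun θ => (cE D g θ) ^ 2) = avg univ g := by
    intro D hD
    rw [mem_powersetCard] at hD
    refine avg_congr _ _ _ (fun θ _ => ?_)
    rw [cE_eq D (by omega) g θ]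
    rcases hg θ with h | h <;> rw [h] <;> norm_num
  rw [avg_congr _ _ _ h1, avg_const]
  rw [powersetCard_nonempty]
  simpa using hi

lemma abs_sgR (σ : Equiv.Perm β) : |sgR σ| = 1 := by
  unfold sgR
  rcases Int.units_eq_one_or (Equiv.Perm.sign σ) with h | h <;> rw [h] <;> simp

lemma abs_avg_le {ι : Type*} (s : Finset ι) (F : ι → ℝ) : |avg s F| ≤ avg s (fun i => |F i|) := by
  unfold avg
  rw [abs_div, Nat.abs_cast]
  exact div_le_div_of_nonneg_right (Finset.abs_sum_le_sum_abs _ _) (Nat.cast_nonneg _)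

lemma cE_sgn_le (D : Finset β) (g : Equiv.Perm β → ℝ) (hg : ∀ σ, 0 ≤ g σ) (θ : Equiv.Perm β) :
    (cE D (fun σ => g σ * sgR σ) θ) ^ 2 ≤ (cE D g θ) ^ 2 := by
  apply sq_le_sq'
  · have h := abs_avg_le (fixs D) (fun τ => g (θ * τ) * sgR (θ * τ))
    have h2 : avg (fixs D) (fun τ => |g (θ * τ) * sgR (θ * τ)|) = cE D g θ := by
      unfold cE
      refine avg_congr _ _ _ (fun τ _ => ?_)
      rw [abs_mul, abs_sgR, mul_one, abs_of_nonneg (hg _)]
    rw [h2] at h
    exact (abs_le.1 h).1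
  · have h := abs_avg_le (fixs D) (fun τ => g (θ * τ) * sgR (θ * τ))
    have h2 : avg (fixs D) (fun τ => |g (θ * τ) * sgR (θ * τ)|) = cE D g θ := by
      unfold cE
      refine avg_congr _ _ _ (fun τ _ => ?_)
      rw [abs_mul, abs_sgR, mul_one, abs_of_nonneg (hg _)]
    rw [h2] at h
    exact (abs_le.1 h).2

end AmB_aux

open AmB_aux in
theorem iAmB : StAmB := by
  intro β _ _ g
  refine ⟨?_, ?_, ?_, ?_⟩
  · unfold Am
    rw [powersetCard_zero, avg_singleton]
    rw [avg_congr _ _ (fun _ => (avg univ g) ^ 2) (fun θ _ => by rw [cE_empty])]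
    exact avg_const _ ⟨1, mem_univ _⟩ _
  · intro hg i
    unfold Am
    refine avg_mono _ _ _ (fun D _ => avg_mono _ _ _ (fun θ _ => ?_))
    exact cE_sgn_le D g hg θ
  · intro i
    exact avg_nonneg _ _ (fun D _ => avg_nonneg _ _ (fun θ _ => sq_nonneg _))
  · intro hg
    exact ⟨Am_top g hg _ le_rfl (Nat.sub_le _ _), Am_top g hg _ (Nat.sub_le _ _) le_rfl⟩

end Pool.Agent.Work.MP_499dc6_lc.SG
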