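import Pool.Agent.Work.MP_499dc6_lc.SG.Stmts

/-!
MP_499dc6_lc, block SG, item Bp: the projections `BT T`.
-/

set_option autoImplicit false

open Finset

noncomputable section

namespace Pool.Agent.Work.MP_499dc6_lc.SG

namespace Bp_aux

section cnt

variable {β : Type} [Fintype β] [DecidableEq β]

/-- the permutations preserving `T` -/
def pres (T : Finset β) : Finset (Equiv.Perm β) := univ.filter (fun h => ∀ x ∈ T, h x ∈ T)

theorem mem_pres (T : Finset β) (h : Equiv.Perm β) : h ∈ pres T ↔ ∀ x ∈ T, h x ∈ T := by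
  simp [pres]

omit [Fintype β] in
/-- an injective self map of a finite set is onto -/
theorem maps_iff (T : Finset β) (h : Equiv.Perm β) (hT : ∀ x ∈ T, h x ∈ T) (x : β) :
    h x ∈ T ↔ x ∈ T := by
  refine ⟨fun hx => ?_, hT x⟩
  have himg : T.image h = T := by
    apply Finset.eq_of_subset_of_card_le
    · intro y hy
      obtain ⟨z, hz, rfl⟩ := Finset.mem_image.1 hy
      exact hT z hz
    · rw [Finset.card_image_of_injective _ h.injective]
  rw [← himg] at hx
  obtain ⟨z, hz, hzx⟩ := Finset.mem_image.1 hx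
  have := h.injective hzx
  rwa [← this]

omit [Fintype β] in
theorem inv_pres (T : Finset β) (h : Equiv.Perm β) (hT : ∀ x ∈ T, h x ∈ T) :
    ∀ x ∈ T, h⁻¹ x ∈ T := by
  intro x hx
  have e : h (h⁻¹ x) = x := Equiv.apply_symm_apply h x
  rw [← maps_iff T h hT, e]
  exact hx

theorem card_pres (T : Finset β) :
    (pres T).card = T.card.factorial * (Fintype.card β - T.card).factorial := by
  have himg : pres T = (univ : Finset (Equiv.Perm {x // x ∈ T} × Equiv.Perm {x // ¬ x ∈ T})).image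
      (fun p => Equiv.Perm.subtypeCongr p.1 p.2) := by
    ext h
    rw [mem_pres, Finset.mem_image]
    constructor
    · intro hT
      have h1 : ∀ x, h x ∈ T ↔ x ∈ T := maps_iff T h hT
      have h2 : ∀ x, ¬ h x ∈ T ↔ ¬ x ∈ T := fun x => not_congr (h1 x)
      refine ⟨(h.subtypePerm h1, h.subtypePerm h2), Finset.mem_univ _, ?_⟩
      ext x
      by_cases hx : x ∈ T
      · rw [Equiv.Perm.subtypeCongr.left_apply _ _ hx]
        rfl
      · rw [Equiv.Perm.subtypeCongr.right_apply _ _ hx]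
        rfl
    · rintro ⟨p, -, rfl⟩ x hx
      rw [Equiv.Perm.subtypeCongr.left_apply _ _ hx]
      exact (p.1 ⟨x, hx⟩).2
  have hinj : Function.Injective
      (fun p : Equiv.Perm {x // x ∈ T} × Equiv.Perm {x // ¬ x ∈ T} =>
        Equiv.Perm.subtypeCongr p.1 p.2) :=
    Equiv.Perm.subtypeCongrHom_injective (fun x => x ∈ T)
  rw [himg, Finset.card_image_of_injective _ hinj, Finset.card_univ, Fintype.card_prod,
    Fintype.card_perm, Fintype.card_perm, Fintype.card_coe, Fintype.card_subtype_compl,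
    Fintype.card_coe]

end cnt

section main

variable {β : Type} [Fintype β] [DecidableEq β]

/-- the denominator of `BT` -/
def cc (T : Finset β) : ℝ :=
  (T.card.factorial : ℝ) * ((Fintype.card β - T.card).factorial : ℝ)

omit [DecidableEq β] in
theorem cc_ne (T : Finset β) : cc T ≠ 0 := by
  unfold cc
  positivity

theorem cc_eq (T : Finset β) : cc T = ((pres T).card : ℝ) := by
  rw [card_pres, cc]
  push_cast
  rfl

theorem BT_eq (T : Finset β) (g : Equiv.Perm β → ℝ) (σ : Equiv.Perm β) :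
    BT T g σ = (∑ h : Equiv.Perm β, sg T h * g (σ * h)) / cc T := rfl

theorem part1 (hS : StSg) (T : Finset β) (g : Equiv.Perm β → ℝ) (σ h : Equiv.Perm β)
    (hT : ∀ x ∈ T, h x ∈ T) : BT T g (σ * h) = sg T h * BT T g σ := by
  obtain ⟨-, -, h3, -, h5, -, -⟩ := hS β T
  rw [BT_eq, BT_eq, ← mul_div_assoc]
  congr 1
  rw [← Equiv.sum_comp (Equiv.mulLeft h⁻¹) (fun h' => sg T h' * g (σ * h * h')),
    Finset.mul_sum]
  refine Finset.sum_congr rfl (fun h' _ => ?_)
  have e1 : (Equiv.mulLeft h⁻¹) h' = h⁻¹ * h' := rfl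
  rw [e1, h3 h⁻¹ h' (inv_pres T h hT), h5 h]
  have e2 : σ * h * (h⁻¹ * h') = σ * h' := by group
  rw [e2, mul_assoc]

/-- `E g f = E (BT T g) f` in unnormalised form -/
theorem part2 (hS : StSg) (T : Finset β) (g f : Equiv.Perm β → ℝ)
    (hf : ∀ σ h : Equiv.Perm β, (∀ x ∈ T, h x ∈ T) → f (σ * h) = sg T h * f σ) :
    ∑ σ : Equiv.Perm β, BT T g σ * f σ = ∑ σ : Equiv.Perm β, g σ * f σ := by
  obtain ⟨h1, h2, -, -, h5, -, -⟩ := hS β T
  have e1 : ∀ σ : Equiv.Perm β, BT T g σ * f σ =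
      (∑ h : Equiv.Perm β, sg T h * g (σ * h) * f σ) / cc T := by
    intro σ
    rw [BT_eq, div_mul_eq_mul_div, Finset.sum_mul]
  rw [Finset.sum_congr rfl (fun σ _ => e1 σ), ← Finset.sum_div, Finset.sum_comm]
  have e2 : ∀ h : Equiv.Perm β, ∑ σ : Equiv.Perm β, sg T h * g (σ * h) * f σ =
      (if h ∈ pres T then (1 : ℝ) else 0) * ∑ σ : Equiv.Perm β, g σ * f σ := by
    intro h
    by_cases hT : ∀ x ∈ T, h x ∈ T
    · rw [if_pos ((mem_pres T h).2 hT), one_mul,
        ← Equiv.sum_comp (Equiv.mulRight h⁻¹) (fun σ => sg T h * g (σ * h) * f σ)]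
      refine Finset.sum_congr rfl (fun σ _ => ?_)
      have e3 : (Equiv.mulRight h⁻¹) σ = σ * h⁻¹ := rfl
      rw [e3, hf σ h⁻¹ (inv_pres T h hT), h5 h, inv_mul_cancel_right]
      have e4 : sg T h * sg T h = 1 := by
        rcases h1 h hT with e | e <;> rw [e] <;> norm_num
      calc sg T h * g σ * (sg T h * f σ) = (sg T h * sg T h) * (g σ * f σ) := by ring
        _ = g σ * f σ := by rw [e4, one_mul]
    · rw [if_neg (fun hm => hT ((mem_pres T h).1 hm)), zero_mul]
      refine Finset.sum_eq_zero (fun σ _ => ?_)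
      rw [h2 h hT, zero_mul, zero_mul]
  rw [Finset.sum_congr rfl (fun h _ => e2 h), ← Finset.sum_mul, Finset.sum_ite_mem,
    Finset.univ_inter, Finset.sum_const, nsmul_eq_mul, mul_one, ← cc_eq,
    mul_div_assoc, mul_comm, div_mul_cancel₀ _ (cc_ne T)]

theorem part3 (hS : StSg) (T : Finset β) (g : Equiv.Perm β → ℝ) :
    ∑ σ : Equiv.Perm β, g σ * BT T g σ = ∑ σ : Equiv.Perm β, (BT T g σ) ^ 2 := by
  rw [← part2 hS T g (BT T g) (fun σ h hT => part1 hS T g σ h hT)]
  exact Finset.sum_congr rfl (fun σ _ => (sq _).symm)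

/-- `E (cE D g) f = E g f` if `f` depends only on the values on `D` -/
theorem part4 (D : Finset β) (g f : Equiv.Perm β → ℝ)
    (hf : ∀ σ : Equiv.Perm β, ∀ τ ∈ fixs D, f (σ * τ) = f σ) :
    ∑ σ : Equiv.Perm β, cE D g σ * f σ = ∑ σ : Equiv.Perm β, g σ * f σ := by
  have hne : ((fixs D).card : ℝ) ≠ 0 := by
    have : (1 : Equiv.Perm β) ∈ fixs D := by simp [fixs]
    exact Nat.cast_ne_zero.2 (Finset.card_ne_zero_of_mem this)
  have e1 : ∀ σ : Equiv.Perm β, cE D g σ * f σ =
      (∑ τ ∈ fixs D, g (σ * τ) * f (σ * τ)) / ((fixs D).card : ℝ) := by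
    intro σ
    rw [cE, avg, div_mul_eq_mul_div, Finset.sum_mul]
    congr 1
    refine Finset.sum_congr rfl (fun τ hτ => ?_)
    rw [hf σ τ hτ]
  rw [Finset.sum_congr rfl (fun σ _ => e1 σ), ← Finset.sum_div, Finset.sum_comm]
  have e2 : ∀ τ ∈ fixs D, ∑ σ : Equiv.Perm β, g (σ * τ) * f (σ * τ) =
      ∑ σ : Equiv.Perm β, g σ * f σ := by
    intro τ _
    exact Equiv.sum_comp (Equiv.mulRight τ) (fun σ => g σ * f σ)
  rw [Finset.sum_congr rfl e2, Finset.sum_const, nsmul_eq_mul, mul_comm, mul_div_assoc,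
    div_self hne, mul_one]

end main

end Bp_aux

theorem iBp (h : StSg) : StBp := by
  intro β _ _ T g
  refine ⟨fun σ h' hT => Bp_aux.part1 h T g σ h' hT, ?_, fun D hTD => ?_⟩
  · unfold avg
    rw [Bp_aux.part3 h T g]
  · unfold avg
    rw [← Bp_aux.part3 h T g, Bp_aux.part4 D g (BT T g)]
    intro σ τ hτ
    have hfix : ∀ x ∈ T, τ x = x := by
      intro x hx
      have := (Finset.mem_filter.1 hτ).2
      exact this x (hTD hx)
    obtain ⟨-, -, -, -, -, h6, -⟩ := h β T
    rw [Bp_aux.part1 h T g σ τ (fun x hx => by rw [hfix x hx]; exact hx), h6 τ hfix, one_mul]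

end Pool.Agent.Work.MP_499dc6_lc.SG
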