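import Pool.Agent.Work.MP_499dc6_lc.SG.Stmts

/-!
MP_499dc6_lc, block SG, item Chj: children of jump gates.
-/

set_option autoImplicit false

open Finset

noncomputable section

namespace Pool.Agent.Work.MP_499dc6_lc.SG

namespace Chj_aux

/-- replacing the pieces `l < n` of the child `i0` by `v` -/
lemma repl {m q : ℕ} (w : Fin q → ℕ → Mon m) (α : Fin q →₀ ℕ) (i0 : Fin q) (n : ℕ) (hn : n ≤ α i0)
    (v : Mon m) :
    ∑ i, ∑ l ∈ range (α i), (if i = i0 ∧ l < n then v else w i l) =
      (∑ i, ∑ l ∈ range (α i), (if i = i0 ∧ l < n then 0 else w i l)) + n • v := by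
  have h1 : ∀ i : Fin q, ∀ l : ℕ, (if i = i0 ∧ l < n then v else w i l) =
      (if i = i0 ∧ l < n then 0 else w i l) + (if i = i0 ∧ l < n then v else 0) := by
    intro i l
    split_ifs <;> simp
  have h2 : ∑ i, ∑ l ∈ range (α i), (if i = i0 ∧ l < n then v else 0) = n • v := by
    rw [Finset.sum_eq_single i0]
    · rw [← Finset.sum_filter, Finset.sum_const]
      congr 1
      have : (range (α i0)).filter (fun l => i0 = i0 ∧ l < n) = range n := by
        ext l
        simp only [mem_filter, mem_range, true_and]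
        omega
      rw [this, card_range]
    · intro i _ hi
      apply Finset.sum_eq_zero
      intro l _
      rw [if_neg]
      rintro ⟨h, _⟩
      exact hi h
    · intro h
      exact absurd (mem_univ _) h
  simp only [h1, Finset.sum_add_distrib, h2]

end Chj_aux

open Chj_aux in
theorem iChj (hF : StMf) (hT : StTy) : StChj := by
  intro m G T t q a J hP hU hG α hα w hw i0 hi0
  obtain ⟨_, u, hu⟩ := id hU
  have key : ∀ n : ℕ, n ≤ α i0 → ∀ v ∈ G (a i0),
      (∑ i, ∑ l ∈ range (α i), (if i = i0 ∧ l < n then 0 else w i l)) + n • v ∈ G t := by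
    intro n hn v hv
    rw [← repl w α i0 n hn v, hG]
    refine ⟨α, hα, fun i l => if i = i0 ∧ l < n then v else w i l, ?_, rfl⟩
    intro i l hl
    by_cases h : i = i0 ∧ l < n
    · simp only [if_pos h]
      rw [h.1]
      exact hv
    · simp only [if_neg h]
      exact hw i l hl
  refine ⟨⟨⟨w i0 0, hw i0 0 hi0⟩,
    u + ∑ i, ∑ l ∈ range (α i), (if i = i0 ∧ l < 1 then 0 else w i l), ?_⟩, ?_⟩
  · intro v hv
    have h := hu _ (key 1 hi0 v hv)
    rw [one_smul, ← add_assoc] at h
    exact h
  · intro h2 l hl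
    have hmem := key 2 h2 (w i0 l) (hw i0 l hl)
    have hty := (hT m G T t hP hU).2 _ hmem
    obtain ⟨_, hadd, _⟩ := hF m
    have hrow : ∀ j, rs (w i0 l) j = 0 := by
      intro j
      have h3 := hty.1 j
      rw [(hadd _ _).1 j, two_smul, (hadd _ _).1 j] at h3
      omega
    have hdg : dg (w i0 l) = 0 := by
      unfold dg
      exact Finset.sum_eq_zero fun j _ => hrow j
    exact (hadd (w i0 l) (w i0 l)).2.2.2.1 hdg

end Pool.Agent.Work.MP_499dc6_lc.SG
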