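import Pool.Agent.Work.MP_499dc6_lc.SG.Stmts

/-!
Item Chs: children of set gates are useful.
-/

set_option autoImplicit false

open Finset

namespace Pool.Agent.Work.MP_499dc6_lc.SG

theorem iChs : StChs := by
  intro m G T t q a A hU hG M hM w hw i hi
  obtain ⟨-, u, hu⟩ := hU
  refine ⟨⟨w i, hw i hi⟩, u + ∑ j ∈ M.erase i, w j, ?_⟩
  intro v hv
  have key : (∑ j ∈ M, (Function.update w i v) j) ∈ G t := by
    rw [hG]
    refine ⟨M, hM, Function.update w i v, ?_, rfl⟩
    intro j hj
    by_cases hji : j = i
    · subst hji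
      rw [Function.update_self]
      exact hv
    · rw [Function.update_of_ne hji]
      exact hw j hj
  have h2 : ∑ j ∈ M, (Function.update w i v) j = ∑ j ∈ M.erase i, w j + v := by
    rw [← Finset.sum_erase_add M _ hi, Function.update_self]
    congr 1
    apply Finset.sum_congr rfl
    intro j hj
    rw [Function.update_of_ne (Finset.ne_of_mem_erase hj)]
  have h3 := hu _ key
  rw [h2, ← add_assoc] at h3
  exact h3

end Pool.Agent.Work.MP_499dc6_lc.SG
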