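import Pool.Agent.Work.MP_499dc6_lc.SG.Stmts

/-! Item Cm of block SG: union bound over the nodes. -/

set_option autoImplicit false

open Finset

noncomputable section

namespace Pool.Agent.Work.MP_499dc6_lc.SG

theorem iCm (hD : StDesc) (hN : StNc) : StCm := by
  classical
  intro m G T nd hm hP hOK A hA
  set X : ℝ := (m.factorial : ℝ) * Real.exp (4 - (m : ℝ) / 24) with hX
  have hcover : A ⊆ (range (T + 1)).biUnion
      (fun t => A.filter (fun σ => MidAt G T t σ ∨ StopAt G T t σ (nd t))) := by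
    intro σ hσ
    obtain ⟨t, ht, h⟩ := hD m G T nd (by omega) hP hOK σ (hA σ hσ)
    exact mem_biUnion.2 ⟨t, mem_range.2 (by omega), mem_filter.2 ⟨hσ, h⟩⟩
  have h1 : (A.card : ℝ) ≤ ∑ t ∈ range (T + 1),
      ((A.filter (fun σ => MidAt G T t σ ∨ StopAt G T t σ (nd t))).card : ℝ) := by
    exact_mod_cast (card_le_card hcover).trans card_biUnion_le
  refine h1.trans ?_
  rw [Finset.sum_mul]
  refine Finset.sum_le_sum ?_
  intro t ht
  have htT : t ≤ T := by
    have := mem_range.1 ht
    omega
  exact hN m G T t (nd t) hm hP (hOK t htT) _ (fun σ hσ => (mem_filter.1 hσ).2)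

end Pool.Agent.Work.MP_499dc6_lc.SG
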