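import Pool.Agent.Work.MP_499dc6_lc.SG.Stmts

/-!
MP_499dc6_lc, block SG, item Cnt: counting the permutations which map a set of rows into a set of
columns of the same size.
-/

set_option autoImplicit false

open Finset

noncomputable section

namespace Pool.Agent.Work.MP_499dc6_lc.SG

namespace Cnt_aux

theorem two_pow_le_choose : ∀ (r n : ℕ), 2 * r ≤ n → 2 ^ r ≤ n.choose r := by
  intro r
  induction r with
  | zero => intro n _; simp
  | succ r ih =>
    intro n hn
    obtain ⟨n, rfl⟩ : ∃ k, n = k + 1 := ⟨n - 1, by omega⟩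
    have h1 := ih n (by omega)
    have h2 : (n + 1) * n.choose r = (n + 1).choose (r + 1) * (r + 1) := Nat.add_one_mul_choose_eq n r
    have h3 : 2 * (r + 1) * n.choose r ≤ (n + 1) * n.choose r := Nat.mul_le_mul_right _ hn
    have h4 : (2 * n.choose r) * (r + 1) ≤ (n + 1).choose (r + 1) * (r + 1) := by
      rw [← h2]
      calc (2 * n.choose r) * (r + 1) = 2 * (r + 1) * n.choose r := by ring
        _ ≤ _ := h3
    have h5 : 2 * n.choose r ≤ (n + 1).choose (r + 1) := Nat.le_of_mul_le_mul_right h4 (by omega)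
    calc 2 ^ (r + 1) = 2 * 2 ^ r := by ring
      _ ≤ 2 * n.choose r := Nat.mul_le_mul_left _ h1
      _ ≤ _ := h5

theorem two_pow_le_choose_cube (m r : ℕ) (h1 : m ≤ 3 * r) (h2 : 3 * r ≤ 2 * m) :
    2 ^ m ≤ (m.choose r) ^ 3 := by
  have key : ∀ k, 2 * k ≤ m → m ≤ 3 * k → 2 ^ m ≤ (m.choose k) ^ 3 := by
    intro k hk hk3
    calc 2 ^ m ≤ 2 ^ (k * 3) := Nat.pow_le_pow_right (by norm_num) (by omega)
      _ = (2 ^ k) ^ 3 := by rw [pow_mul]
      _ ≤ _ := Nat.pow_le_pow_left (two_pow_le_choose k m hk) 3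
  rcases le_or_gt (2 * r) m with h | h
  · exact key r h h1
  · have hr : r ≤ m := by omega
    rw [← Nat.choose_symm hr]
    exact key (m - r) (by omega) (by omega)

theorem exp_bound (m : ℕ) : (2 * Real.exp ((m : ℝ) / 24 - 4)) ^ 3 ≤ (2 : ℝ) ^ m := by
  have h1 : (2 * Real.exp ((m : ℝ) / 24 - 4)) ^ 3 = 8 * Real.exp (-12) * Real.exp (1 / 8) ^ m := by
    rw [mul_pow, ← Real.exp_nat_mul, ← Real.exp_nat_mul]
    rw [mul_assoc, ← Real.exp_add]
    norm_num
    ring_nf
  rw [h1]
  have h2 : Real.exp (1 / 8) ≤ 2 := by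
    have h3 : Real.exp (1 / 8) ^ 8 ≤ (2 : ℝ) ^ 8 := by
      rw [← Real.exp_nat_mul]
      have h4 : Real.exp 1 < 2.7182818286 := Real.exp_one_lt_d9
      have h5 : ((8 : ℕ) : ℝ) * (1 / 8) = 1 := by norm_num
      rw [h5]
      norm_num at h4 ⊢
      linarith
    exact le_of_pow_le_pow_left₀ (by norm_num) (by norm_num) h3
  have h6 : Real.exp (-12) ≤ 1 / 8 := by
    have h7 : (13 : ℝ) ≤ Real.exp 12 := by
      have := Real.add_one_le_exp (12 : ℝ)
      linarith
    rw [Real.exp_neg]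
    have h8 : (8 : ℝ) ≤ Real.exp 12 := by linarith
    rw [one_div]
    exact inv_anti₀ (by norm_num) h8
  have h9 : Real.exp (1 / 8) ^ m ≤ (2 : ℝ) ^ m := pow_le_pow_left₀ (Real.exp_pos _).le h2 m
  have h10 : 0 ≤ Real.exp (1 / 8) ^ m := by positivity
  have h11 : 8 * Real.exp (-12) ≤ 1 := by linarith
  calc 8 * Real.exp (-12) * Real.exp (1 / 8) ^ m ≤ 1 * Real.exp (1 / 8) ^ m :=
        mul_le_mul_of_nonneg_right h11 h10
    _ = Real.exp (1 / 8) ^ m := one_mul _
    _ ≤ _ := h9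

theorem choose_bound (m r : ℕ) (h1 : m ≤ 3 * r) (h2 : 3 * r ≤ 2 * m) :
    2 * Real.exp ((m : ℝ) / 24 - 4) ≤ (m.choose r : ℝ) := by
  have h3 : (2 * Real.exp ((m : ℝ) / 24 - 4)) ^ 3 ≤ ((m.choose r : ℕ) : ℝ) ^ 3 := by
    refine (exp_bound m).trans ?_
    have := two_pow_le_choose_cube m r h1 h2
    exact_mod_cast this
  exact le_of_pow_le_pow_left₀ (by norm_num) (by positivity) h3

theorem maps_compl {m : ℕ} {R C : Finset (Fin m)} (hc : C.card = R.card) {σ : Equiv.Perm (Fin m)}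
    (h : ∀ x ∈ R, σ x ∈ C) : ∀ x, x ∉ R → σ x ∉ C := by
  intro x hx hx'
  have h1 : R.image σ = C := by
    apply Finset.eq_of_subset_of_card_le
    · intro y hy
      obtain ⟨z, hz, rfl⟩ := Finset.mem_image.1 hy
      exact h z hz
    · rw [Finset.card_image_of_injective _ σ.injective, hc]
  rw [← h1] at hx'
  obtain ⟨z, hz, hzx⟩ := Finset.mem_image.1 hx'
  rw [σ.injective hzx] at hz
  exact hx hz

theorem card_bound (m : ℕ) (R C : Finset (Fin m)) (hc : C.card = R.card)
    (A : Finset (Equiv.Perm (Fin m))) (hA : ∀ σ ∈ A, ∀ x ∈ R, σ x ∈ C) :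
    A.card ≤ R.card.factorial * (m - R.card).factorial := by
  classical
  let F : A → ({x // x ∈ R} ↪ {x // x ∈ C}) × ({x // x ∉ R} ↪ {x // x ∉ C}) := fun σ =>
    (⟨fun x => ⟨σ.1 x.1, hA σ.1 σ.2 x.1 x.2⟩, fun x y hxy => by
        have := congrArg Subtype.val hxy
        exact Subtype.ext (σ.1.injective this)⟩,
      ⟨fun x => ⟨σ.1 x.1, maps_compl hc (hA σ.1 σ.2) x.1 x.2⟩, fun x y hxy => by
        have := congrArg Subtype.val hxy
        exact Subtype.ext (σ.1.injective this)⟩)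
  have hF : Function.Injective F := by
    intro σ τ hστ
    apply Subtype.ext
    apply Equiv.ext
    intro x
    by_cases hx : x ∈ R
    · have h1 := congrArg (fun p => (p.1 ⟨x, hx⟩ : {x // x ∈ C}).1) hστ
      exact h1
    · have h1 := congrArg (fun p => (p.2 ⟨x, hx⟩ : {x // x ∉ C}).1) hστ
      exact h1
  have h1 := Fintype.card_le_of_injective F hF
  rw [Fintype.card_prod, Fintype.card_embedding_eq, Fintype.card_embedding_eq] at h1
  have hR : Fintype.card {x // x ∈ R} = R.card := Fintype.card_coe R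
  have hC : Fintype.card {x // x ∈ C} = R.card := by rw [Fintype.card_coe, hc]
  have hR' : Fintype.card {x // x ∉ R} = m - R.card := by
    rw [Fintype.card_subtype_compl, hR, Fintype.card_fin]
  have hC' : Fintype.card {x // x ∉ C} = m - R.card := by
    rw [Fintype.card_subtype_compl, hC, Fintype.card_fin]
  rw [hR, hC, hR', hC', Nat.descFactorial_self, Nat.descFactorial_self, Fintype.card_coe] at h1
  exact h1

end Cnt_aux

open Cnt_aux

theorem iCnt : StCnt := by
  intro m R C hc h1 h2 A hA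
  have hcard := card_bound m R C hc A hA
  have hr : R.card ≤ m := by
    have := Finset.card_le_univ R
    simpa using this
  have hf : m.choose R.card * R.card.factorial * (m - R.card).factorial = m.factorial :=
    Nat.choose_mul_factorial_mul_factorial hr
  have hb := choose_bound m R.card h1 h2
  have hA' : (A.card : ℝ) ≤ (R.card.factorial : ℝ) * ((m - R.card).factorial : ℝ) := by
    exact_mod_cast hcard
  have hf' : (m.choose R.card : ℝ) * ((R.card.factorial : ℝ) * ((m - R.card).factorial : ℝ)) =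
      (m.factorial : ℝ) := by
    rw [← mul_assoc]
    exact_mod_cast hf
  set Z : ℝ := (R.card.factorial : ℝ) * ((m - R.card).factorial : ℝ) with hZ
  have hZ0 : 0 ≤ Z := by positivity
  have hE : Real.exp (4 - (m : ℝ) / 24) * Real.exp ((m : ℝ) / 24 - 4) = 1 := by
    rw [← Real.exp_add]
    norm_num
  have hEp : 0 < Real.exp (4 - (m : ℝ) / 24) := Real.exp_pos _
  have h3 : 2 * Real.exp ((m : ℝ) / 24 - 4) * Z ≤ (m.factorial : ℝ) := by
    rw [← hf']
    exact mul_le_mul_of_nonneg_right hb hZ0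
  have h4 : Z = 1 / 2 * (2 * Real.exp ((m : ℝ) / 24 - 4) * Z) * Real.exp (4 - (m : ℝ) / 24) := by
    calc Z = 1 * Z := (one_mul Z).symm
      _ = (Real.exp (4 - (m : ℝ) / 24) * Real.exp ((m : ℝ) / 24 - 4)) * Z := by rw [hE]
      _ = _ := by ring
  calc (A.card : ℝ) ≤ Z := hA'
    _ = 1 / 2 * (2 * Real.exp ((m : ℝ) / 24 - 4) * Z) * Real.exp (4 - (m : ℝ) / 24) := h4
    _ ≤ 1 / 2 * (m.factorial : ℝ) * Real.exp (4 - (m : ℝ) / 24) := by
        apply mul_le_mul_of_nonneg_right _ hEp.le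
        linarith

end Pool.Agent.Work.MP_499dc6_lc.SG
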