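import Pool.Agent.Work.MP_499dc6_lc.SG.Stmts

set_option autoImplicit false

open Finset

noncomputable section

namespace Pool.Agent.Work.MP_499dc6_lc.SG

namespace Cst_aux

/-- a function invariant under a cycle is constant on its support -/
theorem inv_const {m : ℕ} {z : Equiv.Perm (Fin m)} (hz : z.IsCycle) {F : Fin m → ℕ}
    (hF : ∀ i, F (z i) = F i) {x y : Fin m} (hx : z x ≠ x) (hy : z y ≠ y) : F y = F x := by
  obtain ⟨n, hn⟩ := hz.exists_pow_eq hx hy
  have h : ∀ n : ℕ, F ((z ^ n) x) = F x := by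
    intro n
    induction n with
    | zero => simp
    | succ n ih => rw [pow_succ', Equiv.Perm.mul_apply, hF, ih]
  rw [← hn, h]

theorem rs_inv {m : ℕ} (hF : StMf) {σ τ : Equiv.Perm (Fin m)} {x x' : Mon m}
    (hx : x ≤ permMon σ) (hx' : x' ≤ permMon τ) (hr : rs x = rs x') (hc : cs x = cs x') (i : Fin m) :
    rs x ((σ⁻¹ * τ) i) = rs x i := by
  have h1 := ((hF m).1 σ x hx).2.2.2.1 ((σ⁻¹ * τ) i)
  have h2 := ((hF m).1 τ x' hx').2.2.2.1 i
  have h3 : σ ((σ⁻¹ * τ) i) = τ i := by simp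
  rw [h3] at h1
  rw [← h1, hc, h2, hr]

/-- the restrictions of `σ` and `τ` agree if the cycle `σ⁻¹ τ` avoids the rows -/
theorem eq_of_zero {m : ℕ} (hF : StMf) {σ τ : Equiv.Perm (Fin m)} {x x' : Mon m}
    (hx : x ≤ permMon σ) (hx' : x' ≤ permMon τ) (hr : rs x = rs x')
    (h0 : ∀ i, (σ⁻¹ * τ) i ≠ i → rs x i = 0) : x = x' := by
  ext ⟨i, j⟩
  rw [((hF m).1 σ x hx).1 i j, ((hF m).1 τ x' hx').1 i j, ← hr]
  by_cases h : (σ⁻¹ * τ) i = i
  · have h3 : σ i = τ i := by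
      have : σ ((σ⁻¹ * τ) i) = τ i := by simp
      rw [h] at this
      exact this
    rw [h3]
  · rw [h0 i h]; simp

theorem piece_eq {m : ℕ} (hF : StMf) {σ τ : Equiv.Perm (Fin m)} (hz : (σ⁻¹ * τ).IsCycle)
    (hcard : m < 3 * (σ⁻¹ * τ).support.card) {x x' : Mon m}
    (hx : x ≤ permMon σ) (hx' : x' ≤ permMon τ) (hr : rs x = rs x') (hc : cs x = cs x')
    (hd : 3 * dg x < m) : x = x' := by
  apply eq_of_zero hF hx hx' hr
  intro i hi
  by_contra h0
  have hle := ((hF m).1 σ x hx).2.1 i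
  have h1 : rs x i = 1 := by omega
  have hsub : (σ⁻¹ * τ).support ⊆ univ.filter (fun i => rs x i = 1) := by
    intro y hy
    rw [Equiv.Perm.mem_support] at hy
    rw [mem_filter]
    refine ⟨mem_univ _, ?_⟩
    rw [inv_const hz (F := rs x) (fun i => rs_inv hF hx hx' hr hc i) hi hy, h1]
  have h2 := card_le_card hsub
  rw [((hF m).1 σ x hx).2.2.2.2.2.1] at h2
  omega

theorem big_ne {m : ℕ} (hF : StMf) {σ τ : Equiv.Perm (Fin m)} (hz : (σ⁻¹ * τ).IsCycle)
    (hcard : m < 3 * (σ⁻¹ * τ).support.card) {x x' : Mon m}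
    (hx : x ≤ permMon σ) (hx' : x' ≤ permMon τ) (hr : rs x = rs x') (hc : cs x = cs x')
    (hd : 2 * m ≤ 3 * dg x) : x ≠ x' := by
  have hz' : (σ⁻¹ * τ).IsCycle := hz
  obtain ⟨i, hi, -⟩ := hz
  intro he
  have h1 : rs x i = 1 := by
    by_contra h1
    have hle := ((hF m).1 σ x hx).2.1 i
    have h0 : rs x i = 0 := by omega
    have hsub : (σ⁻¹ * τ).support ⊆ (univ.filter (fun i => rs x i = 1))ᶜ := by
      intro y hy
      rw [Equiv.Perm.mem_support] at hy
      rw [mem_compl, mem_filter, not_and]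
      intro _
      rw [inv_const hz' (F := rs x) (fun i => rs_inv hF hx hx' hr hc i) hi hy, h0]
      omega
    have h2 := card_le_card hsub
    rw [card_compl, ((hF m).1 σ x hx).2.2.2.2.2.1, Fintype.card_fin] at h2
    omega
  have h3 : σ i ≠ τ i := by
    intro h
    apply hi
    rw [Equiv.Perm.mul_apply, ← h]
    simp
  have h4 := ((hF m).1 σ x hx).1 i (σ i)
  have h5 := ((hF m).1 τ x' hx').1 i (σ i)
  rw [if_pos rfl, h1] at h4
  rw [if_neg (Ne.symm h3), ← he, h4] at h5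
  exact one_ne_zero h5

theorem two_inj {q : ℕ} {M N : Finset (Fin q)}
    (h : ∑ i ∈ M, 2 ^ (i : ℕ) = ∑ i ∈ N, 2 ^ (i : ℕ)) : M = N := by
  have h1 : ∑ i ∈ M.map Fin.valEmbedding, 2 ^ i = ∑ i ∈ N.map Fin.valEmbedding, 2 ^ i := by
    rw [Finset.sum_map, Finset.sum_map]
    exact h
  exact Finset.map_injective _ (Finset.geomSum_injective (le_refl 2) h1)

theorem le_sum {m q : ℕ} {M : Finset (Fin q)} {w : Fin q → Mon m} {i : Fin q} (hi : i ∈ M) :
    w i ≤ ∑ i ∈ M, w i :=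
  Finset.single_le_sum (f := w) (fun _ _ => zero_le) hi

end Cst_aux

open Cst_aux in
theorem iCst (hT : StTy) (hS : StChs) (hF : StMf) (h2 : StTwo) : StCst := by
  intro m G T t q a A κ hP hκ hG σ τ M M' hM hM' hcol
  rintro ⟨hcyc, hcard⟩
  obtain ⟨hU, v, hvG, hvσ, hdv, hMA, ⟨w, hw, hv, hwd⟩, hmin⟩ := hM
  obtain ⟨-, v', hvG', hvτ, hdv', hMA', ⟨w', hw', hv', hwd'⟩, hmin'⟩ := hM'
  obtain ⟨hrv, hcv, hdd⟩ := (hT m G T t hP hU).1 v hvG v' hvG'
  have hne : v ≠ v' := big_ne hF hcyc hcard hvσ hvτ hrv hcv hdv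
  have hcommon : ∀ i ∈ M, i ∈ M' → w i = w' i := by
    intro i hi hi'
    have hUi : Useful G T (a i) := hS m G T t q a A hU hG M hMA w hw i hi
    obtain ⟨h3, h4, -⟩ := (hT m G T (a i) hP hUi).1 (w i) (hw i hi) (w' i) (hw' i hi')
    have h5 : w i ≤ permMon σ := le_trans (hv ▸ le_sum hi) hvσ
    have h6 : w' i ≤ permMon τ := le_trans (hv' ▸ le_sum hi') hvτ
    exact piece_eq hF hcyc hcard h5 h6 h3 h4 (hwd i hi)
  by_cases hMM : M = M'
  · subst hMM
    apply hne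
    rw [hv, hv']
    exact Finset.sum_congr rfl (fun i hi => hcommon i hi hi)
  have hnel : ¬ Elem A M M' := fun h => hκ M hMA M' hMA' h hcol
  unfold Elem at hnel
  push Not at hnel
  obtain ⟨N, hNA, N', hNA', hun, hin, hN, hN'⟩ := hnel hMM
  -- the common pieces
  set c : Fin q → Mon m := fun i => if i ∈ M then w i else w' i with hc
  set c' : Fin q → Mon m := fun i => if i ∈ M' then w' i else w i with hc'
  have hcc : ∀ i ∈ M ∪ M', c i = c' i := by
    intro i hi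
    simp only [hc, hc']
    by_cases h3 : i ∈ M
    · by_cases h4 : i ∈ M'
      · rw [if_pos h3, if_pos h4]; exact hcommon i h3 h4
      · rw [if_pos h3, if_neg h4]
    · have h4 : i ∈ M' := by
        rcases mem_union.mp hi with h | h
        · exact absurd h h3
        · exact h
      rw [if_neg h3, if_pos h4]
  have hNsub : ∀ i ∈ N, i ∈ M ∪ M' := fun i hi => hun ▸ mem_union_left _ hi
  have hNsub' : ∀ i ∈ N', i ∈ M ∪ M' := fun i hi => hun ▸ mem_union_right _ hi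
  have hcG : ∀ i ∈ N, c i ∈ G (a i) := by
    intro i hi
    simp only [hc]
    by_cases h3 : i ∈ M
    · rw [if_pos h3]; exact hw i h3
    · rw [if_neg h3]
      rcases mem_union.mp (hNsub i hi) with h | h
      · exact absurd h h3
      · exact hw' i h
  have hcG' : ∀ i ∈ N', c' i ∈ G (a i) := by
    intro i hi
    simp only [hc']
    by_cases h3 : i ∈ M'
    · rw [if_pos h3]; exact hw' i h3
    · rw [if_neg h3]
      rcases mem_union.mp (hNsub' i hi) with h | h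
      · exact hw i h
      · exact absurd h h3
  have hνc : IsCombS (fun i => G (a i)) N (∑ i ∈ N, c i) := ⟨c, hcG, rfl⟩
  have hνc' : IsCombS (fun i => G (a i)) N' (∑ i ∈ N', c' i) := ⟨c', hcG', rfl⟩
  have hνG : (∑ i ∈ N, c i) ∈ G t := (hG _).mpr ⟨N, hNA, hνc⟩
  have hνG' : (∑ i ∈ N', c' i) ∈ G t := (hG _).mpr ⟨N', hNA', hνc'⟩
  have hsum : (∑ i ∈ N, c i) + ∑ i ∈ N', c' i = v + v' := by
    have e1 : ∑ i ∈ N', c' i = ∑ i ∈ N', c i :=
      Finset.sum_congr rfl (fun i hi => (hcc i (hNsub' i hi)).symm)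
    have e2 : v = ∑ i ∈ M, c i := by
      rw [hv]
      refine Finset.sum_congr rfl (fun i hi => ?_)
      simp only [hc]; rw [if_pos hi]
    have e3 : v' = ∑ i ∈ M', c i := by
      rw [hv']
      refine Finset.sum_congr rfl (fun i hi => ?_)
      rw [hcc i (mem_union_right _ hi)]
      simp only [hc']; rw [if_pos hi]
    rw [e1, e2, e3, ← Finset.sum_union_inter (s₁ := N) (s₂ := N'), hun, hin,
      Finset.sum_union_inter]
  obtain ⟨hr1, hc1, -⟩ := (hT m G T t hP hU).1 _ hνG v hvG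
  have hW : (∑ i ∈ N, 2 ^ (i : ℕ)) + ∑ i ∈ N', 2 ^ (i : ℕ) =
      (∑ i ∈ M, 2 ^ (i : ℕ)) + ∑ i ∈ M', 2 ^ (i : ℕ) := by
    rw [← Finset.sum_union_inter (s₁ := N) (s₂ := N'), hun, hin, Finset.sum_union_inter]
  rcases h2 m σ τ v v' _ _ hcyc hvσ hvτ hrv.symm hcv.symm hsum hr1 hc1
    ((hF m).1 σ v hvσ).2.1 with h | h
  · have h' : ∑ i ∈ N', c' i = v' := by
      rw [h] at hsum
      exact add_left_cancel hsum
    have a1 := hmin N hNA (h ▸ hνc)
    have a2 := hmin' N' hNA' (h' ▸ hνc')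
    apply hN
    apply two_inj
    omega
  · have h' : ∑ i ∈ N', c' i = v := by
      rw [h, add_comm v v'] at hsum
      exact add_left_cancel hsum
    have a1 := hmin' N hNA (h ▸ hνc)
    have a2 := hmin N' hNA' (h' ▸ hνc')
    apply hN'
    apply two_inj
    omega

end Pool.Agent.Work.MP_499dc6_lc.SG
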