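import Pool.Agent.Work.MP_499dc6_lc.SG.Stmts

/-!
MP_499dc6_lc, block SG, item Desc: the descent from the top gate along heavy pieces.
-/

set_option autoImplicit false

open Finset

noncomputable section

namespace Pool.Agent.Work.MP_499dc6_lc.SG

namespace Desc_aux

/-- one step of the descent -/
lemma step {m : ℕ} {G : ℕ → Set (Mon m)} {T t : ℕ} {nd : ℕ → Nd m} {σ : Equiv.Perm (Fin m)}
    (hT : t ≤ T)
    (ih : ∀ s < t, s ≤ T → Useful G T s → ∀ v ∈ G s, v ≤ permMon σ → 2 * m ≤ 3 * dg v →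
      ∃ t' ≤ T, MidAt G T t' σ ∨ StopAt G T t' σ (nd t'))
    {s : ℕ} (hs : s < t) (hU : Useful G T s) {v : Mon m} (hv : v ∈ G s) (hle : v ≤ permMon σ)
    (hm : m ≤ 3 * dg v) : ∃ t' ≤ T, MidAt G T t' σ ∨ StopAt G T t' σ (nd t') := by
  have hsT : s ≤ T := le_of_lt (lt_of_lt_of_le hs hT)
  by_cases h : 3 * dg v < 2 * m
  · exact ⟨s, hsT, Or.inl ⟨hU, v, hv, hle, hm, h⟩⟩
  · exact ih s hs hsT hU v hv hle (not_lt.mp h)

/-- the descent below a gate `t` -/
lemma descent (hJ : StChj) (hS : StChs) {m : ℕ} {G : ℕ → Set (Mon m)} {T : ℕ} {nd : ℕ → Nd m}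
    (hm2 : 2 ≤ m) (hP : PermSet (G T)) (hok : ∀ t ≤ T, NodeOK G t (nd t))
    (σ : Equiv.Perm (Fin m)) :
    ∀ t : ℕ, t ≤ T → Useful G T t → ∀ v ∈ G t, v ≤ permMon σ → 2 * m ≤ 3 * dg v →
      ∃ t' ≤ T, MidAt G T t' σ ∨ StopAt G T t' σ (nd t') := by
  intro t
  induction t using Nat.strong_induction_on with
  | _ t ih =>
    intro htT hU v hv hle hdg
    have hn := hok t htT
    rcases hnd : nd t with _ | ⟨q, a, J⟩ | ⟨q, a, A, κ, c⟩
    · rw [hnd] at hn
      have h1 : dg v ≤ 1 := hn v hv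
      omega
    · rw [hnd] at hn
      obtain ⟨ha, -, hG⟩ := hn
      obtain ⟨α, hα, w, hw, hvw⟩ := (hG v).1 hv
      by_cases hall : ∀ i, ∀ l < α i, 3 * dg (w i l) < m
      · refine ⟨t, htT, Or.inr ?_⟩
        rw [hnd]
        refine ⟨hU, α, hα, w, hw, ?_, ?_, hall⟩
        · rw [← hvw]
          exact hle
        · rw [← hvw]
          exact hdg
      · push Not at hall
        obtain ⟨i, l, hl, hil⟩ := hall
        have hUi := (hJ m G T t q a J hP hU hG α hα w hw i (lt_of_le_of_lt (Nat.zero_le l) hl)).1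
        have h1 : w i l ≤ ∑ l ∈ range (α i), w i l :=
          Finset.single_le_sum (f := fun l => w i l) (fun _ _ => zero_le) (mem_range.mpr hl)
        have h2 : ∑ l ∈ range (α i), w i l ≤ ∑ i, ∑ l ∈ range (α i), w i l :=
          Finset.single_le_sum (f := fun i => ∑ l ∈ range (α i), w i l)
            (fun _ _ => zero_le) (mem_univ i)
        have h3 : w i l ≤ permMon σ := by
          refine le_trans (le_trans h1 h2) ?_
          rw [← hvw]
          exact hle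
        exact step htT ih (ha i) hUi (hw i l hl) h3 hil
    · rw [hnd] at hn
      obtain ⟨ha, -, hG⟩ := hn
      obtain ⟨M, ⟨hMA, hMv⟩, hmin⟩ : ∃ M, (M ∈ A ∧ IsCombS (fun i => G (a i)) M v) ∧
          ∀ M' ∈ A, IsCombS (fun i => G (a i)) M' v →
            ∑ i ∈ M, 2 ^ (i : ℕ) ≤ ∑ i ∈ M', 2 ^ (i : ℕ) := by
        obtain ⟨M₀, hM₀, hc₀⟩ := (hG v).1 hv
        obtain ⟨M, hM, hmin⟩ := (measure (fun M : Finset (Fin q) =>
          ∑ i ∈ M, 2 ^ (i : ℕ))).wf.has_min {M | M ∈ A ∧ IsCombS (fun i => G (a i)) M v}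
          ⟨M₀, hM₀, hc₀⟩
        exact ⟨M, hM, fun M' hM' hc' => not_lt.mp (hmin M' ⟨hM', hc'⟩)⟩
      obtain ⟨w, hw, hvw⟩ := hMv
      by_cases hall : ∀ i ∈ M, 3 * dg (w i) < m
      · refine ⟨t, htT, Or.inr ?_⟩
        rw [hnd]
        exact ⟨M, hU, v, hv, hle, hdg, hMA, ⟨w, hw, hvw, hall⟩, hmin⟩
      · push Not at hall
        obtain ⟨i, hi, him⟩ := hall
        have hUi := hS m G T t q a A hU hG M hMA w hw i hi
        have h1 : w i ≤ ∑ i ∈ M, w i :=
          Finset.single_le_sum (f := fun i => w i) (fun _ _ => zero_le) hi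
        have h3 : w i ≤ permMon σ := by
          refine le_trans h1 ?_
          rw [← hvw]
          exact hle
        exact step htT ih (ha i) hUi (hw i hi) h3 him

end Desc_aux

theorem iDesc (hF : StMf) (hJ : StChj) (hS : StChs) : StDesc := by
  intro m G T nd hm2 hP hok σ hσ
  obtain ⟨_, _, _, _, h5⟩ := hF m
  refine Desc_aux.descent hJ hS hm2 hP hok σ T le_rfl ⟨⟨_, hσ⟩, 0, ?_⟩ (permMon σ) hσ le_rfl ?_
  · intro v hv
    rw [zero_add]
    exact hv
  · rw [(h5 σ).2.2]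
    omega

end Pool.Agent.Work.MP_499dc6_lc.SG
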