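import Pool.Agent.Work.MP_499dc6_lc.SG.Stmts

/-!
MP_499dc6_lc, block SG, item Dual: duality of the forms `dd j`.
-/

set_option autoImplicit false

open Finset

noncomputable section

namespace Pool.Agent.Work.MP_499dc6_lc.SG

namespace Dual_aux

open Polynomial

variable {β : Type} [Fintype β] [DecidableEq β]

lemma PM_mul_transpose (h : Equiv.Perm β) : PM h * (PM h).transpose = 1 := by
  ext y y'
  rw [Matrix.mul_apply, Finset.sum_eq_single (h.symm y)]
  · by_cases hy : y = y'
    · subst hy
      simp [PM]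
    · simp [PM, hy]
  · intro x _ hx
    have : h x ≠ y := fun e => hx (by rw [← e, Equiv.symm_apply_apply])
    simp [PM, this]
  · intro hn
    exact absurd (mem_univ _) hn

lemma PM_eq (h : Equiv.Perm β) : PM h = (h.permMatrix ℝ).transpose := by
  ext y x
  simp only [PM, Matrix.of_apply, Matrix.transpose_apply, Equiv.Perm.permMatrix,
    PEquiv.toMatrix_apply, Equiv.toPEquiv_apply, Option.mem_def, Option.some.injEq]

lemma det_PM (h : Equiv.Perm β) : (PM h).det = sgR h := by
  rw [PM_eq, Matrix.det_transpose, Matrix.det_permutation]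
  rfl

lemma ee_eq_coeff (j : ℕ) (h : Equiv.Perm β) :
    ee j h = (Matrix.det (1 + (X : ℝ[X]) • (PM h).map C)).coeff j := by
  rw [Matrix.coeff_det_one_add_X_smul_eq_sum_minors]
  rfl

lemma det_eq (h : Equiv.Perm β) :
    Matrix.det (1 + (X : ℝ[X]) • (PM h).map C) = C (sgR h) * (-(PM h)).charpoly := by
  have h1 : (PM h).map C * ((PM h).map C).transpose = (1 : Matrix β β ℝ[X]) := by
    have := congrArg (fun M : Matrix β β ℝ => M.map (C : ℝ →+* ℝ[X])) (PM_mul_transpose h)
    simp only [Matrix.map_mul] at this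
    rw [Matrix.transpose_map] at this
    rw [this]
    exact Matrix.map_one _ (map_zero _) (map_one _)
  have h2 : (1 : Matrix β β ℝ[X]) + (X : ℝ[X]) • (PM h).map C
      = (PM h).map C * (((PM h).map C).transpose + (X : ℝ[X]) • (1 : Matrix β β ℝ[X])) := by
    rw [mul_add, h1, Matrix.mul_smul, mul_one]
  rw [h2, Matrix.det_mul]
  have h3 : ((PM h).map (C : ℝ →+* ℝ[X])).det = C (sgR h) := by
    rw [← det_PM, RingHom.map_det]
    rfl
  rw [h3]
  congr 1
  have h4 : (((PM h).map (C : ℝ →+* ℝ[X])).transpose + (X : ℝ[X]) • (1 : Matrix β β ℝ[X]))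
      = (Matrix.charmatrix (-(PM h))).transpose := by
    ext y x
    rw [Matrix.transpose_apply]
    by_cases hxy : x = y
    · subst hxy
      simp [Matrix.charmatrix_apply, add_comm]
    · have hyx : y ≠ x := fun e => hxy e.symm
      simp [Matrix.charmatrix_apply, hxy, hyx]
  rw [h4, Matrix.det_transpose]
  rfl

lemma ee_dual (j : ℕ) (h : Equiv.Perm β) (hj : j ≤ Fintype.card β) :
    ee (Fintype.card β - j) h = sgR h * ee j h := by
  have e1 : ee (Fintype.card β - j) h
      = sgR h * (-(PM h)).charpoly.coeff (Fintype.card β - j) := by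
    rw [ee_eq_coeff, det_eq, coeff_C_mul]
  rw [e1, Matrix.charpoly_coeff_eq_sum_minors _ j hj]
  congr 1
  rw [ee, em, Finset.mul_sum]
  refine Finset.sum_congr rfl fun s hs => ?_
  have hc : Fintype.card s = j := by
    rw [Fintype.card_coe]
    exact (Finset.mem_powersetCard.mp hs).2
  have : (-(PM h)).submatrix (Subtype.val : s → β) (Subtype.val : s → β)
      = -((PM h).submatrix (Subtype.val : s → β) (Subtype.val : s → β)) := rfl
  rw [this, Matrix.det_neg, hc, ← mul_assoc, ← mul_pow]
  simp

end Dual_aux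

open Dual_aux in
theorem iDual (h : StEe) : StDual := by
  intro β _ _ g j
  induction j with
  | zero =>
    intro hj
    obtain ⟨h0, h1, h2, h3⟩ := h β g (by omega)
    have hk : Fintype.card β - 1 + 1 = Fintype.card β := by omega
    have e := h2 (Fintype.card β - 1)
    rw [hk, h3 _ le_rfl, zero_add] at e
    have e2 := ee_dual 0 g (Nat.zero_le _)
    rw [Nat.sub_zero] at e2
    rw [Nat.sub_zero, ← e, e2, h0, h1]
  | succ j ih =>
    intro hj
    obtain ⟨h0, h1, h2, h3⟩ := h β g (by omega)
    have ih' := ih (by omega)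
    have e1 := h2 (Fintype.card β - 1 - (j + 1))
    have hk : Fintype.card β - 1 - (j + 1) + 1 = Fintype.card β - 1 - j := by omega
    have hk2 : Fintype.card β - 1 - j = Fintype.card β - (j + 1) := by omega
    rw [hk] at e1
    have e2 := ee_dual (j + 1) g (by omega)
    rw [← hk2, h2 j] at e2
    rw [e1, ih'] at e2
    linear_combination e2

end Pool.Agent.Work.MP_499dc6_lc.SG
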