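import Pool.Agent.Work.MP_499dc6_lc.SG.Stmts

/-!
MP_499dc6_lc, block SG, item Ee: the elementary symmetric functions of a permutation matrix and of
its restriction to the standard representation.
-/

set_option autoImplicit false

open Finset Polynomial

noncomputable section

namespace Pool.Agent.Work.MP_499dc6_lc.SG

namespace Ee_aux

variable {β : Type} [Fintype β] [DecidableEq β]

/-- the matrix with all entries `1 / k` -/
def JM (β : Type) [Fintype β] : Matrix β β ℝ := Matrix.of fun _ _ => 1 / (Fintype.card β : ℝ)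

theorem QM_eq (h : Equiv.Perm β) : QM h = PM h - JM β := by
  ext y x
  simp [QM, PM, JM]

theorem PM_mul_JM (h : Equiv.Perm β) : PM h * JM β = JM β := by
  ext y x
  rw [Matrix.mul_apply]
  simp only [PM, JM, Matrix.of_apply, ite_mul, one_mul, zero_mul]
  rw [Finset.sum_eq_single (h⁻¹ y)]
  · simp
  · intro b _ hb
    rw [if_neg]
    rintro rfl
    exact hb (by simp)
  · simp

theorem JM_mul_JM (hk : 1 ≤ Fintype.card β) : JM β * JM β = JM β := by
  ext y x
  rw [Matrix.mul_apply]
  have hk' : (Fintype.card β : ℝ) ≠ 0 := by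
    have : (0 : ℝ) < Fintype.card β := by exact_mod_cast hk
    exact this.ne'
  simp only [JM, Matrix.of_apply, Finset.sum_const, Finset.card_univ, nsmul_eq_mul]
  field_simp

theorem QM_mul_JM (hk : 1 ≤ Fintype.card β) (h : Equiv.Perm β) : QM h * JM β = 0 := by
  rw [QM_eq, sub_mul, PM_mul_JM, JM_mul_JM hk, sub_self]

/-- `det (1 + X M)` -/
def pol (M : Matrix β β ℝ) : ℝ[X] := (1 + (X : ℝ[X]) • M.map C).det

theorem em_eq (j : ℕ) (M : Matrix β β ℝ) : em j M = (pol M).coeff j :=
  (Matrix.coeff_det_one_add_X_smul_eq_sum_minors M j).symm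

theorem pol_JM (hk : 1 ≤ Fintype.card β) : pol (JM β) = 1 + X := by
  have hk' : (Fintype.card β : ℝ) ≠ 0 := by
    have : (0 : ℝ) < Fintype.card β := by exact_mod_cast hk
    exact this.ne'
  have h1 : (X : ℝ[X]) • (JM β).map C = Matrix.replicateCol Unit (fun _ : β => X * C (1 / (Fintype.card β : ℝ))) *
      Matrix.replicateRow Unit (fun _ : β => (1 : ℝ[X])) := by
    ext y x
    simp [JM, Matrix.mul_apply, Matrix.replicateCol, Matrix.replicateRow]
  unfold pol
  rw [h1, Matrix.det_one_add_replicateCol_mul_replicateRow]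
  simp only [dotProduct, one_mul, Finset.sum_const, Finset.card_univ, nsmul_eq_mul]
  have h2 : ((Fintype.card β : ℕ) : ℝ[X]) = C (Fintype.card β : ℝ) := by simp
  rw [h2, mul_left_comm, ← C_mul, mul_one_div_cancel hk', C_1, mul_one]

theorem pol_PM (hk : 1 ≤ Fintype.card β) (h : Equiv.Perm β) :
    pol (PM h) = pol (QM h) * (1 + X) := by
  rw [← pol_JM (β := β) hk]
  unfold pol
  rw [← Matrix.det_mul]
  congr 1
  have h1 : (QM h).map (C : ℝ → ℝ[X]) * (JM β).map C = 0 := by
    rw [← Matrix.map_mul, QM_mul_JM hk]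
    ext
    simp
  have h2 : (PM h).map (C : ℝ → ℝ[X]) = (QM h).map C + (JM β).map C := by
    rw [← Matrix.map_add]
    · rw [QM_eq, sub_add_cancel]
    · intro a b
      simp
  rw [mul_add, mul_one, add_mul, one_mul, Matrix.smul_mul, Matrix.mul_smul, h1, smul_zero,
    smul_zero, add_zero, h2, smul_add, add_assoc]

theorem em_zero (M : Matrix β β ℝ) : em 0 M = 1 := by
  unfold em
  rw [powersetCard_zero, sum_singleton]
  exact Matrix.det_isEmpty

theorem em_gt {j : ℕ} (hj : Fintype.card β < j) (M : Matrix β β ℝ) : em j M = 0 := by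
  unfold em
  rw [powersetCard_eq_empty.2 (by rwa [Finset.card_univ]), sum_empty]

theorem rec_eq (hk : 1 ≤ Fintype.card β) (h : Equiv.Perm β) (j : ℕ) :
    ee (j + 1) h = dd (j + 1) h + dd j h := by
  unfold ee dd
  rw [em_eq, em_eq, em_eq, pol_PM hk, mul_add, mul_one, coeff_add, coeff_mul_X]

end Ee_aux

/-- ITEM Ee. -/
theorem iEe : StEe := by
  intro β _ _ h hk
  refine ⟨Ee_aux.em_zero _, Ee_aux.em_zero _, fun j => Ee_aux.rec_eq hk h j, fun j hj => ?_⟩
  rcases hj.lt_or_eq with h1 | h1
  · exact Ee_aux.em_gt h1 _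
  · have h2 := Ee_aux.rec_eq hk h j
    have h3 : ee (j + 1) h = 0 := Ee_aux.em_gt (by omega) _
    have h4 : dd (j + 1) h = 0 := Ee_aux.em_gt (by omega) _
    rw [h3, h4, zero_add] at h2
    exact h2.symm

end Pool.Agent.Work.MP_499dc6_lc.SG
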