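import Pool.Agent.Work.MP_499dc6_lc.SG.Stmts

/-!
MP_499dc6_lc, block SG, item Gram: positivity of the quadratic forms, from a form of the formula
of Cauchy and Binet.  Author: helper13.
-/

set_option autoImplicit false

open Finset

noncomputable section

namespace Pool.Agent.Work.MP_499dc6_lc.SG

namespace Gram_aux

variable {β n : Type} [Fintype β] [DecidableEq β] [Fintype n] [DecidableEq n]

/-- expansion in the rows -/
theorem det_tmul (A B : Matrix β n ℝ) :
    (A.transpose * B).det = ∑ s : n → β, (∏ a, B (s a) a) * (A.submatrix s id).det := by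
  rw [Matrix.det_apply']
  have h1 : ∀ π : Equiv.Perm n, ∏ a, (A.transpose * B) (π a) a =
      ∑ s : n → β, ∏ a, (A (s a) (π a) * B (s a) a) := by
    intro π
    have h2 : ∀ a, (A.transpose * B) (π a) a = ∑ x : β, A x (π a) * B x a := by
      intro a
      rw [Matrix.mul_apply]
      rfl
    rw [Finset.prod_congr rfl (fun a _ => h2 a), Finset.prod_univ_sum, Fintype.piFinset_univ]
  simp only [h1, Finset.mul_sum]
  rw [Finset.sum_comm]
  refine Finset.sum_congr rfl fun s _ => ?_
  rw [← Matrix.det_transpose, Matrix.det_apply', Finset.mul_sum]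
  refine Finset.sum_congr rfl fun π _ => ?_
  rw [Finset.prod_mul_distrib]
  simp only [Matrix.transpose_apply, Matrix.submatrix_apply, id_eq]
  ring

/-- Cauchy and Binet, with all functions -/
theorem binet (A B : Matrix β n ℝ) :
    (Fintype.card (Equiv.Perm n) : ℝ) * (A.transpose * B).det =
      ∑ s : n → β, (A.submatrix s id).det * (B.submatrix s id).det := by
  have h1 : ∀ ρ : Equiv.Perm n, (A.transpose * B).det =
      ∑ s : n → β, (A.submatrix s id).det *
        (((Equiv.Perm.sign ρ : ℤ) : ℝ) * ∏ a, B (s (ρ a)) a) := by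
    intro ρ
    rw [det_tmul]
    rw [← Equiv.sum_comp (Equiv.arrowCongr ρ.symm (Equiv.refl β))
      (fun s : n → β => (∏ a, B (s a) a) * (A.submatrix s id).det)]
    refine Finset.sum_congr rfl fun s _ => ?_
    have h2 : (Equiv.arrowCongr ρ.symm (Equiv.refl β)) s = s ∘ ρ := by
      funext a
      simp [Equiv.arrowCongr]
    rw [h2]
    have h3 : A.submatrix (s ∘ ρ) id = (A.submatrix s id).submatrix ρ id := rfl
    rw [h3, Matrix.det_permute]
    simp only [Function.comp_apply]
    ring
  have h4 : ∀ s : n → β, (B.submatrix s id).det =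
      ∑ ρ : Equiv.Perm n, ((Equiv.Perm.sign ρ : ℤ) : ℝ) * ∏ a, B (s (ρ a)) a := by
    intro s
    rw [Matrix.det_apply']
    rfl
  calc (Fintype.card (Equiv.Perm n) : ℝ) * (A.transpose * B).det
      = ∑ _ρ : Equiv.Perm n, (A.transpose * B).det := by
        rw [Finset.sum_const, Finset.card_univ, nsmul_eq_mul]
    _ = ∑ ρ : Equiv.Perm n, ∑ s : n → β, (A.submatrix s id).det *
        (((Equiv.Perm.sign ρ : ℤ) : ℝ) * ∏ a, B (s (ρ a)) a) :=
        Finset.sum_congr rfl fun ρ _ => h1 ρ
    _ = ∑ s : n → β, (A.submatrix s id).det * (B.submatrix s id).det := by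
        rw [Finset.sum_comm]
        refine Finset.sum_congr rfl fun s _ => ?_
        rw [h4, Finset.mul_sum]

/-- one minor -/
theorem minor {ι : Type} [Fintype ι] (A : ι → Matrix β n ℝ) (g : ι → ℝ) :
    0 ≤ ∑ σ, ∑ τ, g σ * g τ * ((A σ).transpose * A τ).det := by
  have hc : 0 < (Fintype.card (Equiv.Perm n) : ℝ) := by
    exact_mod_cast Fintype.card_pos
  have h1 : (Fintype.card (Equiv.Perm n) : ℝ) *
      ∑ σ, ∑ τ, g σ * g τ * ((A σ).transpose * A τ).det =
      ∑ s : n → β, (∑ σ, g σ * ((A σ).submatrix s id).det) ^ 2 := by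
    rw [Finset.mul_sum]
    have h2 : ∀ s : n → β, (∑ σ, g σ * ((A σ).submatrix s id).det) ^ 2 =
        ∑ σ, ∑ τ, (g σ * g τ) * (((A σ).submatrix s id).det * ((A τ).submatrix s id).det) := by
      intro s
      rw [sq, Finset.sum_mul_sum]
      refine Finset.sum_congr rfl fun σ _ => Finset.sum_congr rfl fun τ _ => ?_
      ring
    rw [Finset.sum_congr rfl (fun s _ => h2 s), Finset.sum_comm]
    refine Finset.sum_congr rfl fun σ _ => ?_
    rw [Finset.mul_sum, Finset.sum_comm]
    refine Finset.sum_congr rfl fun τ _ => ?_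
    rw [← Finset.mul_sum, ← binet]
    ring
  have h3 : 0 ≤ (Fintype.card (Equiv.Perm n) : ℝ) *
      ∑ σ, ∑ τ, g σ * g τ * ((A σ).transpose * A τ).det := by
    rw [h1]
    exact Finset.sum_nonneg fun s _ => sq_nonneg _
  exact nonneg_of_mul_nonneg_right h3 hc

end Gram_aux

/-- Gram. -/
theorem iGram : StGram := by
  intro β _ _ F g j
  have h1 : ∑ σ, ∑ τ, g σ * g τ * em j ((F σ).transpose * F τ) =
      ∑ S ∈ powersetCard j (univ : Finset β), ∑ σ, ∑ τ, g σ * g τ *
        (((F σ).submatrix id (Subtype.val : S → β)).transpose *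
          (F τ).submatrix id (Subtype.val : S → β)).det := by
    unfold em
    simp only [Finset.mul_sum]
    rw [Finset.sum_congr rfl (fun σ _ => Finset.sum_comm), Finset.sum_comm]
    refine Finset.sum_congr rfl fun S _ => Finset.sum_congr rfl fun σ _ =>
      Finset.sum_congr rfl fun τ _ => ?_
    rfl
  rw [h1]
  refine Finset.sum_nonneg fun S _ => ?_
  exact Gram_aux.minor (fun σ => (F σ).submatrix id (Subtype.val : S → β)) g

end Pool.Agent.Work.MP_499dc6_lc.SG
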