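import Pool.Agent.Work.MP_499dc6_lc.SG.Stmts

/-! Block SG, item Half. -/

set_option autoImplicit false

open Finset

noncomputable section

namespace Pool.Agent.Work.MP_499dc6_lc.SG

namespace Half_aux

theorem alt_sum (D : ℕ → ℝ) (k : ℕ) :
    ∑ j ∈ range k, (-1 : ℝ) ^ j * D j =
      ∑ j ∈ (range k).filter (fun j => ¬ Odd j), D j - ∑ j ∈ (range k).filter Odd, D j := by
  rw [← Finset.sum_filter_add_sum_filter_not (range k) Odd (fun j => (-1 : ℝ) ^ j * D j)]
  have h1 : ∑ j ∈ (range k).filter Odd, (-1 : ℝ) ^ j * D j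
      = - ∑ j ∈ (range k).filter Odd, D j := by
    rw [← Finset.sum_neg_distrib]
    refine Finset.sum_congr rfl fun j hj => ?_
    rw [(Finset.mem_filter.mp hj).2.neg_one_pow]
    ring
  have h2 : ∑ j ∈ (range k).filter (fun j => ¬ Odd j), (-1 : ℝ) ^ j * D j
      = ∑ j ∈ (range k).filter (fun j => ¬ Odd j), D j := by
    refine Finset.sum_congr rfl fun j hj => ?_
    have he : Even j := Nat.not_odd_iff_even.mp (Finset.mem_filter.mp hj).2
    rw [he.neg_one_pow]
    ring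
  rw [h1, h2]
  ring

theorem half (D : ℕ → ℝ) (hD : ∀ j, 0 ≤ D j) (k : ℕ) (hk : 3 ≤ k) (hodd : Odd k)
    (h0 : ∑ j ∈ range k, (-1 : ℝ) ^ j * D j = 0) :
    D 0 ≤ ∑ j ∈ (Icc 1 ((k - 1) / 2)).filter Odd, (D j + D (k - 1 - j)) := by
  rw [alt_sum] at h0
  have h1 : D 0 ≤ ∑ j ∈ (range k).filter (fun j => ¬ Odd j), D j := by
    refine Finset.single_le_sum (f := D) (fun j _ => hD j) ?_
    simp only [Finset.mem_filter, Finset.mem_range]
    exact ⟨by omega, by decide⟩
  have h2 : ∑ j ∈ (range k).filter Odd, D j ≤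
      ∑ j ∈ (Icc 1 ((k - 1) / 2)).filter Odd ∪
        ((Icc 1 ((k - 1) / 2)).filter Odd).image (fun j => k - 1 - j), D j := by
    refine Finset.sum_le_sum_of_subset_of_nonneg ?_ (fun j _ _ => hD j)
    intro j hj
    rw [Finset.mem_filter, Finset.mem_range] at hj
    obtain ⟨hjk, hj⟩ := hj
    rw [Finset.mem_union]
    obtain ⟨a, ha⟩ := hodd
    obtain ⟨b, hb⟩ := hj
    by_cases hjm : j ≤ (k - 1) / 2
    · left
      rw [Finset.mem_filter, Finset.mem_Icc]
      exact ⟨⟨by omega, hjm⟩, ⟨b, hb⟩⟩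
    · right
      rw [Finset.mem_image]
      refine ⟨k - 1 - j, ?_, by omega⟩
      rw [Finset.mem_filter, Finset.mem_Icc]
      refine ⟨⟨by omega, by omega⟩, ⟨a - b - 1, by omega⟩⟩
  have h3 : ∑ j ∈ (Icc 1 ((k - 1) / 2)).filter Odd ∪
        ((Icc 1 ((k - 1) / 2)).filter Odd).image (fun j => k - 1 - j), D j ≤
      ∑ j ∈ (Icc 1 ((k - 1) / 2)).filter Odd, D j +
        ∑ j ∈ ((Icc 1 ((k - 1) / 2)).filter Odd).image (fun j => k - 1 - j), D j := by
    rw [← Finset.sum_union_inter]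
    have : 0 ≤ ∑ j ∈ (Icc 1 ((k - 1) / 2)).filter Odd ∩
        ((Icc 1 ((k - 1) / 2)).filter Odd).image (fun j => k - 1 - j), D j :=
      Finset.sum_nonneg fun j _ => hD j
    linarith
  have h4 : ∑ j ∈ ((Icc 1 ((k - 1) / 2)).filter Odd).image (fun j => k - 1 - j), D j =
      ∑ j ∈ (Icc 1 ((k - 1) / 2)).filter Odd, D (k - 1 - j) := by
    refine Finset.sum_image ?_
    intro i hi j hj hij
    rw [Finset.mem_coe, Finset.mem_filter, Finset.mem_Icc] at hi hj
    simp only at hij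
    omega
  rw [Finset.sum_add_distrib]
  linarith

end Half_aux

theorem iHalf (hP : StDpos) (hA : StAlg) : StHalf := by
  intro β _ _ g hk hodd hz
  obtain ⟨h0, -, hd, halt⟩ := hA β g (by omega)
  rw [← h0]
  refine (Half_aux.half (fun j => Dj j g) (fun j => hP β g j (by omega)) _ hk hodd
    (halt hz)).trans (le_of_eq ?_)
  refine Finset.sum_congr rfl fun j hj => ?_
  rw [Finset.mem_filter, Finset.mem_Icc] at hj
  show Dj j g + Dj (Fintype.card β - 1 - j) g = _
  rw [hd j (by omega)]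

end Pool.Agent.Work.MP_499dc6_lc.SG
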