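import Pool.Agent.Work.MP_499dc6_lc.SG.Stmts

set_option autoImplicit false

open Finset

noncomputable section

namespace Pool.Agent.Work.MP_499dc6_lc.SG

namespace Jst_aux

theorem rs_sum {m : ℕ} {ι : Type*} (s : Finset ι) (f : ι → Mon m) (x : Fin m) :
    rs (∑ i ∈ s, f i) x = ∑ i ∈ s, rs (f i) x := by
  unfold rs
  simp only [Finsupp.coe_finsetSum, Finset.sum_apply]
  exact sum_comm

theorem cs_sum {m : ℕ} {ι : Type*} (s : Finset ι) (f : ι → Mon m) (y : Fin m) :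
    cs (∑ i ∈ s, f i) y = ∑ i ∈ s, cs (f i) y := by
  unfold cs
  simp only [Finsupp.coe_finsetSum, Finset.sum_apply]
  exact sum_comm

theorem dg_sum {m : ℕ} {ι : Type*} (s : Finset ι) (f : ι → Mon m) :
    dg (∑ i ∈ s, f i) = ∑ i ∈ s, dg (f i) := by
  unfold dg
  simp only [rs_sum]
  exact sum_comm

theorem sum_le_of_subset {m : ℕ} {ι : Type*} [DecidableEq ι] (s t : Finset ι) (h : s ⊆ t)
    (f : ι → Mon m) : ∑ i ∈ s, f i ≤ ∑ i ∈ t, f i :=
  sum_le_sum_of_subset h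

/-- greedy choice -/
theorem greedy {ι : Type*} [DecidableEq ι] (I : Finset ι) (d : ι → ℕ) (m : ℕ) (hm : 1 ≤ m)
    (h1 : m ≤ 3 * ∑ i ∈ I, d i) (h2 : ∀ i ∈ I, 3 * d i < m) :
    ∃ S ⊆ I, m ≤ 3 * ∑ i ∈ S, d i ∧ 3 * ∑ i ∈ S, d i ≤ 2 * m := by
  classical
  set F := I.powerset.filter (fun S => m ≤ 3 * ∑ i ∈ S, d i) with hF
  have hne : F.Nonempty := ⟨I, by rw [hF, mem_filter, mem_powerset]; exact ⟨Subset.rfl, h1⟩⟩
  obtain ⟨S, hS, hmin⟩ := F.exists_min_image card hne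
  rw [hF, mem_filter, mem_powerset] at hS
  refine ⟨S, hS.1, hS.2, ?_⟩
  have hSne : S.Nonempty := by
    rw [nonempty_iff_ne_empty]
    rintro rfl
    have := hS.2
    rw [sum_empty] at this
    omega
  obtain ⟨i, hi⟩ := hSne
  by_contra hlt
  push Not at hlt
  have h3 := sum_erase_add S d hi
  have h4 := h2 i (hS.1 hi)
  have h5 : S.erase i ∈ F := by
    rw [hF, mem_filter, mem_powerset]
    refine ⟨(erase_subset _ _).trans hS.1, ?_⟩
    omega
  have h6 := hmin _ h5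
  have h7 := card_erase_lt_of_mem hi
  omega

end Jst_aux

open Jst_aux

theorem iJst (hM : StMst) (hT : StTy) (hJ : StChj) (hF : StMf) : StJst := by
  classical
  intro m G T t q a J hm hP hTS hG hex
  obtain ⟨σ₀, hU, α₀, hα₀, w₀, hw₀, hle₀, hbig, hsmall⟩ := hex
  obtain ⟨F1, -⟩ := hF m
  have hch₀ := hJ m G T t q a J hP hU hG α₀ hα₀ w₀ hw₀
  set I₀ : Finset (Fin q) := univ.filter (fun i => α₀ i ≠ 0 ∧ w₀ i 0 ≠ 0) with hI₀
  set v₀ : Mon m := ∑ i, ∑ l ∈ range (α₀ i), w₀ i l with hv₀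
  have hv₀' : v₀ = ∑ i ∈ I₀, w₀ i 0 := by
    rw [hv₀, hI₀, sum_filter]
    apply sum_congr rfl
    intro i _
    split_ifs with h
    · have h1 : α₀ i = 1 := by
        by_contra hne
        have h2 : 2 ≤ α₀ i := by omega
        exact h.2 ((hch₀ i (by omega)).2 h2 0 (by omega))
      rw [h1, sum_range_one]
    · apply sum_eq_zero
      intro l hl
      rw [mem_range] at hl
      have h0 : α₀ i ≠ 0 := by omega
      have h1 : w₀ i 0 = 0 := by
        by_contra hne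
        exact h ⟨h0, hne⟩
      rcases Nat.lt_or_ge (α₀ i) 2 with h2 | h2
      · have : l = 0 := by omega
        rw [this]; exact h1
      · exact (hch₀ i (by omega)).2 h2 l hl
  have hdg : dg v₀ = ∑ i ∈ I₀, dg (w₀ i 0) := by rw [hv₀', dg_sum]
  obtain ⟨S, hS, hS1, hS2⟩ := greedy I₀ (fun i => dg (w₀ i 0)) m hm
    (by rw [← hdg]; omega)
    (by
      intro i hi
      rw [hI₀, mem_filter] at hi
      exact hsmall i 0 (by omega))
  set vS : Mon m := ∑ i ∈ S, w₀ i 0 with hvS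
  have hvSle : vS ≤ permMon σ₀ := by
    refine le_trans ?_ hle₀
    rw [hv₀']
    exact sum_le_of_subset S I₀ hS _
  obtain ⟨f1, f2, f3, f4, f5, f6, f7⟩ := F1 σ₀ vS hvSle
  have hdS : dg vS = ∑ i ∈ S, dg (w₀ i 0) := by rw [hvS, dg_sum]
  refine ⟨univ.filter (fun i => rs vS i = 1), univ.filter (fun j => cs vS j = 1), ?_, ?_, ?_, ?_⟩
  · rw [f6, f7]
  · rw [f6, hdS]; exact hS1
  · rw [f6, hdS]; exact hS2
  · intro σ hσ x hx
    obtain ⟨-, α, hα, w, hw, hle, -, -⟩ := hσ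
    rw [mem_filter] at hx ⊢
    refine ⟨mem_univ _, ?_⟩
    have hx1 : rs vS x = 1 := hx.2
    rw [hvS, rs_sum] at hx1
    have hex : ∃ i ∈ S, rs (w₀ i 0) x ≠ 0 := by
      by_contra hno
      push Not at hno
      rw [sum_eq_zero hno] at hx1
      omega
    obtain ⟨i, hiS, hix⟩ := hex
    have hi0 := hS hiS
    rw [hI₀, mem_filter] at hi0
    have hch := hJ m G T t q a J hP hU hG α hα w hw
    obtain ⟨i', h1, h2, h3⟩ := hM m G T t q a J hP hU hTS hG α₀ hα₀ α hα
      (fun j => if α₀ j ≠ 0 then w₀ j 0 else w j 0)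
      (by
        intro j hj
        split_ifs with h
        · exact hw₀ j 0 (by omega)
        · rcases hj with hj | hj
          · exact absurd hj h
          · exact hw j 0 (by omega)) i hi0.2.1
      (by rw [if_pos hi0.2.1]; exact hi0.2.2)
    rw [if_pos hi0.2.1] at h2 h3
    have hmem : (if α₀ i' ≠ 0 then w₀ i' 0 else w i' 0) ∈ G (a i') := by
      split_ifs with h
      · exact hw₀ i' 0 (by omega)
      · exact hw i' 0 (by omega)
    have hmem' : w i' 0 ∈ G (a i') := hw i' 0 (by omega)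
    have hUi := (hch i' (by omega)).1
    obtain ⟨g1, -⟩ := hT m G T (a i') hP hUi
    obtain ⟨g2, g3, -⟩ := g1 _ hmem _ hmem'
    have hwle : w i' 0 ≤ permMon σ := by
      refine le_trans ?_ hle
      calc w i' 0 ≤ ∑ l ∈ range (α i'), w i' l :=
            single_le_sum (f := fun l => w i' l) (fun _ _ => zero_le) (mem_range.mpr (by omega))
        _ ≤ ∑ i, ∑ l ∈ range (α i), w i l :=
            single_le_sum (f := fun i => ∑ l ∈ range (α i), w i l) (fun _ _ => zero_le) (mem_univ i')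
    obtain ⟨-, -, -, e4, -⟩ := F1 σ (w i' 0) hwle
    have h4 : cs (w₀ i 0) (σ x) ≠ 0 := by
      rw [← h3, g3, e4, ← g2, h2]
      exact hix
    have h5 : 1 ≤ cs vS (σ x) := by
      rw [hvS, cs_sum]
      calc 1 ≤ cs (w₀ i 0) (σ x) := by omega
        _ ≤ ∑ i ∈ S, cs (w₀ i 0) (σ x) :=
            single_le_sum (f := fun i => cs (w₀ i 0) (σ x)) (fun _ _ => Nat.zero_le _) hiS
    have h6 := f3 (σ x)
    omega

end Pool.Agent.Work.MP_499dc6_lc.SG
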