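import Pool.Agent.Work.MP_499dc6_lc.SG.Stmts

/-!
MP_499dc6_lc, block SG, item Jump: any two points of a jump system are joined by a chain with
steps of length at most two.
-/

set_option autoImplicit false

open Finset

namespace Pool.Agent.Work.MP_499dc6_lc.SG

namespace Jump_aux

variable {q : ℕ}

lemma dst_eq_zero {α β : Fin q →₀ ℕ} (h : dst α β = 0) : α = β := by
  unfold dst at h
  rw [Finset.sum_eq_zero_iff] at h
  ext i
  have := h i (Finset.mem_univ i)
  omega

lemma dst_split (α β : Fin q →₀ ℕ) (i : Fin q) :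
    dst α β = ((α i - β i) + (β i - α i)) +
      ∑ j ∈ Finset.univ.erase i, ((α j - β j) + (β j - α j)) := by
  unfold dst
  exact (Finset.add_sum_erase Finset.univ (fun j => (α j - β j) + (β j - α j))
    (Finset.mem_univ i)).symm

lemma step_apply {α β γ : Fin q →₀ ℕ} (h : Step α β γ) :
    ∃ i, (∀ j, j ≠ i → γ j = α j) ∧
      ((α i < β i ∧ γ i = α i + 1) ∨ (β i < α i ∧ γ i + 1 = α i)) := by
  obtain ⟨i, h1 | h1⟩ := h
  · refine ⟨i, ?_, Or.inl ⟨h1.1, ?_⟩⟩
    · intro j hj
      rw [h1.2, Finsupp.add_apply, Finsupp.single_eq_of_ne hj, add_zero]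
    · rw [h1.2, Finsupp.add_apply, Finsupp.single_eq_same]
  · refine ⟨i, ?_, Or.inr ⟨h1.1, ?_⟩⟩
    · intro j hj
      rw [← h1.2, Finsupp.add_apply, Finsupp.single_eq_of_ne hj, add_zero]
    · rw [← h1.2, Finsupp.add_apply, Finsupp.single_eq_same]

lemma step_dst {α β γ : Fin q →₀ ℕ} (h : Step α β γ) : dst γ β + 1 = dst α β := by
  obtain ⟨i, h1, h2⟩ := step_apply h
  rw [dst_split γ β i, dst_split α β i]
  have e : ∑ j ∈ Finset.univ.erase i, ((γ j - β j) + (β j - γ j)) =
      ∑ j ∈ Finset.univ.erase i, ((α j - β j) + (β j - α j)) := by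
    refine Finset.sum_congr rfl ?_
    intro j hj
    rw [h1 j (Finset.ne_of_mem_erase hj)]
  rw [e]
  omega

lemma step_dst' {α β γ : Fin q →₀ ℕ} (h : Step α β γ) : dst α γ = 1 := by
  obtain ⟨i, h1, h2⟩ := step_apply h
  rw [dst_split α γ i]
  have e : ∑ j ∈ Finset.univ.erase i, ((α j - γ j) + (γ j - α j)) = 0 := by
    refine Finset.sum_eq_zero ?_
    intro j hj
    rw [h1 j (Finset.ne_of_mem_erase hj)]
    omega
  rw [e]
  omega

lemma dst_tri (α β γ : Fin q →₀ ℕ) : dst α γ ≤ dst α β + dst β γ := by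
  unfold dst
  rw [← Finset.sum_add_distrib]
  refine Finset.sum_le_sum ?_
  intro i _
  omega

lemma step_supp {α β γ : Fin q →₀ ℕ} (W : Finset (Fin q)) (h : Step α β γ)
    (hα : α.support ⊆ W) (hβ : β.support ⊆ W) : γ.support ⊆ W := by
  obtain ⟨i, h1, h2⟩ := step_apply h
  intro j hj
  rw [Finsupp.mem_support_iff] at hj
  by_cases hji : j = i
  · subst hji
    rcases h2 with h2 | h2
    · apply hβ
      rw [Finsupp.mem_support_iff]
      omega
    · apply hα
      rw [Finsupp.mem_support_iff]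
      omega
  · apply hα
    rw [Finsupp.mem_support_iff, ← h1 j hji]
    exact hj

lemma exists_step {α β : Fin q →₀ ℕ} (h : α ≠ β) : ∃ γ, Step α β γ := by
  have : ∃ i, α i ≠ β i := by
    by_contra hc
    push Not at hc
    exact h (Finsupp.ext hc)
  obtain ⟨i, hi⟩ := this
  rcases Nat.lt_or_gt_of_ne hi with h1 | h1
  · exact ⟨α + Finsupp.single i 1, i, Or.inl ⟨h1, rfl⟩⟩
  · refine ⟨α - Finsupp.single i 1, i, Or.inr ⟨h1, ?_⟩⟩
    ext j
    rw [Finsupp.add_apply, Finsupp.tsub_apply]
    by_cases hj : j = i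
    · subst hj
      rw [Finsupp.single_eq_same]
      omega
    · rw [Finsupp.single_eq_of_ne hj]
      omega

lemma chain (J : Set (Fin q →₀ ℕ)) (hJ : JumpSystem J) (W : Finset (Fin q))
    (β : Fin q →₀ ℕ) (hβ : β ∈ J) (hβW : β.support ⊆ W) :
    ∀ n : ℕ, ∀ α ∈ J, α.support ⊆ W → dst α β ≤ n →
      Relation.ReflTransGen (fun γ δ => dst γ δ ≤ 2 ∧ δ ∈ J ∧ δ.support ⊆ W) α β := by
  intro n
  induction n with
  | zero =>
    intro α _ _ hd
    have : α = β := dst_eq_zero (Nat.le_zero.mp hd)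
    rw [this]
  | succ n ih =>
    intro α hα hαW hd
    by_cases hab : α = β
    · rw [hab]
    · obtain ⟨γ, hγ⟩ := exists_step hab
      have hγW := step_supp W hγ hαW hβW
      have h1 := step_dst hγ
      have h2 := step_dst' hγ
      rcases hJ α hα β hβ γ hγ with hγJ | ⟨δ, hδJ, hδ⟩
      · have := ih γ hγJ hγW (by omega)
        exact Relation.ReflTransGen.head ⟨by omega, hγJ, hγW⟩ this
      · have hδW := step_supp W hδ hγW hβW
        have h3 := step_dst hδ
        have h4 := step_dst' hδ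
        have h5 := dst_tri α γ δ
        have := ih δ hδJ hδW (by omega)
        exact Relation.ReflTransGen.head ⟨by omega, hδJ, hδW⟩ this

end Jump_aux

theorem iJump : StJump := by
  intro q J hJ α hα β hβ
  exact Jump_aux.chain J hJ (α.support ∪ β.support) β hβ Finset.subset_union_right
    (dst α β) α hα Finset.subset_union_left le_rfl

end Pool.Agent.Work.MP_499dc6_lc.SG
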