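import Pool.Agent.Work.MP_499dc6_lc.SG.Stmts

/-!
MP_499dc6_lc, block SG, item Ka.
-/

set_option autoImplicit false

open Finset

noncomputable section

namespace Pool.Agent.Work.MP_499dc6_lc.SG

namespace Ka_aux

section average

variable {ι κ : Type*}

lemma avg_sum (s : Finset ι) (t : Finset κ) (F : κ → ι → ℝ) :
    avg s (fun i => ∑ j ∈ t, F j i) = ∑ j ∈ t, avg s (F j) := by
  simp only [avg]
  rw [Finset.sum_comm, Finset.sum_div]

lemma avg_mul_left (s : Finset ι) (c : ℝ) (F : ι → ℝ) :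
    avg s (fun i => c * F i) = c * avg s F := by
  simp only [avg, ← Finset.mul_sum, mul_div_assoc]

lemma avg_mul_right (s : Finset ι) (c : ℝ) (F : ι → ℝ) :
    avg s (fun i => F i * c) = avg s F * c := by
  simp only [avg, ← Finset.sum_mul, div_mul_eq_mul_div]

lemma avg_add (s : Finset ι) (F G : ι → ℝ) :
    avg s (fun i => F i + G i) = avg s F + avg s G := by
  simp only [avg, Finset.sum_add_distrib, add_div]

lemma avg_sub (s : Finset ι) (F G : ι → ℝ) :
    avg s (fun i => F i - G i) = avg s F - avg s G := by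
  simp only [avg, Finset.sum_sub_distrib, sub_div]

lemma avg_comm (s : Finset ι) (t : Finset κ) (F : ι → κ → ℝ) :
    avg s (fun i => avg t (F i)) = avg t (fun j => avg s (fun i => F i j)) := by
  simp only [avg, ← Finset.sum_div]
  rw [Finset.sum_comm, div_div, div_div, mul_comm]

lemma avg_mono (s : Finset ι) (F G : ι → ℝ) (h : ∀ i ∈ s, F i ≤ G i) : avg s F ≤ avg s G := by
  simp only [avg]
  exact div_le_div_of_nonneg_right (Finset.sum_le_sum h) (Nat.cast_nonneg _)

lemma avg_congr (s : Finset ι) (F G : ι → ℝ) (h : ∀ i ∈ s, F i = G i) : avg s F = avg s G := by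
  simp only [avg]
  rw [Finset.sum_congr rfl h]

lemma avg_const (s : Finset ι) (hs : s.Nonempty) (c : ℝ) : avg s (fun _ => c) = c := by
  have h : (s.card : ℝ) ≠ 0 := by exact_mod_cast hs.card_pos.ne'
  simp only [avg, Finset.sum_const, nsmul_eq_mul]
  field_simp

end average

variable {β : Type} [Fintype β] [DecidableEq β]

lemma avg_perm_right (τ : Equiv.Perm β) (F : Equiv.Perm β → ℝ) :
    avg univ (fun θ => F (θ * τ)) = avg univ F := by
  simp only [avg]
  congr 1
  exact Fintype.sum_equiv (Equiv.mulRight τ) _ _ (fun _ => rfl)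

/-- centred indicator -/
def qq (σ : Equiv.Perm β) (x y : β) : ℝ :=
  (if σ x = y then 1 else 0) - 1 / (Fintype.card β : ℝ)

/-- the matrix `a` -/
def aa (g : Equiv.Perm β → ℝ) (x y : β) : ℝ := avg univ (fun σ => g σ * qq σ x y)

/-- row square sums -/
def ss (g : Equiv.Perm β → ℝ) (x : β) : ℝ := ∑ y, aa g x y ^ 2

lemma em_one (M : Matrix β β ℝ) : em 1 M = ∑ x, M x x := by
  unfold em
  rw [Finset.powersetCard_one, Finset.sum_map]
  refine Finset.sum_congr rfl (fun x _ => ?_)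
  have hx : x ∈ ({x} : Finset β) := Finset.mem_singleton_self x
  have : Subsingleton (({x} : Finset β) : Type) := by
    refine ⟨fun a b => ?_⟩
    have ha := Finset.mem_singleton.1 a.2
    have hb := Finset.mem_singleton.1 b.2
    exact Subtype.ext (ha.trans hb.symm)
  exact Matrix.det_eq_elem_of_subsingleton _ (⟨x, hx⟩ : ({x} : Finset β))

lemma sum_qq (hk : 1 ≤ Fintype.card β) (σ : Equiv.Perm β) (x : β) : ∑ y, qq σ x y = 0 := by
  have h : (Fintype.card β : ℝ) ≠ 0 := by
    have : (0 : ℕ) < Fintype.card β := hk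
    exact_mod_cast this.ne'
  simp only [qq, Finset.sum_sub_distrib, Finset.sum_ite_eq, Finset.mem_univ, if_true,
    Finset.sum_const, Finset.card_univ, nsmul_eq_mul]
  field_simp
  ring

lemma sum_qq_qq (hk : 1 ≤ Fintype.card β) (σ τ : Equiv.Perm β) (x : β) :
    ∑ y, qq σ x y * qq τ x y = (if τ x = σ x then 1 else 0) - 1 / (Fintype.card β : ℝ) := by
  have h1 : ∀ y, qq σ x y * qq τ x y =
      (if σ x = y then qq τ x y else 0) - 1 / (Fintype.card β : ℝ) * qq τ x y := by
    intro y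
    unfold qq
    split_ifs <;> ring
  simp_rw [h1]
  rw [Finset.sum_sub_distrib, ← Finset.mul_sum, sum_qq hk, mul_zero, sub_zero,
    Finset.sum_ite_eq, if_pos (Finset.mem_univ _)]
  rfl

lemma dd_one (hk : 1 ≤ Fintype.card β) (σ τ : Equiv.Perm β) :
    dd 1 (σ⁻¹ * τ) = ∑ x, ∑ y, qq σ x y * qq τ x y := by
  unfold dd
  rw [em_one]
  refine Finset.sum_congr rfl (fun x _ => ?_)
  rw [sum_qq_qq hk]
  simp only [QM, Matrix.of_apply, Equiv.Perm.mul_apply]
  congr 1
  have : ((σ⁻¹ (τ x) = x) ↔ (τ x = σ x)) := by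
    constructor
    · intro h
      have h' := congrArg σ h
      simpa using h'
    · intro h
      rw [h]
      simp
  simp only [this]

lemma Dj_one (hk : 1 ≤ Fintype.card β) (g : Equiv.Perm β → ℝ) : Dj 1 g = ∑ x, ss g x := by
  unfold Dj quad ss
  have h1 : ∀ σ τ : Equiv.Perm β, g σ * g τ * dd 1 (σ⁻¹ * τ) =
      ∑ x, ∑ y, (g σ * qq σ x y) * (g τ * qq τ x y) := by
    intro σ τ
    rw [dd_one hk, Finset.mul_sum]
    refine Finset.sum_congr rfl (fun x _ => ?_)
    rw [Finset.mul_sum]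
    refine Finset.sum_congr rfl (fun y _ => ?_)
    ring
  simp_rw [h1, avg_sum, avg_mul_left, avg_mul_right]
  refine Finset.sum_congr rfl (fun x _ => Finset.sum_congr rfl (fun y _ => ?_))
  unfold aa
  ring

lemma sum_aa (hk : 1 ≤ Fintype.card β) (g : Equiv.Perm β → ℝ) (x : β) : ∑ y, aa g x y = 0 := by
  unfold aa
  rw [← avg_sum]
  have : ∀ σ : Equiv.Perm β, ∑ y, g σ * qq σ x y = 0 := by
    intro σ
    rw [← Finset.mul_sum, sum_qq hk, mul_zero]
  simp_rw [this]
  simp [avg]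

/-- `G_D` -/
def GD (g : Equiv.Perm β → ℝ) (D : Finset β) (σ : Equiv.Perm β) : ℝ := ∑ x ∈ D, aa g x (σ x)

lemma aa_eval (hk : 1 ≤ Fintype.card β) (g : Equiv.Perm β → ℝ) (σ : Equiv.Perm β) (x : β) :
    aa g x (σ x) = ∑ y, aa g x y * qq σ x y := by
  have h1 : ∀ y, aa g x y * qq σ x y =
      (if σ x = y then aa g x y else 0) - aa g x y * (1 / (Fintype.card β : ℝ)) := by
    intro y
    unfold qq
    split_ifs <;> ring
  simp_rw [h1]
  rw [Finset.sum_sub_distrib, ← Finset.sum_mul, sum_aa hk, zero_mul, sub_zero,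
    Finset.sum_ite_eq, if_pos (Finset.mem_univ _)]

lemma avg_g_aa (hk : 1 ≤ Fintype.card β) (g : Equiv.Perm β → ℝ) (x : β) :
    avg univ (fun σ => g σ * aa g x (σ x)) = ss g x := by
  have h1 : ∀ σ : Equiv.Perm β, g σ * aa g x (σ x) = ∑ y, aa g x y * (g σ * qq σ x y) := by
    intro σ
    rw [aa_eval hk, Finset.mul_sum]
    refine Finset.sum_congr rfl (fun y _ => ?_)
    ring
  simp_rw [h1]
  rw [avg_sum]
  simp_rw [avg_mul_left]
  unfold ss
  refine Finset.sum_congr rfl (fun y _ => ?_)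
  rw [pow_two]
  rfl

lemma avg_g_GD (hk : 1 ≤ Fintype.card β) (g : Equiv.Perm β → ℝ) (D : Finset β) :
    avg univ (fun σ => g σ * GD g D σ) = ∑ x ∈ D, ss g x := by
  unfold GD
  simp_rw [Finset.mul_sum]
  rw [avg_sum]
  exact Finset.sum_congr rfl (fun x _ => avg_g_aa hk g x)

lemma one_mem_fixs (D : Finset β) : (1 : Equiv.Perm β) ∈ fixs D := by
  simp [fixs]

lemma avg_cE_GD (hk : 1 ≤ Fintype.card β) (g : Equiv.Perm β → ℝ) (D : Finset β) :
    avg univ (fun θ => cE D g θ * GD g D θ) = ∑ x ∈ D, ss g x := by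
  rw [← avg_g_GD hk g D]
  unfold cE
  simp_rw [← avg_mul_right]
  rw [avg_comm]
  have h1 : ∀ τ ∈ fixs D, avg univ (fun θ => g (θ * τ) * GD g D θ) =
      avg univ (fun σ => g σ * GD g D σ) := by
    intro τ hτ
    rw [← avg_perm_right τ (fun σ => g σ * GD g D σ)]
    refine avg_congr _ _ _ (fun θ _ => ?_)
    congr 1
    unfold GD
    refine Finset.sum_congr rfl (fun x hx => ?_)
    have : τ x = x := (Finset.mem_filter.1 hτ).2 x hx
    rw [Equiv.Perm.mul_apply, this]
  rw [avg_congr _ _ _ h1]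
  exact avg_const _ ⟨1, one_mem_fixs D⟩ _

/-- one-point marginals -/
lemma avg_one (f : β → ℝ) (x : β) :
    (Fintype.card β : ℝ) * avg univ (fun σ : Equiv.Perm β => f (σ x)) = ∑ y, f y := by
  have h1 : ∀ z : β, avg univ (fun σ : Equiv.Perm β => f (σ z)) =
      avg univ (fun σ : Equiv.Perm β => f (σ x)) := by
    intro z
    rw [← avg_perm_right (Equiv.swap z x) (fun σ : Equiv.Perm β => f (σ z))]
    refine avg_congr _ _ _ (fun θ _ => ?_)
    simp [Equiv.Perm.mul_apply]
  have h2 : ∑ z : β, avg univ (fun σ : Equiv.Perm β => f (σ z)) =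
      (Fintype.card β : ℝ) * avg univ (fun σ : Equiv.Perm β => f (σ x)) := by
    simp_rw [h1]
    simp [Finset.card_univ]
  rw [← h2, ← avg_sum]
  have h3 : ∀ σ : Equiv.Perm β, ∑ z, f (σ z) = ∑ y, f y := fun σ => Equiv.sum_comp σ f
  simp_rw [h3]
  exact avg_const _ ⟨1, Finset.mem_univ _⟩ _

omit [Fintype β] in
/-- a permutation moving a pair to a pair -/
lemma exists_perm (z z' x x' : β) (hz : z ≠ z') (hx : x ≠ x') :
    ∃ π : Equiv.Perm β, π z = x ∧ π z' = x' := by
  refine ⟨Equiv.swap (Equiv.swap z x z') x' * Equiv.swap z x, ?_, ?_⟩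
  · rw [Equiv.Perm.mul_apply, Equiv.swap_apply_left]
    refine Equiv.swap_apply_of_ne_of_ne ?_ hx
    intro h
    have : Equiv.swap z x z = Equiv.swap z x z' := by
      rw [Equiv.swap_apply_left]; exact h
    exact hz ((Equiv.swap z x).injective this)
  · rw [Equiv.Perm.mul_apply, Equiv.swap_apply_left]

/-- two-point marginals -/
lemma avg_two (f : β → β → ℝ) (x x' : β) (hx : x ≠ x') :
    (Fintype.card β : ℝ) * ((Fintype.card β : ℝ) - 1) *
      avg univ (fun σ : Equiv.Perm β => f (σ x) (σ x')) =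
      ∑ y, ∑ y', f y y' - ∑ y, f y y := by
  set e : ℝ := avg univ (fun σ : Equiv.Perm β => f (σ x) (σ x')) with he
  have h1 : ∀ z z' : β, z ≠ z' → avg univ (fun σ : Equiv.Perm β => f (σ z) (σ z')) = e := by
    intro z z' hz
    obtain ⟨π, h1, h2⟩ := exists_perm z z' x x' hz hx
    rw [he, ← avg_perm_right π (fun σ : Equiv.Perm β => f (σ z) (σ z'))]
    refine avg_congr _ _ _ (fun θ _ => ?_)
    simp only [Equiv.Perm.mul_apply, h1, h2]
  have h2 : ∑ z : β, ∑ z' ∈ univ.erase z,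
      avg univ (fun σ : Equiv.Perm β => f (σ z) (σ z')) =
      (Fintype.card β : ℝ) * ((Fintype.card β : ℝ) - 1) * e := by
    have h3 : ∀ z : β, ∑ z' ∈ univ.erase z,
        avg univ (fun σ : Equiv.Perm β => f (σ z) (σ z')) = ((Fintype.card β : ℝ) - 1) * e := by
      intro z
      rw [Finset.sum_congr rfl (fun z' hz' => h1 z z' (Finset.ne_of_mem_erase hz').symm)]
      rw [Finset.sum_const, Finset.card_erase_of_mem (Finset.mem_univ z), Finset.card_univ,
        nsmul_eq_mul]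
      have : 1 ≤ Fintype.card β := Fintype.card_pos_iff.2 ⟨z⟩
      rw [Nat.cast_sub this, Nat.cast_one]
    simp_rw [h3]
    rw [Finset.sum_const, Finset.card_univ, nsmul_eq_mul, mul_assoc]
  rw [← h2]
  simp_rw [← avg_sum]
  have h4 : ∀ σ : Equiv.Perm β, ∑ z : β, ∑ z' ∈ univ.erase z, f (σ z) (σ z') =
      ∑ y, ∑ y', f y y' - ∑ y, f y y := by
    intro σ
    have h5 : ∀ z : β, ∑ z' ∈ univ.erase z, f (σ z) (σ z') =
        ∑ y', f (σ z) y' - f (σ z) (σ z) := by
      intro z
      rw [Finset.sum_erase_eq_sub (Finset.mem_univ z)]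
      rw [Equiv.sum_comp σ (fun y' => f (σ z) y')]
    simp_rw [h5]
    rw [Finset.sum_sub_distrib, Equiv.sum_comp σ (fun y => ∑ y', f y y'),
      Equiv.sum_comp σ (fun y => f y y)]
  simp_rw [h4]
  exact avg_const _ ⟨1, Finset.mem_univ _⟩ _

lemma avg_aa_aa (hk : 2 ≤ Fintype.card β) (g : Equiv.Perm β → ℝ) (x x' : β) :
    avg univ (fun σ : Equiv.Perm β => aa g x (σ x) * aa g x' (σ x')) =
      (if x = x' then ss g x / ((Fintype.card β : ℝ) - 1) else 0) -
        (∑ y, aa g x y * aa g x' y) / ((Fintype.card β : ℝ) * ((Fintype.card β : ℝ) - 1)) := by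
  have hk2 : (2 : ℝ) ≤ Fintype.card β := by exact_mod_cast hk
  have hk0 : (Fintype.card β : ℝ) ≠ 0 := by linarith
  have hk1 : (Fintype.card β : ℝ) - 1 ≠ 0 := by linarith
  by_cases hx : x = x'
  · subst hx
    rw [if_pos rfl]
    have h := avg_one (fun y => aa g x y * aa g x y) x
    have h2 : avg univ (fun σ : Equiv.Perm β => aa g x (σ x) * aa g x (σ x)) =
        (∑ y, aa g x y * aa g x y) / (Fintype.card β : ℝ) := by
      rw [← h]
      field_simp
    rw [h2]
    have h3 : ss g x = ∑ y, aa g x y * aa g x y := by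
      unfold ss
      exact Finset.sum_congr rfl (fun y _ => pow_two _)
    rw [h3]
    field_simp
  · rw [if_neg hx, zero_sub]
    have h := avg_two (fun y y' => aa g x y * aa g x' y') x x' hx
    have h0 : ∑ y, ∑ y', aa g x y * aa g x' y' = 0 := by
      simp_rw [← Finset.mul_sum, sum_aa (le_trans (by norm_num) hk) g x', mul_zero,
        Finset.sum_const_zero]
    rw [h0, zero_sub] at h
    have h2 : avg univ (fun σ : Equiv.Perm β => aa g x (σ x) * aa g x' (σ x')) =
        (-∑ y, aa g x y * aa g x' y) / ((Fintype.card β : ℝ) * ((Fintype.card β : ℝ) - 1)) := by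
      rw [← h]
      field_simp
    rw [h2, neg_div]

lemma avg_GD_sq (hk : 2 ≤ Fintype.card β) (g : Equiv.Perm β → ℝ) (D : Finset β) :
    avg univ (fun σ : Equiv.Perm β => GD g D σ ^ 2) ≤
      (∑ x ∈ D, ss g x) / ((Fintype.card β : ℝ) - 1) := by
  have hk2 : (2 : ℝ) ≤ Fintype.card β := by exact_mod_cast hk
  have hk1 : (0 : ℝ) < (Fintype.card β : ℝ) - 1 := by linarith
  have h1 : ∀ σ : Equiv.Perm β, GD g D σ ^ 2 =
      ∑ x ∈ D, ∑ x' ∈ D, aa g x (σ x) * aa g x' (σ x') := by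
    intro σ
    unfold GD
    rw [pow_two, Finset.sum_mul_sum]
  simp_rw [h1, avg_sum, avg_aa_aa hk]
  simp_rw [Finset.sum_sub_distrib]
  have h2 : ∑ x ∈ D, ∑ x' ∈ D,
      (if x = x' then ss g x / ((Fintype.card β : ℝ) - 1) else 0) =
      (∑ x ∈ D, ss g x) / ((Fintype.card β : ℝ) - 1) := by
    rw [Finset.sum_div]
    refine Finset.sum_congr rfl (fun x hx => ?_)
    rw [Finset.sum_ite_eq, if_pos hx]
  rw [h2]
  have h3 : 0 ≤ ∑ x ∈ D, ∑ x' ∈ D, (∑ y, aa g x y * aa g x' y) /
      ((Fintype.card β : ℝ) * ((Fintype.card β : ℝ) - 1)) := by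
    simp_rw [← Finset.sum_div]
    refine div_nonneg ?_ (by positivity)
    have h4 : ∑ x ∈ D, ∑ x' ∈ D, ∑ y, aa g x y * aa g x' y =
        ∑ y, (∑ x ∈ D, aa g x y) ^ 2 := by
      have h5 : ∀ y, (∑ x ∈ D, aa g x y) ^ 2 = ∑ x ∈ D, ∑ x' ∈ D, aa g x y * aa g x' y := by
        intro y
        rw [pow_two, Finset.sum_mul_sum]
      simp_rw [h5]
      rw [Finset.sum_comm (s := (univ : Finset β)) (t := D)]
      refine Finset.sum_congr rfl (fun x _ => ?_)
      rw [Finset.sum_comm]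
    rw [h4]
    exact Finset.sum_nonneg (fun y _ => sq_nonneg _)
  linarith

lemma ss_nonneg (g : Equiv.Perm β → ℝ) (x : β) : 0 ≤ ss g x :=
  Finset.sum_nonneg (fun _ _ => sq_nonneg _)

/-- the inequality for one `D` -/
lemma one_D (hk : 2 ≤ Fintype.card β) (g : Equiv.Perm β → ℝ) (D : Finset β) :
    ∑ x ∈ D, ss g x ≤ avg univ (fun θ => (cE D g θ) ^ 2) / ((Fintype.card β : ℝ) - 1) := by
  have hk2 : (2 : ℝ) ≤ Fintype.card β := by exact_mod_cast hk
  have hk1 : (0 : ℝ) < (Fintype.card β : ℝ) - 1 := by linarith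
  have h1 := avg_cE_GD (le_trans (by norm_num) hk) g D
  have h2 := avg_GD_sq hk g D
  set K : ℝ := (Fintype.card β : ℝ) - 1 with hK
  have h3 : avg univ (fun θ => cE D g θ * GD g D θ) ≤
      avg univ (fun θ => 1 / (2 * K) * (cE D g θ) ^ 2 + K / 2 * (GD g D θ) ^ 2) := by
    refine avg_mono _ _ _ (fun θ _ => ?_)
    have h4 : 1 / (2 * K) * (cE D g θ) ^ 2 + K / 2 * (GD g D θ) ^ 2 - cE D g θ * GD g D θ =
        1 / (2 * K) * (cE D g θ - K * GD g D θ) ^ 2 := by
      field_simp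
      ring
    have h5 : 0 ≤ 1 / (2 * K) * (cE D g θ - K * GD g D θ) ^ 2 := by positivity
    linarith
  rw [avg_add, avg_mul_left, avg_mul_left, h1] at h3
  have h4 : K / 2 * avg univ (fun σ : Equiv.Perm β => GD g D σ ^ 2) ≤
      K / 2 * ((∑ x ∈ D, ss g x) / K) := mul_le_mul_of_nonneg_left h2 (by positivity)
  have h5 : K / 2 * ((∑ x ∈ D, ss g x) / K) = (∑ x ∈ D, ss g x) / 2 := by
    field_simp
  have h6 : 1 / (2 * K) * avg univ (fun θ => (cE D g θ) ^ 2) =
      avg univ (fun θ => (cE D g θ) ^ 2) / K / 2 := by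
    field_simp
  rw [h6] at h3
  linarith

/-- number of `i`-sets containing a point -/
lemma card_contains (x : β) (i : ℕ) :
    (((powersetCard (i + 1) (univ : Finset β)).filter (fun D => x ∈ D)).card : ℕ) =
      Nat.choose (Fintype.card β - 1) i := by
  have h1 : (powersetCard (i + 1) (univ : Finset β)).filter (fun D => x ∈ D) =
      (powersetCard i ((univ : Finset β).erase x)).image (insert x) := by
    ext D
    simp only [Finset.mem_filter, Finset.mem_powersetCard, Finset.mem_image]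
    constructor
    · rintro ⟨⟨_, hc⟩, hx⟩
      refine ⟨D.erase x, ⟨Finset.erase_subset_erase _ (Finset.subset_univ _), ?_⟩,
        Finset.insert_erase hx⟩
      rw [Finset.card_erase_of_mem hx, hc, Nat.add_sub_cancel]
    · rintro ⟨E, ⟨hE, hc⟩, rfl⟩
      have hxE : x ∉ E := fun h => (Finset.mem_erase.1 (hE h)).1 rfl
      refine ⟨⟨Finset.subset_univ _, ?_⟩, Finset.mem_insert_self _ _⟩
      rw [Finset.card_insert_of_notMem hxE, hc]
  rw [h1, Finset.card_image_of_injOn, Finset.card_powersetCard,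
    Finset.card_erase_of_mem (Finset.mem_univ x), Finset.card_univ]
  intro E hE E' hE' h
  have hE1 : x ∉ E := fun h' => (Finset.mem_erase.1 ((Finset.mem_powersetCard.1 hE).1 h')).1 rfl
  have hE2 : x ∉ E' := fun h' =>
    (Finset.mem_erase.1 ((Finset.mem_powersetCard.1 hE').1 h')).1 rfl
  rw [← Finset.erase_insert hE1, ← Finset.erase_insert hE2]
  exact congrArg (fun S => S.erase x) h

lemma avg_D (g : Equiv.Perm β → ℝ) (i : ℕ) (hi : 1 ≤ i) (hik : i ≤ Fintype.card β) :
    avg (powersetCard i (univ : Finset β)) (fun D => ∑ x ∈ D, ss g x) =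
      (i : ℝ) / (Fintype.card β : ℝ) * ∑ x, ss g x := by
  obtain ⟨i, rfl⟩ : ∃ i', i = i' + 1 := ⟨i - 1, by omega⟩
  obtain ⟨n, hn⟩ : ∃ n, Fintype.card β = n + 1 := ⟨Fintype.card β - 1, by omega⟩
  have h1 : ∀ D : Finset β, ∑ x ∈ D, ss g x = ∑ x, if x ∈ D then ss g x else 0 := by
    intro D
    rw [Finset.sum_ite_mem, Finset.univ_inter]
  have h1' : avg (powersetCard (i + 1) (univ : Finset β)) (fun D => ∑ x ∈ D, ss g x) =
      avg (powersetCard (i + 1) (univ : Finset β)) (fun D => ∑ x, if x ∈ D then ss g x else 0) :=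
    avg_congr _ _ _ (fun D _ => h1 D)
  rw [h1', avg_sum, Finset.mul_sum]
  refine Finset.sum_congr rfl (fun x _ => ?_)
  have h2 : avg (powersetCard (i + 1) (univ : Finset β)) (fun D => if x ∈ D then ss g x else 0) =
      (Nat.choose n i : ℝ) * ss g x / (Nat.choose (n + 1) (i + 1) : ℝ) := by
    unfold avg
    rw [← Finset.sum_filter, Finset.sum_const, card_contains, Finset.card_powersetCard,
      Finset.card_univ, hn, nsmul_eq_mul, Nat.add_sub_cancel]
  rw [h2, hn]
  have h3 : (n + 1) * Nat.choose n i = Nat.choose (n + 1) (i + 1) * (i + 1) :=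
    Nat.add_one_mul_choose_eq n i
  have h4 : ((n : ℝ) + 1) * (Nat.choose n i : ℝ) =
      (Nat.choose (n + 1) (i + 1) : ℝ) * ((i : ℝ) + 1) := by exact_mod_cast h3
  have h5 : (Nat.choose (n + 1) (i + 1) : ℝ) ≠ 0 := by
    have : 0 < Nat.choose (n + 1) (i + 1) := Nat.choose_pos (by omega)
    exact_mod_cast this.ne'
  have h6 : ((n : ℝ) + 1) ≠ 0 := by positivity
  push_cast
  rw [div_eq_iff h5]
  have h7 : (Nat.choose n i : ℝ) =
      (Nat.choose (n + 1) (i + 1) : ℝ) * ((i : ℝ) + 1) / ((n : ℝ) + 1) := by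
    rw [eq_div_iff h6]
    linarith
  rw [h7]
  field_simp

end Ka_aux

open Ka_aux in
theorem iKa : StKa := by
  intro β _ _ g i hk hi hik
  have hk2 : (2 : ℝ) ≤ Fintype.card β := by exact_mod_cast hk
  have hk0 : (0 : ℝ) < Fintype.card β := by linarith
  have hk1 : (0 : ℝ) < (Fintype.card β : ℝ) - 1 := by linarith
  have hi0 : (0 : ℝ) < i := by exact_mod_cast hi
  have h1 : avg (powersetCard i (univ : Finset β)) (fun D => ∑ x ∈ D, ss g x) ≤
      avg (powersetCard i (univ : Finset β))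
        (fun D => 1 / ((Fintype.card β : ℝ) - 1) * avg univ (fun θ => (cE D g θ) ^ 2)) := by
    refine avg_mono _ _ _ (fun D _ => ?_)
    rw [one_div, inv_mul_eq_div]
    exact one_D hk g D
  rw [avg_D g i hi hik, avg_mul_left] at h1
  rw [Dj_one (le_trans (by norm_num) hk)]
  have h2 : (∑ x, ss g x) = (Fintype.card β : ℝ) / i *
      ((i : ℝ) / (Fintype.card β : ℝ) * ∑ x, ss g x) := by
    field_simp
  rw [h2]
  calc (Fintype.card β : ℝ) / i * ((i : ℝ) / (Fintype.card β : ℝ) * ∑ x, ss g x)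
      ≤ (Fintype.card β : ℝ) / i * (1 / ((Fintype.card β : ℝ) - 1) *
        avg (powersetCard i (univ : Finset β)) (fun D => avg univ (fun θ => (cE D g θ) ^ 2))) :=
        mul_le_mul_of_nonneg_left h1 (by positivity)
    _ = (Fintype.card β : ℝ) / ((Fintype.card β : ℝ) - 1) * Am i g / i := by
        unfold Am
        field_simp

end Pool.Agent.Work.MP_499dc6_lc.SG
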