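import Pool.Agent.Work.MP_499dc6_lc.SG.Stmts

/-!
MP_499dc6_lc, block SG: item Kb.
-/

set_option autoImplicit false

open Finset

noncomputable section

namespace Pool.Agent.Work.MP_499dc6_lc.SG

namespace Kb_aux

variable {β : Type} [Fintype β] [DecidableEq β]

lemma card_supersets (T : Finset β) (i : ℕ) (hi : T.card ≤ i) :
    ((powersetCard i (univ : Finset β)).filter (fun D => T ⊆ D)).card =
      Nat.choose (Fintype.card β - T.card) (i - T.card) := by
  rw [← card_compl, ← card_powersetCard]
  refine Finset.card_nbij' (fun D => D \ T) (fun E => E ∪ T) ?_ ?_ ?_ ?_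
  · intro D hD
    simp only [coe_filter, mem_powersetCard, subset_univ, true_and, Set.mem_ofPred_eq] at hD
    simp only [mem_coe, mem_powersetCard]
    refine ⟨?_, ?_⟩
    · intro x hx
      rw [mem_sdiff] at hx
      exact mem_compl.2 hx.2
    · rw [card_sdiff_of_subset hD.2, hD.1]
  · intro E hE
    simp only [mem_coe, mem_powersetCard] at hE
    simp only [coe_filter, mem_powersetCard, subset_univ, true_and, Set.mem_ofPred_eq]
    have hdis : Disjoint E T := by
      rw [Finset.disjoint_left]
      intro x hx hT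
      exact (mem_compl.1 (hE.1 hx)) hT
    refine ⟨?_, subset_union_right⟩
    rw [card_union_of_disjoint hdis, hE.2]
    omega
  · intro D hD
    simp only [coe_filter, mem_powersetCard, subset_univ, true_and, Set.mem_ofPred_eq] at hD
    exact sdiff_union_of_subset hD.2
  · intro E hE
    simp only [mem_coe, mem_powersetCard] at hE
    have hdis : Disjoint E T := by
      rw [Finset.disjoint_left]
      intro x hx hT
      exact (mem_compl.1 (hE.1 hx)) hT
    exact union_sdiff_cancel_right hdis

omit [Fintype β] in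
lemma card_close (D T : Finset β) (i j : ℕ) (hT : T ⊆ D) (hTj : T.card = j) (hD : D.card = i) :
    ((powersetCard j D).filter (fun T' => (T \ T').card ≤ 1)).card ≤ 1 + j * (i - j) := by
  have hsub : (powersetCard j D).filter (fun T' => (T \ T').card ≤ 1) ⊆
      insert T ((T ×ˢ (D \ T)).image (fun p => insert p.2 (T.erase p.1))) := by
    intro T' hT'
    rw [mem_filter, mem_powersetCard] at hT'
    obtain ⟨⟨hT'D, hT'j⟩, hc⟩ := hT'
    rw [mem_insert]
    rcases Nat.eq_zero_or_pos (T \ T').card with h0 | h1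
    · left
      have h2 : T ⊆ T' := by
        rw [card_eq_zero, sdiff_eq_empty_iff_subset] at h0
        exact h0
      exact (eq_of_subset_of_card_le h2 (by omega)).symm
    · right
      have h1' : (T \ T').card = 1 := by omega
      have h2' : (T' \ T).card = 1 := by
        have := card_sdiff_add_card_inter T T'
        have h3 := card_sdiff_add_card_inter T' T
        rw [inter_comm T' T] at h3
        omega
      obtain ⟨x, hx⟩ := card_eq_one.1 h1'
      obtain ⟨y, hy⟩ := card_eq_one.1 h2'
      have hxm : x ∈ T \ T' := by rw [hx]; exact mem_singleton_self x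
      have hym : y ∈ T' \ T := by rw [hy]; exact mem_singleton_self y
      rw [mem_sdiff] at hxm hym
      rw [mem_image]
      refine ⟨(x, y), ?_, ?_⟩
      · rw [mem_product, mem_sdiff]
        exact ⟨hxm.1, hT'D hym.1, hym.2⟩
      · ext z
        simp only [mem_insert, mem_erase]
        constructor
        · rintro (rfl | ⟨hzx, hzT⟩)
          · exact hym.1
          · by_contra hz
            have : z ∈ T \ T' := mem_sdiff.2 ⟨hzT, hz⟩
            rw [hx, mem_singleton] at this
            exact hzx this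
        · intro hz
          by_cases hzT : z ∈ T
          · right
            refine ⟨?_, hzT⟩
            rintro rfl
            exact hxm.2 hz
          · left
            have : z ∈ T' \ T := mem_sdiff.2 ⟨hz, hzT⟩
            rw [hy, mem_singleton] at this
            exact this
  refine (card_le_card hsub).trans ((card_insert_le _ _).trans ?_)
  have h4 := card_image_le (s := T ×ˢ (D \ T)) (f := fun p : β × β => insert p.2 (T.erase p.1))
  rw [card_product, card_sdiff_of_subset hT, hTj, hD] at h4
  omega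

omit [Fintype β] in
lemma close_symm (T T' : Finset β) (h : T.card = T'.card) : (T \ T').card = (T' \ T).card := by
  have := card_sdiff_add_card_inter T T'
  have h3 := card_sdiff_add_card_inter T' T
  rw [inter_comm T' T] at h3
  omega

/-- the inequality for a fixed set `D`, with sums -/
lemma fixed (hB : StBp) (hO : StOrth) (g : Equiv.Perm β → ℝ) (i j : ℕ) (hji : j ≤ i)
    (D : Finset β) (hD : D.card = i) :
    ∑ T ∈ powersetCard j D, ∑ σ, (BT T g σ) ^ 2 ≤
      (1 + (j : ℝ) * ((i : ℝ) - j)) * ∑ θ, (cE D g θ) ^ 2 := by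
  classical
  set n : Finset β → ℝ := fun T => ∑ σ, (BT T g σ) ^ 2 with hn
  have hn0 : ∀ T, 0 ≤ n T := fun T => sum_nonneg (fun σ _ => sq_nonneg _)
  set S : ℝ := ∑ T ∈ powersetCard j D, n T with hS
  have hS0 : 0 ≤ S := sum_nonneg (fun T _ => hn0 T)
  set Λ : ℝ := 1 + (j : ℝ) * ((i : ℝ) - j) with hΛ
  have hji' : (j : ℝ) ≤ i := by exact_mod_cast hji
  have hΛ0 : 0 ≤ Λ := by
    have : 0 ≤ (j : ℝ) * ((i : ℝ) - j) := mul_nonneg (Nat.cast_nonneg _) (by linarith)
    linarith
  have hN : (0 : ℝ) < ((univ : Finset (Equiv.Perm β)).card : ℝ) := by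
    exact_mod_cast card_pos.2 ⟨1, mem_univ _⟩
  -- first moment
  have h1 : ∀ T ∈ powersetCard j D, ∑ σ, cE D g σ * BT T g σ = n T := by
    intro T hT
    have h := (hB β T g).2.2 D (mem_powersetCard.1 hT).1
    unfold avg at h
    rw [div_eq_div_iff hN.ne' hN.ne'] at h
    exact mul_right_cancel₀ hN.ne' h
  set F : Equiv.Perm β → ℝ := fun σ => ∑ T ∈ powersetCard j D, BT T g σ with hF
  have h2 : ∑ σ, cE D g σ * F σ = S := by
    simp only [hF, mul_sum]
    rw [sum_comm]
    exact sum_congr rfl h1
  -- second moment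
  have h3 : ∑ σ, (F σ) ^ 2 = ∑ T ∈ powersetCard j D, ∑ T' ∈ powersetCard j D,
      ∑ σ, BT T g σ * BT T' g σ := by
    simp only [hF, sq, sum_mul_sum]
    rw [sum_comm]
    refine sum_congr rfl (fun T _ => ?_)
    rw [sum_comm]
  have h4 : ∀ T ∈ powersetCard j D, ∀ T' ∈ powersetCard j D,
      ∑ σ, BT T g σ * BT T' g σ ≤
        if (T \ T').card ≤ 1 then (n T + n T') / 2 else 0 := by
    intro T _ T' _
    split_ifs with hc
    · have h5 : ∑ σ, BT T g σ * BT T' g σ ≤ ∑ σ, ((BT T g σ) ^ 2 + (BT T' g σ) ^ 2) / 2 := by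
        refine sum_le_sum (fun σ _ => ?_)
        nlinarith [sq_nonneg (BT T g σ - BT T' g σ)]
      refine h5.trans (le_of_eq ?_)
      rw [← sum_div, sum_add_distrib]
    · exact (hO β T T' g (by omega)).le
  have h6 : ∑ σ, (F σ) ^ 2 ≤ Λ * S := by
    rw [h3]
    have h7 : ∑ T ∈ powersetCard j D, ∑ T' ∈ powersetCard j D, ∑ σ, BT T g σ * BT T' g σ ≤
        ∑ T ∈ powersetCard j D, ∑ T' ∈ powersetCard j D,
          ((if (T \ T').card ≤ 1 then n T / 2 else 0) +
            (if (T \ T').card ≤ 1 then n T' / 2 else 0)) := by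
      refine sum_le_sum (fun T hT => sum_le_sum (fun T' hT' => (h4 T hT T' hT').trans ?_))
      split_ifs <;> linarith
    refine h7.trans ?_
    have h8 : ∀ T ∈ powersetCard j D, ∑ T' ∈ powersetCard j D,
        (if (T \ T').card ≤ 1 then n T / 2 else 0) ≤ Λ * n T / 2 := by
      intro T hT
      rw [← sum_filter, sum_const, nsmul_eq_mul]
      have h9 := card_close D T i j (mem_powersetCard.1 hT).1 (mem_powersetCard.1 hT).2 hD
      have h10 : ((((powersetCard j D).filter (fun T' => (T \ T').card ≤ 1)).card : ℕ) : ℝ) ≤ Λ := by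
        have : ((((powersetCard j D).filter (fun T' => (T \ T').card ≤ 1)).card : ℕ) : ℝ) ≤
            ((1 + j * (i - j) : ℕ) : ℝ) := by exact_mod_cast h9
        refine this.trans (le_of_eq ?_)
        rw [hΛ]
        push_cast [Nat.cast_sub hji]
        ring
      have h11 := hn0 T
      nlinarith
    simp only [sum_add_distrib]
    have h12 : ∑ T ∈ powersetCard j D, ∑ T' ∈ powersetCard j D,
        (if (T \ T').card ≤ 1 then n T / 2 else 0) ≤ ∑ T ∈ powersetCard j D, Λ * n T / 2 :=
      sum_le_sum h8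
    have h13 : ∑ T ∈ powersetCard j D, ∑ T' ∈ powersetCard j D,
        (if (T \ T').card ≤ 1 then n T' / 2 else 0) ≤ ∑ T ∈ powersetCard j D, Λ * n T / 2 := by
      rw [sum_comm]
      refine sum_le_sum (fun T hT => ?_)
      refine (le_of_eq ?_).trans (h8 T hT)
      refine sum_congr rfl (fun T' hT' => ?_)
      rw [close_symm T' T ((mem_powersetCard.1 hT').2.trans (mem_powersetCard.1 hT).2.symm)]
    have h14 : ∑ T ∈ powersetCard j D, Λ * n T / 2 = Λ * S / 2 := by
      rw [← sum_div, ← mul_sum]
    rw [h14] at h12 h13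
    linarith
  have h15 := Finset.sum_mul_sq_le_sq_mul_sq (univ : Finset (Equiv.Perm β)) (cE D g) F
  rw [h2] at h15
  have hc0 : 0 ≤ ∑ θ, (cE D g θ) ^ 2 := sum_nonneg (fun σ _ => sq_nonneg _)
  have h16 : S ^ 2 ≤ (∑ θ, (cE D g θ) ^ 2) * (Λ * S) :=
    h15.trans (mul_le_mul_of_nonneg_left h6 hc0)
  rcases hS0.eq_or_lt with h0 | hpos
  · rw [← h0]
    exact mul_nonneg hΛ0 hc0
  · have h17 : S * S ≤ (Λ * ∑ θ, (cE D g θ) ^ 2) * S := by nlinarith
    exact le_of_mul_le_mul_right h17 hpos

end Kb_aux

open Kb_aux in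
theorem iKb (hP : StPsi) (hB : StBp) (hO : StOrth) : StKb := by
  intro β _ _ g i j hj1 hji hik
  classical
  set k := Fintype.card β with hk
  have hjk : j ≤ k := hji.trans hik
  set Λ : ℝ := 1 + (j : ℝ) * ((i : ℝ) - j) with hΛ
  have hN : (0 : ℝ) < ((univ : Finset (Equiv.Perm β)).card : ℝ) := by
    exact_mod_cast card_pos.2 ⟨1, mem_univ _⟩
  set N : ℝ := ((univ : Finset (Equiv.Perm β)).card : ℝ) with hNdef
  set n : Finset β → ℝ := fun T => ∑ σ, (BT T g σ) ^ 2 with hn
  set X : ℝ := ∑ T ∈ powersetCard j (univ : Finset β), n T with hX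
  set Y : ℝ := ∑ D ∈ powersetCard i (univ : Finset β), ∑ θ, (cE D g θ) ^ 2 with hY
  have hcj : ((powersetCard j (univ : Finset β)).card : ℝ) = (Nat.choose k j : ℝ) := by
    rw [card_powersetCard, card_univ]
  have hci : ((powersetCard i (univ : Finset β)).card : ℝ) = (Nat.choose k i : ℝ) := by
    rw [card_powersetCard, card_univ]
  have hpsi : Psi j g = X / N / (Nat.choose k j : ℝ) := by
    rw [hP β g j hjk]
    unfold avg
    rw [hcj, ← sum_div]
  have ham : Am i g = Y / N / (Nat.choose k i : ℝ) := by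
    unfold Am avg
    rw [hci, ← sum_div]
  -- double counting
  have hdc : ∑ D ∈ powersetCard i (univ : Finset β), ∑ T ∈ powersetCard j D, n T =
      (Nat.choose (k - j) (i - j) : ℝ) * X := by
    have h1 : ∀ D ∈ powersetCard i (univ : Finset β), ∑ T ∈ powersetCard j D, n T =
        ∑ T ∈ powersetCard j (univ : Finset β), if T ⊆ D then n T else 0 := by
      intro D _
      rw [← sum_filter]
      refine sum_congr ?_ (fun _ _ => rfl)
      ext T
      simp only [mem_powersetCard, mem_filter, subset_univ, true_and]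
      exact and_comm
    rw [sum_congr rfl h1, sum_comm, hX, mul_sum]
    refine sum_congr rfl (fun T hT => ?_)
    rw [← sum_filter, sum_const, nsmul_eq_mul]
    have hTj : T.card = j := (mem_powersetCard.1 hT).2
    rw [card_supersets T i (by omega), hTj]
  have hmain : (Nat.choose (k - j) (i - j) : ℝ) * X ≤ Λ * Y := by
    rw [← hdc, hY, mul_sum]
    exact sum_le_sum (fun D hD => fixed hB hO g i j hji D (mem_powersetCard.1 hD).2)
  have hch : (Nat.choose k i : ℝ) * (Nat.choose i j : ℝ) =
      (Nat.choose k j : ℝ) * (Nat.choose (k - j) (i - j) : ℝ) := by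
    exact_mod_cast Nat.choose_mul (n := k) hji
  have hki : (0 : ℝ) < (Nat.choose k i : ℝ) := by exact_mod_cast Nat.choose_pos hik
  have hkj : (0 : ℝ) < (Nat.choose k j : ℝ) := by exact_mod_cast Nat.choose_pos hjk
  rw [hpsi, ham]
  have e1 : (Nat.choose i j : ℝ) * (X / N / (Nat.choose k j : ℝ)) =
      ((Nat.choose (k - j) (i - j) : ℝ) * X) / (N * (Nat.choose k i : ℝ)) := by
    rw [div_div, mul_div_assoc', div_eq_div_iff (by positivity) (by positivity)]
    linear_combination (X * N) * hch
  have e2 : Λ * (Y / N / (Nat.choose k i : ℝ)) = (Λ * Y) / (N * (Nat.choose k i : ℝ)) := by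
    rw [div_div, mul_div_assoc']
  rw [e1, e2]
  exact div_le_div_of_nonneg_right hmain (by positivity)

end Pool.Agent.Work.MP_499dc6_lc.SG
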