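import Pool.Agent.Work.MP_499dc6_lc.SG.Stmts

/-!
MP_499dc6_lc (VP versus VNP), block SG: item Key (assembly of the key inequality).
-/

set_option autoImplicit false

open Finset

noncomputable section

namespace Pool.Agent.Work.MP_499dc6_lc.SG

namespace Key_aux

/-- the bound from `StKb` for one function -/
theorem one (hKb : StKb) (hA : StAlg) (hP : StDpos) (β : Type) [Fintype β] [DecidableEq β]
    (g : Equiv.Perm β → ℝ) (hk : 2 ≤ Fintype.card β) (i j : ℕ) (h1 : 1 ≤ j) (h2 : j ≤ i)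
    (h3 : i ≤ Fintype.card β) :
    Dj j g ≤ (1 + (j : ℝ) * ((i : ℝ) - j)) / (Nat.choose i j : ℝ) * Am i g := by
  obtain ⟨j', rfl⟩ : ∃ j', j = j' + 1 := ⟨j - 1, by omega⟩
  have hc : (0 : ℝ) < (Nat.choose i (j' + 1) : ℝ) := by
    exact_mod_cast Nat.choose_pos h2
  have hps := (hA β g hk).2.1 j'
  have hd := hP β g j' (by omega)
  have hkb := hKb β g i (j' + 1) h1 h2 h3
  have hle : Dj (j' + 1) g ≤ Psi (j' + 1) g := by linarith
  have h4 : (Nat.choose i (j' + 1) : ℝ) * Dj (j' + 1) g ≤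
      (1 + ((j' + 1 : ℕ) : ℝ) * ((i : ℝ) - ((j' + 1 : ℕ) : ℝ))) * Am i g :=
    le_trans (mul_le_mul_of_nonneg_left hle hc.le) hkb
  rw [div_mul_eq_mul_div, le_div_iff₀ hc]
  linarith [mul_comm (Nat.choose i (j' + 1) : ℝ) (Dj (j' + 1) g)]

/-- the bound for `g` and `g sgn` together -/
theorem two (hKb : StKb) (hB : StAmB) (hA : StAlg) (hP : StDpos) (β : Type) [Fintype β]
    [DecidableEq β] (g : Equiv.Perm β → ℝ) (hk : 2 ≤ Fintype.card β) (hg : ∀ σ, 0 ≤ g σ)
    (i j : ℕ) (h1 : 1 ≤ j) (h2 : j ≤ i) (h3 : i ≤ Fintype.card β) :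
    Dj j g + Dj j (fun σ => g σ * sgR σ) ≤
      2 * ((1 + (j : ℝ) * ((i : ℝ) - j)) / (Nat.choose i j : ℝ) * Am i g) := by
  have e1 := one hKb hA hP β g hk i j h1 h2 h3
  have e2 := one hKb hA hP β (fun σ => g σ * sgR σ) hk i j h1 h2 h3
  have hc : (0 : ℝ) < (Nat.choose i j : ℝ) := by
    exact_mod_cast Nat.choose_pos h2
  have hij : (0 : ℝ) ≤ (i : ℝ) - j := by
    have : (j : ℝ) ≤ (i : ℝ) := by exact_mod_cast h2
    linarith
  have hco : 0 ≤ (1 + (j : ℝ) * ((i : ℝ) - j)) / (Nat.choose i j : ℝ) := by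
    have : (0 : ℝ) ≤ (j : ℝ) := Nat.cast_nonneg j
    positivity
  have e3 := (hB β g).2.1 hg i
  have e4 := mul_le_mul_of_nonneg_left e3 hco
  linarith

/-- the bound for `j = 1` -/
theorem first (hKa : StKa) (hB : StAmB) (β : Type) [Fintype β]
    [DecidableEq β] (g : Equiv.Perm β → ℝ) (hk : 16 ≤ Fintype.card β) (hg : ∀ σ, 0 ≤ g σ) :
    Dj 1 g + Dj 1 (fun σ => g σ * sgR σ) ≤
      2 * ((Fintype.card β : ℝ) / ((Fintype.card β : ℝ) - 1) * Am 16 g / 16) := by
  have e1 := hKa β g 16 (by omega) (by omega) hk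
  have e2 := hKa β (fun σ => g σ * sgR σ) 16 (by omega) (by omega) hk
  have hk1 : (16 : ℝ) ≤ (Fintype.card β : ℝ) := by exact_mod_cast hk
  have hco : 0 ≤ (Fintype.card β : ℝ) / ((Fintype.card β : ℝ) - 1) :=
    div_nonneg (by linarith) (by linarith)
  have e3 := (hB β g).2.1 hg 16
  have e4 := mul_le_mul_of_nonneg_left e3 hco
  push_cast at e1 e2
  linarith

/-- the sum over the odd numbers is at most the sum over the larger set -/
theorem drop (N : ℕ) (T : ℕ → ℝ) (hT : ∀ j, 0 ≤ T j) :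
    ∑ j ∈ (Icc 1 N).filter Odd, T j ≤ T 1 + T 3 + T 5 + ∑ j ∈ Ioc 6 N, T j := by
  have hsub : (Icc 1 N).filter Odd ⊆ ({1, 3, 5} : Finset ℕ) ∪ Ioc 6 N := by
    intro j hj
    rw [mem_filter, mem_Icc] at hj
    obtain ⟨⟨h1, h2⟩, h3⟩ := hj
    rw [mem_union, mem_Ioc]
    by_cases h6 : 6 < j
    · exact Or.inr ⟨h6, h2⟩
    · left
      obtain ⟨r, hr⟩ := h3
      simp only [mem_insert, mem_singleton]
      omega
  have hdis : Disjoint ({1, 3, 5} : Finset ℕ) (Ioc 6 N) := by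
    rw [Finset.disjoint_left]
    intro j hj hj'
    rw [mem_Ioc] at hj'
    simp only [mem_insert, mem_singleton] at hj
    omega
  calc ∑ j ∈ (Icc 1 N).filter Odd, T j ≤ ∑ j ∈ ({1, 3, 5} : Finset ℕ) ∪ Ioc 6 N, T j :=
        sum_le_sum_of_subset_of_nonneg hsub (fun j _ _ => hT j)
    _ = ∑ j ∈ ({1, 3, 5} : Finset ℕ), T j + ∑ j ∈ Ioc 6 N, T j := sum_union hdis
    _ = T 1 + T 3 + T 5 + ∑ j ∈ Ioc 6 N, T j := by
        have : ∑ j ∈ ({1, 3, 5} : Finset ℕ), T j = T 1 + T 3 + T 5 := by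
          rw [sum_insert (by decide), sum_insert (by decide), sum_singleton]
          ring
        rw [this]

end Key_aux

/-- ITEM Key -/
theorem iKey (hH : StHalf) (hKa : StKa) (hKb : StKb) (hB : StAmB) (hA : StAlg) (hP : StDpos) :
    StKey := by
  intro β _ _ g hk hodd hg hfull
  have hhalf := hH β g (by omega) hodd hfull
  rw [(hB β g).1]
  refine le_trans hhalf ?_
  have hT : ∀ j, 0 ≤ Dj j g + Dj j (fun σ => g σ * sgR σ) := fun j =>
    add_nonneg (hP β g j (by omega)) (hP β _ j (by omega))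
  refine le_trans (Key_aux.drop ((Fintype.card β - 1) / 2) _ hT) ?_
  have e1 := Key_aux.first hKa hB β g (by omega) hg
  have e3 := Key_aux.two hKb hB hA hP β g (by omega) hg 32 3 (by omega) (by omega) (by omega)
  have e5 := Key_aux.two hKb hB hA hP β g (by omega) hg 20 5 (by omega) (by omega) (by omega)
  have c3 : Nat.choose 32 3 = 4960 := by decide
  have c5 : Nat.choose 20 5 = 15504 := by decide
  rw [c3] at e3
  rw [c5] at e5
  have e7 : ∑ j ∈ Ioc 6 ((Fintype.card β - 1) / 2),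
      (Dj j g + Dj j (fun σ => g σ * sgR σ)) ≤
      ∑ j ∈ Ioc 6 ((Fintype.card β - 1) / 2),
        2 * ((1 + (j : ℝ) ^ 2) / (Nat.choose (2 * j) j : ℝ) * Am (2 * j) g) := by
    refine sum_le_sum (fun j hj => ?_)
    rw [mem_Ioc] at hj
    have h := Key_aux.two hKb hB hA hP β g (by omega) hg (2 * j) j (by omega) (by omega)
      (by omega)
    have hc : (1 + (j : ℝ) * (((2 * j : ℕ) : ℝ) - j)) = 1 + (j : ℝ) ^ 2 := by
      push_cast
      ring
    rw [hc] at h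
    exact h
  rw [← mul_sum] at e7
  unfold Br
  norm_num at e3 e5 ⊢
  linarith

end Pool.Agent.Work.MP_499dc6_lc.SG
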