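import Pool.Agent.Work.MP_499dc6_lc.SG.Stmts

/-!
Block SG, item Lin (heights).
-/

set_option autoImplicit false

open Finset

noncomputable section

namespace Pool.Agent.Work.MP_499dc6_lc.SG

namespace Lin_aux

variable {q : ℕ}

/-- functions invariant under `π` -/
def Inv (π : Equiv.Perm (Fin q)) : Submodule ℚ (Fin q → ℚ) where
  carrier := {f | ∀ e, f (π e) = f e}
  add_mem' := by
    intro f g hf hg e
    simp only [Pi.add_apply]
    rw [hf e, hg e]
  zero_mem' := by intro e; rfl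
  smul_mem' := by
    intro c f hf e
    simp only [Pi.smul_apply]
    rw [hf e]

theorem mem_Inv {π : Equiv.Perm (Fin q)} {f : Fin q → ℚ} : f ∈ Inv π ↔ ∀ e, f (π e) = f e :=
  Iff.rfl

theorem inv_pow {π : Equiv.Perm (Fin q)} {f : Fin q → ℚ} (hf : f ∈ Inv π) (n : ℕ) (e : Fin q) :
    f ((π ^ n) e) = f e := by
  induction n with
  | zero => simp
  | succ n ih => rw [pow_succ', Equiv.Perm.mul_apply, mem_Inv.1 hf, ih]

theorem inv_zpow {π : Equiv.Perm (Fin q)} {f : Fin q → ℚ} (hf : f ∈ Inv π) (n : ℤ) (e : Fin q) :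
    f ((π ^ n) e) = f e := by
  cases n with
  | ofNat n => exact inv_pow hf n e
  | negSucc n =>
    have h := inv_pow hf (n + 1) ((π ^ (Int.negSucc n)) e)
    rw [zpow_negSucc, ← Equiv.Perm.mul_apply, mul_inv_cancel, Equiv.Perm.one_apply] at h
    rw [zpow_negSucc]
    exact h.symm

theorem inv_same {π : Equiv.Perm (Fin q)} {f : Fin q → ℚ} (hf : f ∈ Inv π) {a b : Fin q}
    (h : π.SameCycle a b) : f a = f b := by
  obtain ⟨n, hn⟩ := h
  rw [← hn, inv_zpow hf]

theorem finrank_Inv (π : Equiv.Perm (Fin q)) : Module.finrank ℚ (Inv π) = cyc π := by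
  classical
  let _ : Fintype (Quotient (Equiv.Perm.SameCycle.setoid π)) := Fintype.ofFinite _
  let mk : Fin q → Quotient (Equiv.Perm.SameCycle.setoid π) := Quotient.mk _
  let L := LinearMap.funLeft ℚ ℚ mk
  have hinj : Function.Injective L :=
    LinearMap.funLeft_injective_of_surjective ℚ ℚ mk Quotient.mk_surjective
  have hr : LinearMap.range L = Inv π := by
    ext f
    constructor
    · rintro ⟨g, rfl⟩ e
      change g (mk (π e)) = g (mk e)
      congr 1
      apply Quotient.sound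
      change π.SameCycle (π e) e
      exact (Equiv.Perm.sameCycle_apply_left).2 (Equiv.Perm.SameCycle.refl _ _)
    · intro hf
      refine ⟨fun a => Quotient.liftOn a f (fun a b h => inv_same hf h), ?_⟩
      ext e
      rfl
  rw [← hr, LinearMap.finrank_range_of_inj hinj, Module.finrank_fintype_fun_eq_card, cyc,
    Nat.card_eq_fintype_card]

/-- invariant under both: constant -/
theorem const_of {x y : Equiv.Perm (Fin q)}
    (hc : ∀ S : Finset (Fin q), S.Nonempty → (∀ e ∈ S, x e ∈ S ∧ y e ∈ S) → S = univ)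
    {f : Fin q → ℚ} (hx : f ∈ Inv x) (hy : f ∈ Inv y) (e₀ e : Fin q) : f e = f e₀ := by
  classical
  have h := hc (univ.filter (fun e => f e = f e₀)) ⟨e₀, by simp⟩ (by
    intro e he
    simp only [mem_filter, mem_univ, true_and] at he ⊢
    exact ⟨(hx e).trans he, (hy e).trans he⟩)
  have h2 := mem_univ e
  rw [← h] at h2
  simpa using h2

theorem finrank_inf {x y : Equiv.Perm (Fin q)}
    (hc : ∀ S : Finset (Fin q), S.Nonempty → (∀ e ∈ S, x e ∈ S ∧ y e ∈ S) → S = univ)
    (e₀ : Fin q) : Module.finrank ℚ (Inv x ⊓ Inv y : Submodule ℚ (Fin q → ℚ)) ≤ 1 := by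
  refine finrank_le_one (⟨fun _ => 1, ⟨fun _ => rfl, fun _ => rfl⟩⟩ :
    (Inv x ⊓ Inv y : Submodule ℚ (Fin q → ℚ))) ?_
  rintro ⟨f, hf⟩
  refine ⟨f e₀, ?_⟩
  ext e
  simp only [Submodule.coe_smul, Pi.smul_apply, smul_eq_mul, mul_one]
  exact (const_of hc hf.1 hf.2 e₀ e).symm

/-- difference along `x` -/
def dl (x : Equiv.Perm (Fin q)) : (Fin q → ℚ) →ₗ[ℚ] (Fin q → ℚ) :=
  LinearMap.id - LinearMap.funLeft ℚ ℚ x

theorem dl_apply (x : Equiv.Perm (Fin q)) (f : Fin q → ℚ) (e : Fin q) :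
    dl x f e = f e - f (x e) := rfl

theorem finrank_map {x y : Equiv.Perm (Fin q)}
    (hc : ∀ S : Finset (Fin q), S.Nonempty → (∀ e ∈ S, x e ∈ S ∧ y e ∈ S) → S = univ)
    (e₀ : Fin q) : cyc (x * y) ≤ Module.finrank ℚ ((Inv (x * y)).map (dl x)) + 1 := by
  have h := LinearMap.finrank_range_add_finrank_ker ((dl x).domRestrict (Inv (x * y)))
  rw [finrank_Inv, LinearMap.range_domRestrict] at h
  have hk : Module.finrank ℚ (LinearMap.ker ((dl x).domRestrict (Inv (x * y)))) ≤ 1 := by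
    have h1 : (⟨fun _ => 1, fun _ => rfl⟩ : Inv (x * y)) ∈
        LinearMap.ker ((dl x).domRestrict (Inv (x * y))) := by
      rw [LinearMap.mem_ker]
      ext e
      simp [dl_apply]
    refine finrank_le_one (⟨_, h1⟩ : LinearMap.ker ((dl x).domRestrict (Inv (x * y)))) ?_
    rintro ⟨⟨f, hf⟩, hf2⟩
    rw [LinearMap.mem_ker] at hf2
    have hx : f ∈ Inv x := by
      intro e
      have h3 := congrFun hf2 e
      simp only [LinearMap.domRestrict_apply, dl_apply, Pi.zero_apply] at h3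
      linarith
    have hy : f ∈ Inv y := by
      intro e
      have h4 := mem_Inv.1 hf e
      rw [Equiv.Perm.mul_apply, mem_Inv.1 hx] at h4
      exact h4
    refine ⟨f e₀, ?_⟩
    ext e
    change f e₀ * 1 = f e
    rw [mul_one]
    exact (const_of hc hx hy e₀ e).symm
  omega

/-- the dot product -/
def B (q : ℕ) : LinearMap.BilinForm ℚ (Fin q → ℚ) := Matrix.toBilin' 1

theorem B_apply (f g : Fin q → ℚ) : B q f g = ∑ e, f e * g e := by
  rw [B, Matrix.toBilin'_apply']
  simp [dotProduct]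

theorem B_nondeg : (B q).Nondegenerate := by
  rw [B]
  apply LinearMap.BilinForm.nondegenerate_toBilin'_of_det_ne_zero'
  simp

theorem B_refl : (B q).IsRefl := by
  intro f g h
  rw [B_apply] at h ⊢
  rw [← h]
  exact Finset.sum_congr rfl (fun e _ => mul_comm _ _)

theorem mem_orth {x y : Equiv.Perm (Fin q)} {u : Fin q → ℚ}
    (h1 : ∀ f ∈ Inv x, ∑ e, f e * u e = 0) (h2 : ∀ f ∈ Inv y, ∑ e, f e * u e = 0) :
    u ∈ (B q).orthogonal (Inv x ⊔ Inv y) := by
  rw [LinearMap.BilinForm.mem_orthogonal_iff]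
  intro f hf
  obtain ⟨f1, hf1, f2, hf2, rfl⟩ := Submodule.mem_sup.1 hf
  change B q (f1 + f2) u = 0
  rw [map_add, LinearMap.add_apply, B_apply, B_apply, h1 f1 hf1, h2 f2 hf2, add_zero]

theorem map_le {x y : Equiv.Perm (Fin q)} :
    (Inv (x * y)).map (dl x) ≤ (B q).orthogonal (Inv x ⊔ Inv y) := by
  rintro _ ⟨η, hη, rfl⟩
  apply mem_orth
  · intro f hf
    have h := Equiv.sum_comp x (fun e => f e * η e)
    simp only [dl_apply, mul_sub, Finset.sum_sub_distrib]
    rw [← h, sub_eq_zero]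
    apply Finset.sum_congr rfl
    intro e _
    rw [mem_Inv.1 hf e]
  · intro f hf
    have h := Equiv.sum_comp y (fun e => f e * η (x e))
    simp only [dl_apply, mul_sub, Finset.sum_sub_distrib]
    rw [← h, sub_eq_zero]
    apply Finset.sum_congr rfl
    intro e _
    rw [mem_Inv.1 hf e]
    have := mem_Inv.1 hη e
    rw [Equiv.Perm.mul_apply] at this
    rw [this]

theorem eq_orth {x y : Equiv.Perm (Fin q)} (h : IsPlaneMap x y) (e₀ : Fin q) :
    (Inv (x * y)).map (dl x) = (B q).orthogonal (Inv x ⊔ Inv y) := by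
  obtain ⟨hc, hE⟩ := h
  apply Submodule.eq_of_le_of_finrank_le map_le
  rw [LinearMap.BilinForm.finrank_orthogonal B_nondeg]
  have h1 := Submodule.finrank_sup_add_finrank_inf_eq (Inv x) (Inv y)
  rw [finrank_Inv, finrank_Inv] at h1
  have h2 := finrank_inf hc e₀
  have h3 := finrank_map hc e₀
  rw [Module.finrank_fin_fun]
  omega

/-- sums of an invariant function over two transversals agree -/
theorem sum_perf {x : Equiv.Perm (Fin q)} {M M' : Finset (Fin q)}
    (hM : ∀ e, ∃! e', e' ∈ M ∧ x.SameCycle e e') (hM' : ∀ e, ∃! e', e' ∈ M' ∧ x.SameCycle e e')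
    {f : Fin q → ℚ} (hf : f ∈ Inv x) : ∑ e ∈ M, f e = ∑ e ∈ M', f e := by
  choose i hi hi2 using hM'
  refine Finset.sum_nbij i ?_ ?_ ?_ ?_
  · intro e _
    exact (hi e).1
  · intro a ha b hb hab
    obtain ⟨c, -, hc2⟩ := hM a
    have h1 := hc2 a ⟨ha, Equiv.Perm.SameCycle.refl _ _⟩
    have h2 := hc2 b ⟨hb, (hi a).2.trans (by
      have := (hi b).2.symm
      rw [← hab] at this
      exact this)⟩
    rw [h1, h2]
  · intro b hb
    obtain ⟨a, ha, -⟩ := hM b
    refine ⟨a, ha.1, ?_⟩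
    exact (hi2 a b ⟨hb, ha.2.symm⟩).symm
  · intro e _
    exact inv_same hf (hi e).2

theorem sum_ind {x : Equiv.Perm (Fin q)} {M M' : Finset (Fin q)}
    (hM : ∀ e, ∃! e', e' ∈ M ∧ x.SameCycle e e') (hM' : ∀ e, ∃! e', e' ∈ M' ∧ x.SameCycle e e')
    {f : Fin q → ℚ} (hf : f ∈ Inv x) :
    ∑ e, f e * ((if e ∈ M then 1 else 0) - (if e ∈ M' then 1 else 0)) = 0 := by
  simp only [mul_sub, Finset.sum_sub_distrib, mul_ite, mul_one, mul_zero, Finset.sum_ite_mem,
    Finset.univ_inter]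
  rw [sum_perf hM hM' hf, sub_self]

end Lin_aux

open Lin_aux in
theorem iLin : StLin := by
  classical
  intro q x y h M M' hM hM' e₀
  have hu : (fun e => (if e ∈ M then 1 else 0) - (if e ∈ M' then 1 else 0) : Fin q → ℚ) ∈
      (B q).orthogonal (Inv x ⊔ Inv y) :=
    mem_orth (fun f hf => sum_ind hM.1 hM'.1 hf) (fun f hf => sum_ind hM.2 hM'.2 hf)
  rw [← eq_orth h e₀] at hu
  obtain ⟨η, hη, hη2⟩ := hu
  have h3 : ∀ e, η e - η (x e) = (if e ∈ M then 1 else 0) - (if e ∈ M' then 1 else 0) :=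
    fun e => congrFun hη2 e
  have h4 : ∀ e, η (x (y e)) = η e := fun e => hη e
  -- the values `η e - η e₀` are integers
  have h5 : ∀ e, ∃ n : ℤ, η e - η (x e) = n := by
    intro e
    refine ⟨(if e ∈ M then 1 else 0) - (if e ∈ M' then 1 else 0), ?_⟩
    rw [h3]
    push_cast
    rfl
  have h6 : ∀ e, ∃ n : ℤ, η e - η e₀ = n := by
    have h := h.1 (univ.filter (fun e => ∃ n : ℤ, η e - η e₀ = n)) ⟨e₀, by
      simp only [mem_filter, mem_univ, true_and]
      exact ⟨0, by simp⟩⟩ (by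
      intro e he
      simp only [mem_filter, mem_univ, true_and] at he ⊢
      obtain ⟨n, hn⟩ := he
      constructor
      · obtain ⟨k, hk⟩ := h5 e
        refine ⟨n - k, ?_⟩
        push_cast
        linarith
      · obtain ⟨k, hk⟩ := h5 (y e)
        rw [h4] at hk
        refine ⟨n + k, ?_⟩
        push_cast
        linarith)
    intro e
    have h2 := mem_univ e
    rw [← h] at h2
    simpa using h2
  choose ζ hζ using h6
  refine ⟨ζ, ?_, ?_, ?_⟩
  · have := hζ e₀
    rw [sub_self] at this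
    exact_mod_cast this.symm
  · intro e
    have h7 := hζ (x (y e))
    rw [h4, hζ e] at h7
    exact_mod_cast h7.symm
  · intro e
    have h7 := h3 e
    have h8 := hζ e
    have h9 := hζ (x e)
    have h10 : ((ζ e - ζ (x e) : ℤ) : ℚ) =
        (((if e ∈ M then 1 else 0) - (if e ∈ M' then 1 else 0) : ℤ) : ℚ) := by
      push_cast
      linarith
    exact_mod_cast h10

end Pool.Agent.Work.MP_499dc6_lc.SG
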