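import Pool.Agent.Work.MP_499dc6_lc.SG.Stmts

/-!
MP_499dc6_lc, block SG, item Mf (monomial facts).
-/

set_option autoImplicit false

open Finset

noncomputable section

namespace Pool.Agent.Work.MP_499dc6_lc.SG

namespace Mf_aux

theorem permMon_apply {m : ℕ} (σ : Equiv.Perm (Fin m)) (i j : Fin m) :
    permMon σ (i, j) = if σ i = j then 1 else 0 := by
  classical
  unfold permMon
  rw [Finsupp.finsetSum_apply]
  have h : ∀ k : Fin m, (Finsupp.single (k, σ k) 1 : Mon m) (i, j) =
      if k = i then (if σ i = j then 1 else 0) else 0 := by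
    intro k
    rw [Finsupp.single_apply]
    by_cases hk : k = i
    · subst hk
      simp [Prod.ext_iff]
    · simp [Prod.ext_iff, hk]
  simp only [h]
  simp

theorem le_apply {m : ℕ} {σ : Equiv.Perm (Fin m)} {v : Mon m} (h : v ≤ permMon σ) (i j : Fin m) :
    v (i, j) ≤ if σ i = j then 1 else 0 := by
  rw [← permMon_apply]
  exact h (i, j)

theorem rs_eq {m : ℕ} {σ : Equiv.Perm (Fin m)} {v : Mon m} (h : v ≤ permMon σ) (i : Fin m) :
    rs v i = v (i, σ i) := by
  unfold rs
  rw [Finset.sum_eq_single (σ i)]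
  · intro j _ hj
    have := le_apply h i j
    rw [if_neg (fun h' => hj h'.symm)] at this
    omega
  · intro h'
    exact absurd (Finset.mem_univ _) h'

theorem cs_eq {m : ℕ} {σ : Equiv.Perm (Fin m)} {v : Mon m} (h : v ≤ permMon σ) (i : Fin m) :
    cs v (σ i) = v (i, σ i) := by
  unfold cs
  rw [Finset.sum_eq_single i]
  · intro j _ hj
    have := le_apply h j (σ i)
    rw [if_neg (fun h' => hj (σ.injective h'))] at this
    omega
  · intro h'
    exact absurd (Finset.mem_univ _) h'

theorem apply_eq {m : ℕ} {σ : Equiv.Perm (Fin m)} {v : Mon m} (h : v ≤ permMon σ) (i j : Fin m) :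
    v (i, j) = if σ i = j then rs v i else 0 := by
  by_cases hj : σ i = j
  · subst hj
    simp [rs_eq h]
  · have := le_apply h i j
    rw [if_neg hj] at this
    rw [if_neg hj]
    omega

theorem rs_le {m : ℕ} {σ : Equiv.Perm (Fin m)} {v : Mon m} (h : v ≤ permMon σ) (i : Fin m) :
    rs v i ≤ 1 := by
  rw [rs_eq h]
  have := le_apply h i (σ i)
  simpa using this

theorem cs_rs {m : ℕ} {σ : Equiv.Perm (Fin m)} {v : Mon m} (h : v ≤ permMon σ) (i : Fin m) :
    cs v (σ i) = rs v i := by
  rw [rs_eq h, cs_eq h]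

theorem cs_le {m : ℕ} {σ : Equiv.Perm (Fin m)} {v : Mon m} (h : v ≤ permMon σ) (j : Fin m) :
    cs v j ≤ 1 := by
  have := cs_rs h (σ.symm j)
  rw [Equiv.apply_symm_apply] at this
  rw [this]
  exact rs_le h _

theorem ext_rs {m : ℕ} {σ : Equiv.Perm (Fin m)} {v v' : Mon m} (h : v ≤ permMon σ)
    (h' : v' ≤ permMon σ) (e : rs v' = rs v) : v' = v := by
  ext ⟨i, j⟩
  rw [apply_eq h, apply_eq h', e]

theorem card_rs {m : ℕ} {σ : Equiv.Perm (Fin m)} {v : Mon m} (h : v ≤ permMon σ) :
    (univ.filter (fun i => rs v i = 1)).card = dg v := by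
  unfold dg
  rw [Finset.card_filter]
  refine Finset.sum_congr rfl (fun i _ => ?_)
  have := rs_le h i
  split_ifs with h1 <;> omega

theorem card_cs {m : ℕ} {σ : Equiv.Perm (Fin m)} {v : Mon m} (h : v ≤ permMon σ) :
    (univ.filter (fun j => cs v j = 1)).card = dg v := by
  rw [← card_rs h, Finset.card_filter, Finset.card_filter]
  rw [← Equiv.sum_comp σ]
  refine Finset.sum_congr rfl (fun i _ => ?_)
  rw [cs_rs h]

theorem rs_add {m : ℕ} (v v' : Mon m) (i : Fin m) : rs (v + v') i = rs v i + rs v' i := by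
  unfold rs
  simp [Finset.sum_add_distrib]

theorem cs_add {m : ℕ} (v v' : Mon m) (j : Fin m) : cs (v + v') j = cs v j + cs v' j := by
  unfold cs
  simp [Finset.sum_add_distrib]

theorem dg_add {m : ℕ} (v v' : Mon m) : dg (v + v') = dg v + dg v' := by
  unfold dg
  simp only [rs_add]
  rw [Finset.sum_add_distrib]

theorem dg_zero {m : ℕ} (v : Mon m) : dg v = 0 ↔ v = 0 := by
  constructor
  · intro h
    ext ⟨i, j⟩
    unfold dg rs at h
    rw [Finset.sum_eq_zero_iff] at h
    have h1 := h i (Finset.mem_univ _)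
    rw [Finset.sum_eq_zero_iff] at h1
    exact h1 j (Finset.mem_univ _)
  · intro h
    subst h
    unfold dg rs
    simp

theorem dg_single {m : ℕ} (c : Fin m × Fin m) : dg (Finsupp.single c 1 : Mon m) = 1 := by
  obtain ⟨a, b⟩ := c
  unfold dg rs
  rw [Finset.sum_eq_single a]
  · rw [Finset.sum_eq_single b]
    · simp
    · intro j _ hj
      rw [Finsupp.single_apply, if_neg]
      intro h
      exact hj (congrArg Prod.snd h).symm
    · intro h
      exact absurd (Finset.mem_univ _) h
  · intro i _ hi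
    refine Finset.sum_eq_zero (fun j _ => ?_)
    rw [Finsupp.single_apply, if_neg]
    intro h
    exact hi (congrArg Prod.fst h).symm
  · intro h
    exact absurd (Finset.mem_univ _) h

theorem permMon_inj {m : ℕ} (σ τ : Equiv.Perm (Fin m)) (h : permMon σ = permMon τ) : σ = τ := by
  ext i
  have h1 : permMon σ (i, σ i) = permMon τ (i, σ i) := by rw [h]
  rw [permMon_apply, permMon_apply] at h1
  by_cases h2 : τ i = σ i
  · rw [h2]
  · simp [h2] at h1

end Mf_aux

open Mf_aux in
theorem iMf : StMf := by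
  intro m
  refine ⟨fun σ v h => ⟨apply_eq h, rs_le h, cs_le h, cs_rs h, fun v' h' e => ext_rs h h' e,
    card_rs h, card_cs h⟩, fun v v' => ⟨rs_add v v', cs_add v v', dg_add v v', dg_zero v⟩,
    dg_single, permMon_inj, fun σ => ?_⟩
  have h1 : ∀ i, rs (permMon σ) i = 1 := by
    intro i
    rw [rs_eq (le_refl (permMon σ)), permMon_apply]
    simp
  refine ⟨h1, ?_, ?_⟩
  · intro j
    have := cs_rs (le_refl (permMon σ)) (σ.symm j)
    rw [Equiv.apply_symm_apply, h1] at this
    exact this
  · unfold dg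
    simp [h1]

end Pool.Agent.Work.MP_499dc6_lc.SG
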