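import Pool.Agent.Work.MP_499dc6_lc.SG.Stmts

/-!
MP_499dc6_lc, block SG, item Mono: the numbers `Am i f` increase with `i`.
-/

set_option autoImplicit false

open Finset

noncomputable section

namespace Pool.Agent.Work.MP_499dc6_lc.SG

namespace Mono_aux

variable {β : Type} [Fintype β] [DecidableEq β]

lemma mem_fixs {D : Finset β} {τ : Equiv.Perm β} : τ ∈ fixs D ↔ ∀ x ∈ D, τ x = x := by
  simp [fixs]

lemma fixs_card_pos (D : Finset β) : 0 < ((fixs D).card : ℝ) := by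
  have h : 0 < (fixs D).card := Finset.card_pos.mpr ⟨1, by simp [mem_fixs]⟩
  exact_mod_cast h

lemma mul_mem_fixs {D : Finset β} {τ ρ : Equiv.Perm β} (h1 : τ ∈ fixs D) (h2 : ρ ∈ fixs D) :
    τ * ρ ∈ fixs D := by
  rw [mem_fixs] at *
  intro x hx
  rw [Equiv.Perm.mul_apply, h2 x hx, h1 x hx]

lemma inv_mem_fixs {D : Finset β} {τ : Equiv.Perm β} (h1 : τ ∈ fixs D) : τ⁻¹ ∈ fixs D := by
  rw [mem_fixs] at *
  intro x hx
  rw [Equiv.Perm.inv_eq_iff_eq]
  exact (h1 x hx).symm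

lemma sum_fixs_mul (D : Finset β) (F : Equiv.Perm β → ℝ) (ρ : Equiv.Perm β) (hρ : ρ ∈ fixs D) :
    ∑ τ ∈ fixs D, F (τ * ρ) = ∑ τ ∈ fixs D, F τ := by
  refine Finset.sum_nbij' (fun τ => τ * ρ) (fun τ => τ * ρ⁻¹) ?_ ?_ ?_ ?_ ?_
  · intro τ hτ
    exact mul_mem_fixs hτ hρ
  · intro τ hτ
    exact mul_mem_fixs hτ (inv_mem_fixs hρ)
  · intro τ _
    simp
  · intro τ _
    simp
  · intro τ _
    rfl

lemma cE_eq (D E : Finset β) (hDE : D ⊆ E) (f : Equiv.Perm β → ℝ) (θ : Equiv.Perm β) :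
    cE D f θ = avg (fixs D) (fun τ => cE E f (θ * τ)) := by
  have hE := fixs_card_pos E
  have hD := fixs_card_pos D
  unfold cE avg
  rw [← Finset.sum_div, Finset.sum_comm]
  have h : ∀ ρ ∈ fixs E, ∑ τ ∈ fixs D, f (θ * τ * ρ) = ∑ τ ∈ fixs D, f (θ * τ) := by
    intro ρ hρ
    have hρ' : ρ ∈ fixs D := by
      rw [mem_fixs] at *
      exact fun x hx => hρ x (hDE hx)
    have := sum_fixs_mul D (fun τ => f (θ * τ)) ρ hρ'
    simpa [mul_assoc] using this
  rw [Finset.sum_congr rfl h, Finset.sum_const, nsmul_eq_mul]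
  field_simp

lemma avg_univ_mul (F : Equiv.Perm β → ℝ) (τ : Equiv.Perm β) :
    ∑ θ : Equiv.Perm β, F (θ * τ) = ∑ θ : Equiv.Perm β, F θ :=
  Fintype.sum_equiv (Equiv.mulRight τ) _ _ (fun _ => rfl)

lemma mono_pair (D E : Finset β) (hDE : D ⊆ E) (f : Equiv.Perm β → ℝ) :
    avg univ (fun θ => (cE D f θ) ^ 2) ≤ avg univ (fun θ => (cE E f θ) ^ 2) := by
  have hD := fixs_card_pos D
  have h1 : ∀ θ : Equiv.Perm β,
      (cE D f θ) ^ 2 ≤ (∑ τ ∈ fixs D, (cE E f (θ * τ)) ^ 2) / ((fixs D).card : ℝ) := by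
    intro θ
    rw [cE_eq D E hDE f θ]
    unfold avg
    rw [div_pow, div_le_div_iff₀ (by positivity) hD]
    have h2 := sq_sum_le_card_mul_sum_sq (s := fixs D) (f := fun τ => cE E f (θ * τ))
    calc (∑ τ ∈ fixs D, cE E f (θ * τ)) ^ 2 * ((fixs D).card : ℝ)
        ≤ (((fixs D).card : ℝ) * ∑ τ ∈ fixs D, (cE E f (θ * τ)) ^ 2) * ((fixs D).card : ℝ) :=
          mul_le_mul_of_nonneg_right h2 hD.le
      _ = (∑ τ ∈ fixs D, (cE E f (θ * τ)) ^ 2) * ((fixs D).card : ℝ) ^ 2 := by ring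
  unfold avg
  refine div_le_div_of_nonneg_right ?_ (by positivity)
  calc ∑ θ : Equiv.Perm β, (cE D f θ) ^ 2
      ≤ ∑ θ : Equiv.Perm β, (∑ τ ∈ fixs D, (cE E f (θ * τ)) ^ 2) / ((fixs D).card : ℝ) :=
        Finset.sum_le_sum (fun θ _ => h1 θ)
    _ = ∑ θ : Equiv.Perm β, (cE E f θ) ^ 2 := by
        rw [← Finset.sum_div, Finset.sum_comm]
        have h3 : ∀ τ ∈ fixs D, ∑ θ : Equiv.Perm β, (cE E f (θ * τ)) ^ 2 =
            ∑ θ : Equiv.Perm β, (cE E f θ) ^ 2 := fun τ _ =>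
          avg_univ_mul (fun θ => (cE E f θ) ^ 2) τ
        rw [Finset.sum_congr rfl h3, Finset.sum_const, nsmul_eq_mul]
        field_simp

lemma double_count (i : ℕ) (F : Finset β → ℝ) :
    ∑ D ∈ powersetCard i (univ : Finset β), ∑ x ∈ Dᶜ, F (insert x D) =
      ∑ E ∈ powersetCard (i + 1) (univ : Finset β), ∑ _x ∈ E, F E := by
  rw [Finset.sum_sigma', Finset.sum_sigma']
  refine Finset.sum_nbij' (fun p => ⟨insert p.2 p.1, p.2⟩) (fun p => ⟨p.1.erase p.2, p.2⟩)
    ?_ ?_ ?_ ?_ ?_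
  · rintro ⟨D, x⟩ h
    simp only [Finset.mem_sigma, Finset.mem_powersetCard, Finset.mem_compl] at h ⊢
    refine ⟨⟨Finset.subset_univ _, ?_⟩, Finset.mem_insert_self _ _⟩
    rw [Finset.card_insert_of_notMem h.2, h.1.2]
  · rintro ⟨E, x⟩ h
    simp only [Finset.mem_sigma, Finset.mem_powersetCard, Finset.mem_compl] at h ⊢
    refine ⟨⟨Finset.subset_univ _, ?_⟩, Finset.notMem_erase _ _⟩
    rw [Finset.card_erase_of_mem h.2, h.1.2]
    rfl
  · rintro ⟨D, x⟩ h
    simp only [Finset.mem_sigma, Finset.mem_powersetCard, Finset.mem_compl] at h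
    simp [Finset.erase_insert h.2]
  · rintro ⟨E, x⟩ h
    simp only [Finset.mem_sigma, Finset.mem_powersetCard] at h
    simp [Finset.insert_erase h.2]
  · rintro ⟨D, x⟩ _
    rfl

end Mono_aux

open Mono_aux

theorem iMono : StMono := by
  intro β _ _ f i hi
  set n := Fintype.card β with hn
  set N : Finset β → ℝ := fun D => avg univ (fun θ => (cE D f θ) ^ 2) with hN
  have h1 : ((n : ℝ) - i) * ∑ D ∈ powersetCard i (univ : Finset β), N D ≤
      ((i : ℝ) + 1) * ∑ E ∈ powersetCard (i + 1) (univ : Finset β), N E := by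
    have e1 : ((n : ℝ) - i) * ∑ D ∈ powersetCard i (univ : Finset β), N D =
        ∑ D ∈ powersetCard i (univ : Finset β), ∑ _x ∈ Dᶜ, N D := by
      rw [Finset.mul_sum]
      refine Finset.sum_congr rfl (fun D hD => ?_)
      rw [Finset.mem_powersetCard] at hD
      rw [Finset.sum_const, nsmul_eq_mul, Finset.card_compl, hD.2,
        Nat.cast_sub (by omega)]
    have e2 : ((i : ℝ) + 1) * ∑ E ∈ powersetCard (i + 1) (univ : Finset β), N E =
        ∑ E ∈ powersetCard (i + 1) (univ : Finset β), ∑ _x ∈ E, N E := by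
      rw [Finset.mul_sum]
      refine Finset.sum_congr rfl (fun E hE => ?_)
      rw [Finset.mem_powersetCard] at hE
      rw [Finset.sum_const, nsmul_eq_mul, hE.2]
      push_cast
      rfl
    rw [e1, e2, ← double_count i N]
    refine Finset.sum_le_sum (fun D _ => Finset.sum_le_sum (fun x _ => ?_))
    exact mono_pair D (insert x D) (Finset.subset_insert _ _) f
  have hc : (n.choose (i + 1) : ℝ) * ((i : ℝ) + 1) = (n.choose i : ℝ) * ((n : ℝ) - i) := by
    have := Nat.choose_succ_right_eq n i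
    have h2 : ((n.choose (i + 1) * (i + 1) : ℕ) : ℝ) = ((n.choose i * (n - i) : ℕ) : ℝ) := by
      rw [this]
    push_cast [Nat.cast_sub (show i ≤ n by omega)] at h2
    exact h2
  have p1 : (0 : ℝ) < (n.choose i : ℝ) := by
    exact_mod_cast Nat.choose_pos (by omega)
  have p2 : (0 : ℝ) < (n.choose (i + 1) : ℝ) := by
    exact_mod_cast Nat.choose_pos (by omega)
  have p3 : (0 : ℝ) < (n : ℝ) - i := by
    have : (i : ℝ) + 1 ≤ n := by exact_mod_cast hi
    linarith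
  have p4 : (0 : ℝ) < (i : ℝ) + 1 := by positivity
  have hA : ∀ j, Am j f =
      (∑ D ∈ powersetCard j (univ : Finset β), N D) / (n.choose j : ℝ) := by
    intro j
    have hcd : (powersetCard j (univ : Finset β)).card = n.choose j := by
      rw [Finset.card_powersetCard, Finset.card_univ]
    have h0 : Am j f = (∑ D ∈ powersetCard j (univ : Finset β), N D) /
      ((powersetCard j (univ : Finset β)).card : ℝ) := rfl
    rw [h0, hcd]
  rw [hA, hA, div_le_div_iff₀ p1 p2]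
  set S := ∑ D ∈ powersetCard i (univ : Finset β), N D
  set S' := ∑ E ∈ powersetCard (i + 1) (univ : Finset β), N E
  have h3 : (S * (n.choose (i + 1) : ℝ)) * ((i : ℝ) + 1) ≤
      (S' * (n.choose i : ℝ)) * ((i : ℝ) + 1) := by
    calc (S * (n.choose (i + 1) : ℝ)) * ((i : ℝ) + 1)
        = (n.choose i : ℝ) * (((n : ℝ) - i) * S) := by
          rw [mul_assoc, hc]; ring
      _ ≤ (n.choose i : ℝ) * (((i : ℝ) + 1) * S') := mul_le_mul_of_nonneg_left h1 p1.le
      _ = (S' * (n.choose i : ℝ)) * ((i : ℝ) + 1) := by ring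
  exact le_of_mul_le_mul_right h3 p4

end Pool.Agent.Work.MP_499dc6_lc.SG
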