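import Pool.Agent.Work.MP_499dc6_lc.SG.Stmts

/-!
Item Mst of block SG (MP_499dc6_lc): along a two step chain of exponent vectors every nonzero type
which occurs in the first vector occurs in the last one.
-/

set_option autoImplicit false

open Finset

noncomputable section

namespace Pool.Agent.Work.MP_499dc6_lc.SG

namespace Mst_aux

lemma core {q : ℕ} (γ δ : Fin q →₀ ℕ) (h : dst γ δ ≤ 2) (i : Fin q) (hi : γ i ≠ 0)
    (hd : δ i = 0) :
    (∀ f : Fin q → ℕ, ∑ k, γ k * f k = ∑ k, δ k * f k → f i = 0) ∨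
    ∃ k, δ k ≠ 0 ∧ ∀ f : Fin q → ℕ, ∑ k, γ k * f k = ∑ k, δ k * f k → f k = f i := by
  classical
  set d : Fin q → ℕ := fun k => (γ k - δ k) + (δ k - γ k) with hdd
  have h1 : ∑ k, d k ≤ 2 := h
  rw [← Finset.add_sum_erase _ _ (Finset.mem_univ i)] at h1
  have hdi : d i = γ i := by simp [hdd, hd]
  have eq_of : ∀ k, d k = 0 → γ k = δ k := by
    intro k hk
    simp only [hdd] at hk
    omega
  by_cases h0 : ∑ k ∈ univ.erase i, d k = 0
  · left
    intro f hf
    have h2 := Finset.sum_eq_zero_iff.1 h0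
    rw [← add_sum_erase _ _ (mem_univ i),
      ← add_sum_erase _ (fun k => δ k * f k) (mem_univ i)] at hf
    have h3 : ∑ k ∈ univ.erase i, γ k * f k = ∑ k ∈ univ.erase i, δ k * f k :=
      sum_congr rfl fun k hk => by rw [eq_of k (h2 k hk)]
    rw [h3, hd] at hf
    have h4 : γ i * f i = 0 := by omega
    exact (Nat.mul_eq_zero.1 h4).resolve_left hi
  · obtain ⟨k, hk, hk0⟩ := Finset.exists_ne_zero_of_sum_ne_zero h0
    have h2 : d k + ∑ l ∈ (univ.erase i).erase k, d l = ∑ l ∈ univ.erase i, d l :=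
      add_sum_erase _ _ hk
    have h3 : γ i = 1 ∧ d k = 1 ∧ ∑ l ∈ (univ.erase i).erase k, d l = 0 := by omega
    have h4 := Finset.sum_eq_zero_iff.1 h3.2.2
    have split : ∀ f : Fin q → ℕ, (∑ l, γ l * f l = ∑ l, δ l * f l) →
        f i + γ k * f k = δ k * f k := by
      intro f hf
      rw [← add_sum_erase univ (fun l => γ l * f l) (mem_univ i),
        ← add_sum_erase (univ.erase i) (fun l => γ l * f l) hk,
        ← add_sum_erase univ (fun l => δ l * f l) (mem_univ i),
        ← add_sum_erase (univ.erase i) (fun l => δ l * f l) hk] at hf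
      have h5 : ∑ l ∈ (univ.erase i).erase k, γ l * f l
          = ∑ l ∈ (univ.erase i).erase k, δ l * f l :=
        sum_congr rfl fun l hl => by rw [eq_of l (h4 l hl)]
      rw [h5, hd, h3.1] at hf
      omega
    have hk1 : d k = 1 := h3.2.1
    simp only [hdd] at hk1
    rcases Nat.lt_or_ge (γ k) (δ k) with hlt | hge
    · right
      have e : δ k = γ k + 1 := by omega
      refine ⟨k, by omega, fun f hf => ?_⟩
      have := split f hf
      rw [e, add_mul, one_mul] at this
      omega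
    · left
      have e : γ k = δ k + 1 := by omega
      intro f hf
      have := split f hf
      rw [e, add_mul, one_mul] at this
      omega

variable {m : ℕ}

lemma rs_sum {q : ℕ} (γ : Fin q →₀ ℕ) (ρ : Fin q → Mon m) (j : Fin m) :
    rs (∑ i, ∑ l ∈ range (γ i), ρ i) j = ∑ i, γ i * rs (ρ i) j := by
  unfold rs
  simp only [Finset.sum_const, card_range, Finsupp.finset_sum_apply, Finsupp.smul_apply,
    smul_eq_mul, Finset.mul_sum]
  rw [Finset.sum_comm]

lemma cs_sum {q : ℕ} (γ : Fin q →₀ ℕ) (ρ : Fin q → Mon m) (j : Fin m) :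
    cs (∑ i, ∑ l ∈ range (γ i), ρ i) j = ∑ i, γ i * cs (ρ i) j := by
  unfold cs
  simp only [Finset.sum_const, card_range, Finsupp.finset_sum_apply, Finsupp.smul_apply,
    smul_eq_mul, Finset.mul_sum]
  rw [Finset.sum_comm]

lemma eq_zero_of_rs {v : Mon m} (h : ∀ j, rs v j = 0) : v = 0 := by
  ext ⟨i, j⟩
  have h1 := h i
  unfold rs at h1
  exact Finset.sum_eq_zero_iff.1 h1 j (mem_univ j)

end Mst_aux

open Mst_aux in
theorem iMst (hT : StTy) : StMst := by
  intro m G T t q a J hP hU hJ hG α hα β hβ ρ hρ i hi hρi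
  have hty := (hT m G T t hP hU).1
  -- combinations of the representatives
  have hmem : ∀ γ ∈ J, γ.support ⊆ α.support ∪ β.support →
      (∑ i, ∑ l ∈ range (γ i), ρ i) ∈ G t := by
    intro γ hγ hs
    rw [hG]
    refine ⟨γ, hγ, fun k _ => ρ k, fun k l hl => ?_, rfl⟩
    apply hρ
    have h1 : k ∈ γ.support := by
      rw [Finsupp.mem_support_iff]
      omega
    have h2 := hs h1
    rw [mem_union, Finsupp.mem_support_iff, Finsupp.mem_support_iff] at h2
    exact h2
  have hne : ∃ j, rs (ρ i) j ≠ 0 := by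
    by_contra hcon
    push Not at hcon
    exact hρi (eq_zero_of_rs hcon)
  have key : ∀ δ, Relation.ReflTransGen
      (fun γ δ => dst γ δ ≤ 2 ∧ δ ∈ J ∧ δ.support ⊆ α.support ∪ β.support) α δ →
      δ ∈ J ∧ δ.support ⊆ α.support ∪ β.support ∧
        ∃ i', δ i' ≠ 0 ∧ rs (ρ i') = rs (ρ i) ∧ cs (ρ i') = cs (ρ i) := by
    intro δ h
    induction h with
    | refl => exact ⟨hα, subset_union_left, i, hi, rfl, rfl⟩
    | @tail γ δ _ hstep ih =>
      obtain ⟨hγJ, hγs, i', hi', e1, e2⟩ := ih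
      obtain ⟨hd, hδJ, hδs⟩ := hstep
      refine ⟨hδJ, hδs, ?_⟩
      by_cases hδi : δ i' = 0
      · obtain ⟨r1, r2, -⟩ := hty _ (hmem γ hγJ hγs) _ (hmem δ hδJ hδs)
        have er : ∀ j, ∑ k, γ k * rs (ρ k) j = ∑ k, δ k * rs (ρ k) j := fun j => by
          rw [← rs_sum, ← rs_sum, r1]
        have ec : ∀ j, ∑ k, γ k * cs (ρ k) j = ∑ k, δ k * cs (ρ k) j := fun j => by
          rw [← cs_sum, ← cs_sum, r2]
        rcases core γ δ hd i' hi' hδi with h | ⟨k, hk, h⟩
        · exfalso
          obtain ⟨j, hj⟩ := hne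
          have := h (fun k => rs (ρ k) j) (er j)
          rw [e1] at this
          exact hj this
        · refine ⟨k, hk, ?_, ?_⟩
          · rw [← e1]
            funext j
            exact h (fun k => rs (ρ k) j) (er j)
          · rw [← e2]
            funext j
            exact h (fun k => cs (ρ k) j) (ec j)
      · exact ⟨i', hδi, e1, e2⟩
  exact (key β (hJ α hα β hβ)).2.2

end Pool.Agent.Work.MP_499dc6_lc.SG
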