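import Pool.Agent.Work.MP_499dc6_lc.SG.Stmts

/-!
MP_499dc6_lc, block SG, item Nc: the count at one node.
-/

set_option autoImplicit false

open Finset

namespace Pool.Agent.Work.MP_499dc6_lc.SG

namespace Nc_aux

theorem X_pos (m : ℕ) : 0 < (m.factorial : ℝ) * Real.exp (4 - (m : ℝ) / 24) := by
  have := Nat.factorial_pos m
  positivity

/-- the middle part -/
theorem mid (hC : StCnt) (hTy : StTy) (hF : StMf) (m : ℕ) (G : ℕ → Set (Mon m)) (T t : ℕ)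
    (hP : PermSet (G T)) (A : Finset (Equiv.Perm (Fin m))) (hA : ∀ σ ∈ A, MidAt G T t σ) :
    (A.card : ℝ) ≤ 1 / 2 * (m.factorial : ℝ) * Real.exp (4 - (m : ℝ) / 24) := by
  classical
  rcases A.eq_empty_or_nonempty with rfl | ⟨σ₀, hσ₀⟩
  · have := X_pos m
    simp only [Finset.card_empty, Nat.cast_zero]
    linarith
  obtain ⟨hU, v₀, hv₀, hle₀, h1, h2⟩ := hA σ₀ hσ₀
  obtain ⟨-, -, -, -, -, hR, hCc⟩ := (hF m).1 σ₀ v₀ hle₀
  refine hC m (univ.filter (fun i => rs v₀ i = 1)) (univ.filter (fun j => cs v₀ j = 1))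
    (by rw [hR, hCc]) (by rw [hR]; exact h1) (by rw [hR]; omega) A ?_
  intro σ hσ x hx
  obtain ⟨-, v, hv, hle, -, -⟩ := hA σ hσ
  obtain ⟨-, -, -, hcr, -, -, -⟩ := (hF m).1 σ v hle
  obtain ⟨hrs, hcs, -⟩ := (hTy m G T t hP hU).1 v hv v₀ hv₀
  rw [Finset.mem_filter] at hx ⊢
  refine ⟨Finset.mem_univ _, ?_⟩
  rw [← hcs, hcr x, hrs]
  exact hx.2

/-- the jump gates -/
theorem jmp (hC : StCnt) (hJ : StJst) (m : ℕ) (G : ℕ → Set (Mon m)) (T t q : ℕ) (a : Fin q → ℕ)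
    (J : Set (Fin q →₀ ℕ)) (hm : 1 ≤ m) (hP : PermSet (G T)) (h2 : TwoStep J)
    (hG : ∀ v, v ∈ G t ↔ ∃ α ∈ J, IsComb (fun i => G (a i)) α v)
    (A : Finset (Equiv.Perm (Fin m))) (hA : ∀ σ ∈ A, JStop G T t q a J σ) :
    (A.card : ℝ) ≤ 1 / 2 * (m.factorial : ℝ) * Real.exp (4 - (m : ℝ) / 24) := by
  classical
  rcases A.eq_empty_or_nonempty with rfl | ⟨σ₀, hσ₀⟩
  · have := X_pos m
    simp only [Finset.card_empty, Nat.cast_zero]
    linarith
  obtain ⟨R, C, hc, h1, h3, h⟩ := hJ m G T t q a J hm hP h2 hG ⟨σ₀, hA σ₀ hσ₀⟩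
  exact hC m R C hc h1 h3 A (fun σ hσ => h σ (hA σ hσ))

/-- one colour -/
theorem one (hT : StT) (m : ℕ) (hm : 96 ≤ m) (B : Finset (Equiv.Perm (Fin m)))
    (hB : ∀ σ ∈ B, ∀ τ ∈ B, ¬ ((σ⁻¹ * τ).IsCycle ∧ m < 3 * (σ⁻¹ * τ).support.card)) :
    (B.card : ℝ) ≤ (m.factorial : ℝ) * Real.exp (4 - (m : ℝ) / 24) := by
  have h := hT m (m / 3 + 1) (by omega) (by omega) B (by
    intro σ hσ τ hτ h
    exact hB σ hσ τ hτ ⟨h.1, by have := h.2.2; omega⟩)
  refine h.trans ?_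
  apply mul_le_mul_of_nonneg_left _ (by positivity)
  apply Real.exp_le_exp.2
  have h3 : ((m / 3 + 1 : ℕ) : ℝ) ≤ (m : ℝ) / 3 + 1 := by
    push_cast
    have : ((m / 3 : ℕ) : ℝ) ≤ (m : ℝ) / 3 := by
      have := @Nat.cast_div_le ℝ _ _ _ m 3
      simpa using this
    linarith
  linarith

/-- colour gates -/
theorem col (hT : StT) (hCs : StCst) (m : ℕ) (hm : 96 ≤ m) (G : ℕ → Set (Mon m)) (T t q : ℕ)
    (a : Fin q → ℕ) (A' : Set (Finset (Fin q))) (κ : Finset (Fin q) → ℕ) (c : ℕ)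
    (hP : PermSet (G T)) (hk : ∀ M ∈ A', κ M < c)
    (hE : ∀ M ∈ A', ∀ M' ∈ A', Elem A' M M' → κ M ≠ κ M')
    (hG : ∀ v, v ∈ G t ↔ ∃ M ∈ A', IsCombS (fun i => G (a i)) M v)
    (A : Finset (Equiv.Perm (Fin m))) (hA : ∀ σ ∈ A, ∃ M, CStop G T t q a A' σ M) :
    (A.card : ℝ) ≤ (c : ℝ) * ((m.factorial : ℝ) * Real.exp (4 - (m : ℝ) / 24)) := by
  classical
  set B : ℕ → Finset (Equiv.Perm (Fin m)) := fun c' =>
    A.filter (fun σ => ∃ M, CStop G T t q a A' σ M ∧ κ M = c') with hB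
  have hsub : A ⊆ (Finset.range c).biUnion B := by
    intro σ hσ
    obtain ⟨M, hM⟩ := hA σ hσ
    obtain ⟨-, v, -, -, -, hMA, -⟩ := id hM
    rw [Finset.mem_biUnion]
    refine ⟨κ M, Finset.mem_range.2 (hk M hMA), ?_⟩
    rw [hB, Finset.mem_filter]
    exact ⟨hσ, M, hM, rfl⟩
  have h1 : (A.card : ℝ) ≤ ∑ c' ∈ Finset.range c, ((B c').card : ℝ) := by
    exact_mod_cast (Finset.card_le_card hsub).trans Finset.card_biUnion_le
  have h2 : ∀ c' ∈ Finset.range c, ((B c').card : ℝ) ≤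
      (m.factorial : ℝ) * Real.exp (4 - (m : ℝ) / 24) := by
    intro c' _
    refine one hT m hm (B c') ?_
    intro σ hσ τ hτ
    rw [hB, Finset.mem_filter] at hσ hτ
    obtain ⟨-, M, hM, hκ⟩ := hσ
    obtain ⟨-, M', hM', hκ'⟩ := hτ
    exact hCs m G T t q a A' κ hP hE hG σ τ M M' hM hM' (by rw [hκ, hκ'])
  calc (A.card : ℝ) ≤ ∑ c' ∈ Finset.range c, ((B c').card : ℝ) := h1
    _ ≤ ∑ _c' ∈ Finset.range c, (m.factorial : ℝ) * Real.exp (4 - (m : ℝ) / 24) :=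
        Finset.sum_le_sum h2
    _ = _ := by rw [Finset.sum_const, Finset.card_range, nsmul_eq_mul]

end Nc_aux

open Nc_aux in
theorem iNc (hT : StT) (hC : StCnt) (hJ : StJst) (hCs : StCst) (hTy : StTy) (hF : StMf) :
    StNc := by
  classical
  intro m G T t d hm hP hd A hA
  set X : ℝ := (m.factorial : ℝ) * Real.exp (4 - (m : ℝ) / 24) with hX
  have hX0 : 0 < X := X_pos m
  have hhalf : 1 / 2 * (m.factorial : ℝ) * Real.exp (4 - (m : ℝ) / 24) = X / 2 := by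
    rw [hX]; ring
  set A₁ := A.filter (fun σ => MidAt G T t σ) with hA₁
  set A₂ := A.filter (fun σ => ¬ MidAt G T t σ) with hA₂
  have hcard : (A.card : ℝ) = A₁.card + A₂.card := by
    exact_mod_cast (Finset.card_filter_add_card_filter_not (s := A) (fun σ => MidAt G T t σ)).symm
  have h1 : (A₁.card : ℝ) ≤ X / 2 := by
    have := mid hC hTy hF m G T t hP A₁ (fun σ hσ => (Finset.mem_filter.1 hσ).2)
    rwa [hhalf] at this
  have hst : ∀ σ ∈ A₂, StopAt G T t σ d := by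
    intro σ hσ
    rw [hA₂, Finset.mem_filter] at hσ
    exact (hA σ hσ.1).resolve_left hσ.2
  cases d with
  | inp =>
    have h2 : A₂ = ∅ := by
      rw [Finset.eq_empty_iff_forall_notMem]
      exact fun σ hσ => hst σ hσ
    rw [hcard, h2]
    simp only [Finset.card_empty, Nat.cast_zero, Nd.cost, Nat.cast_one]
    linarith
  | jmp q a J =>
    obtain ⟨-, h2, h3⟩ := hd
    have h4 := jmp hC hJ m G T t q a J (by omega) hP h2 h3 A₂ hst
    rw [hhalf] at h4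
    rw [hcard]
    simp only [Nd.cost, Nat.cast_one]
    linarith
  | col q a A' κ c =>
    obtain ⟨-, ⟨h2, h3⟩, h4⟩ := hd
    have h5 := col hT hCs m hm G T t q a A' κ c hP h2 h3 h4 A₂ hst
    rw [hcard]
    simp only [Nd.cost]
    push_cast
    linarith

end Pool.Agent.Work.MP_499dc6_lc.SG
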