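import Pool.Agent.Work.MP_499dc6_lc.SG.Defs

/-!
MP_499dc6_lc (VP versus VNP), block SG (strong gates): the statements of the items, with proofs in
the docstrings.  Overview: note 4134 (with two simplifications: a matching gate costs only its
number of edges, and only a proper colouring of the elementary pairs is needed).

All of part 1 is about one function `g : Equiv.Perm β → ℝ`, `k = |β|`; averages are `avg`.
-/

set_option autoImplicit false

open Finset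

noncomputable section

namespace Pool.Agent.Work.MP_499dc6_lc.SG

/-! ## Part 1: Theorem T -/

/-- ITEM Ee (`ee` versus `dd`).  In `ℝ[X]`: `1 + X P = (1 + X Q)(1 + X J/k)` where `P = PM h`, `Q = QM h = P - J/k`, because `Q J = P J - J J / k = J - J = 0` (all entries; `P J = J`: each row of `P` has exactly one `1`).
`det (1 + X J/k) = 1 + X` (rank one: `Matrix.det_one_add_replicateCol_mul_replicateRow` or similar).  So `det(1 + X P) = (1 + X) det(1 + X Q)`; compare coefficients with `Matrix.coeff_det_one_add_X_smul_eq_sum_minors` (its right side is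
literally `em j M`).  `em 0 = 1`.  `dd j h = 0` for `j > k` (no subsets), and for `j = k`: `det Q = 0` since `Q` kills the all-ones vector (the only subset is `univ`; or take the coefficient `k + 1` of the identity: `ee (k+1) = 0 = dd (k+1) + dd k`). -/
def StEe : Prop := ∀ (β : Type) [Fintype β] [DecidableEq β] (h : Equiv.Perm β), 1 ≤ Fintype.card β →
  ee 0 h = 1 ∧ dd 0 h = 1 ∧ (∀ j, ee (j + 1) h = dd (j + 1) h + dd j h) ∧
    ∀ j, Fintype.card β ≤ j → dd j h = 0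

/-- ITEM Dual (duality; uses StEe).  `k = |β|`.  First `ee (k-j) h = sgR h * ee j h` for `j ≤ k`: `det(1 + X P) = det P * det(P⁻¹ + X) = sgn(h) det(Pᵀ + X) = sgn(h) det(P + X)` (transpose), and the coefficient of `X^j` in `det(X + P) = charpoly(-P)` is `em (k-j) P`
(`Matrix.charpoly_coeff_eq_sum_minors` for `-P`); `det P = sgn h` (`Matrix.det_permutation` or `Matrix.det_permMatrix`).  Alternative: `∑_T sg`, complementary sets.
Then induction on `j`: `dd j = ee j - dd (j-1) = sgn (ee (k-j) - dd (k-j)) = sgn dd (k-1-j)`, start `dd 0 = 1 = ee 0 = sgn ee k = sgn (dd k + dd (k-1)) = sgn dd (k-1)`. -/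
def StDual : Prop := ∀ (β : Type) [Fintype β] [DecidableEq β] (h : Equiv.Perm β) (j : ℕ),
  j + 1 ≤ Fintype.card β → dd (Fintype.card β - 1 - j) h = sgR h * dd j h

/-- ITEM Alt (alternating sum; uses StEe).  `∑_{j ≤ k} (-1)^j em j Q = det (1 - Q)` (evaluate the polynomial `det(1 + X Q)` at `-1`; coefficients `Matrix.coeff_det_one_add_X_smul_eq_sum_minors`, degree `≤ k`), and `dd k = 0`.  If `h` is not full (and `2 ≤ k`) there is a set
`S ≠ ∅, univ` with `h x ∈ S ↔ x ∈ S` (an orbit; if the orbit of a point is everything then `h` is a full cycle).  The vector `v = 1_S - |S|/k` is not zero, has sum `0` and `(Q v)_y = v_{h⁻¹ y} = v_y`, so `(1 - Q) v = 0` and `det (1 - Q) = 0` (`Matrix.exists_mulVec_eq_zero_iff`). -/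
def StAlt : Prop := ∀ (β : Type) [Fintype β] [DecidableEq β] (h : Equiv.Perm β),
  2 ≤ Fintype.card β → ¬ IsFull h → ∑ j ∈ range (Fintype.card β), (-1 : ℝ) ^ j * dd j h = 0

/-- ITEM Gram (positivity, Cauchy-Binet).  It suffices for one principal minor `S`: `K_S(σ,τ) = det((F σ)ᵀ (F τ))[S,S] = det(A ᵀ B)` with the `β × S` matrices `A = F σ` and `B = F τ` restricted to the columns in `S`.
Expand by multilinearity in the rows: `det(Aᵀ B) = ∑_{s : S → β} (∏_{a ∈ S} A (s a) a) det(B (s a) b)_{a,b}` (as in `Matrix.det_mul_aux` / `Matrix.det_mul`; or `MultilinearMap.map_sum`).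
For `π ∈ Perm S` replace `s` by `s ∘ π`: `det(B(s(π a)) b) = sgn(π) det(B (s a) b)`; average over `π`: `det(Aᵀ B) = (1/|S|!) ∑_s det(A (s a) b) det(B (s a) b)`.  So `∑_{σ,τ} g σ g τ K_S(σ,τ) = (1/|S|!) ∑_s (∑_σ g σ det(F σ (s a) b))² ≥ 0`. -/
def StGram : Prop := ∀ (β : Type) [Fintype β] [DecidableEq β] (F : Equiv.Perm β → Matrix β β ℝ)
  (g : Equiv.Perm β → ℝ) (j : ℕ),
  0 ≤ ∑ σ, ∑ τ, g σ * g τ * em j ((F σ).transpose * F τ)

/-- ITEM Dpos (uses StGram).  `QM (σ⁻¹ * τ) = (QM σ)ᵀ * QM τ`: with `P = PM`, `P_σᵀ P_τ = P_{σ⁻¹τ}`, `P J = J P = J`, `J J = k J`: `(P_σᵀ - J/k)(P_τ - J/k) = P_{σ⁻¹τ} - 2J/k + J/k`. -/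
def StDpos : Prop := ∀ (β : Type) [Fintype β] [DecidableEq β] (g : Equiv.Perm β → ℝ) (j : ℕ),
  1 ≤ Fintype.card β → 0 ≤ Dj j g

/-- ITEM Alg (algebra of the quadratic forms; uses StEe, StDual, StAlt).  `quad` is linear in `c`.  (i) `dd 0 = 1`.  (ii) StEe.  (iii) StDual, `sgR (σ⁻¹ τ) = sgR σ sgR τ`.
(iv) the sum is `quad (fun h => ∑_j (-1)^j dd j h) g`, and each term `g σ g τ ∑_j (-1)^j dd j (σ⁻¹τ)` vanishes. -/
def StAlg : Prop := ∀ (β : Type) [Fintype β] [DecidableEq β] (g : Equiv.Perm β → ℝ),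
  2 ≤ Fintype.card β →
  Dj 0 g = (avg univ g) ^ 2 ∧ (∀ j, Psi (j + 1) g = Dj (j + 1) g + Dj j g) ∧
  (∀ j, j + 1 ≤ Fintype.card β → Dj (Fintype.card β - 1 - j) g = Dj j (fun σ => g σ * sgR σ)) ∧
  ((∀ σ τ, IsFull (σ⁻¹ * τ) → g σ * g τ = 0) →
    ∑ j ∈ range (Fintype.card β), (-1 : ℝ) ^ j * Dj j g = 0)

/-- ITEM Half (uses StDpos, StAlg).  `k` odd.  `0 = ∑_{j<k} (-1)^j D_j`, so `D_0 ≤ ∑_{j odd, j < k} D_j` (the even `j ≥ 2` are `≥ 0`).  The odd `j ≤ (k-1)/2` are in the sum; for an odd `j` with `(k-1)/2 < j < k` the number `j' = k-1-j` is odd, `j' < (k-1)/2` and `D_j(g) = D_{j'}(g sgn)`. -/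
def StHalf : Prop := ∀ (β : Type) [Fintype β] [DecidableEq β] (g : Equiv.Perm β → ℝ),
  3 ≤ Fintype.card β → Odd (Fintype.card β) → (∀ σ τ, IsFull (σ⁻¹ * τ) → g σ * g τ = 0) →
  (avg univ g) ^ 2 ≤ ∑ j ∈ (Icc 1 ((Fintype.card β - 1) / 2)).filter Odd,
    (Dj j g + Dj j (fun σ => g σ * sgR σ))

/-- ITEM Ka (`j = 1`).  `k = |β|`.  `dd 1 h = tr Q = fix(h) - 1`, `D_1(g) = ∑_{x,y} a_{xy}²` with `a_{xy} = E_σ g(σ)(1[σ x = y] - 1/k)` (`QM(σ⁻¹τ) = QM(σ)ᵀ QM(τ)`; trace of the product).  `∑_x a_{xy} = ∑_y a_{xy} = 0`.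
`F(σ) = ∑_x a_{x,σ(x)}`, `E g F = D_1` (as `∑_{x,y} a_{xy} a_{xy}`, the `1/k` part vanishes).  For `|D| = i` let `G_D(σ) = ∑_{x∈D} a_{x,σ(x)}`; the average of `G_D` over `D` is `(i/k) F`, `E g G_D = E cE_D(g) G_D` (`G_D` depends only on `σ|D`; `cE D` averages over `fixs D`).
`E G_D² = (1/k) ∑_{x∈D}∑_y a_{xy}² + (1/(k(k-1))) ∑_{x≠x'∈D} ∑_{y≠y'} a_{xy}a_{x'y'}`, `∑_{y≠y'} a_{xy}a_{x'y'} = -∑_y a_{xy}a_{x'y}`, so `E G_D² = (1/(k-1)) ∑_{x∈D}|a_x|² - (1/(k(k-1)))|∑_{x∈D} a_x|² ≤ (1/(k-1)) ∑_{x∈D} |a_x|²`; average over `D`: `≤ (i/k) D_1/(k-1)`.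
`(i/k) D_1 = avg_D E cE_D(g) G_D ≤ (avg_D E cE_D(g)²)^{1/2} (avg_D E G_D²)^{1/2} ≤ (A_i (i/k) D_1/(k-1))^{1/2}` (Cauchy-Schwarz; `A_i = Am i g`); square, divide by `(i/k)² D_1`. -/
def StKa : Prop := ∀ (β : Type) [Fintype β] [DecidableEq β] (g : Equiv.Perm β → ℝ) (i : ℕ),
  2 ≤ Fintype.card β → 1 ≤ i → i ≤ Fintype.card β →
  Dj 1 g ≤ (Fintype.card β : ℝ) / ((Fintype.card β : ℝ) - 1) * Am i g / i

/-- ITEM Sg (the restricted sign).  If `h` preserves `T` then `PM h` restricted to `T` is a permutation matrix (`Equiv.Perm.subtypePerm`), determinant `±1` (`Matrix.det_permutation`); if not, some `x ∈ T` has `h x ∉ T` and the column `x` is zero.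
If one of `h, h'` preserves `T` (then it preserves the complement too): `PM (h h') = PM h * PM h'` and the `T × T` block of the product is the product of the blocks. -/
def StSg : Prop := ∀ (β : Type) [Fintype β] [DecidableEq β] (T : Finset β),
  (∀ h : Equiv.Perm β, (∀ x ∈ T, h x ∈ T) → sg T h = 1 ∨ sg T h = -1) ∧
  (∀ h : Equiv.Perm β, ¬ (∀ x ∈ T, h x ∈ T) → sg T h = 0) ∧
  (∀ h h' : Equiv.Perm β, (∀ x ∈ T, h x ∈ T) → sg T (h * h') = sg T h * sg T h') ∧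
  (∀ h h' : Equiv.Perm β, (∀ x ∈ T, h' x ∈ T) → sg T (h * h') = sg T h * sg T h') ∧
  (∀ h : Equiv.Perm β, sg T h⁻¹ = sg T h) ∧
  (∀ h : Equiv.Perm β, (∀ x ∈ T, h x = x) → sg T h = 1) ∧
  (∀ a b : β, a ∈ T → b ∈ T → a ≠ b → sg T (Equiv.swap a b) = -1)

/-- ITEM Bp (the projections; uses StSg).  Let `c = |T|! (k-|T|)!`, the number of `h` preserving `T`.  (i) For `h` preserving `T`: `BT T g (σ h) = sg T h * BT T g σ` (substitute `h' → h⁻¹ h'`).
(ii) If `f (σ h) = sg T h * f σ` for all `h` preserving `T`, then `E g f = E (BT T g) f` (`E = avg univ`; substitute `σ → σ h⁻¹`).  (iii) With `f = BT T g`: `E g BT = E BT²`.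
(iv) number of `h` preserving `T` (equivalently with `sg T h ≠ 0`) is `|T|! (k - |T|)!` (e.g. `Equiv.Perm` of `T` and of the complement: `Equiv.Perm.subtypeCongr`-like, or orbit counting).
(v) for `T ⊆ D`: `E (cE D g) (BT T g) = E (BT T g)²`: `f = BT T g` satisfies `f (σ τ) = f σ` for `τ ∈ fixs D` (`sg T τ = 1`), so `E (cE D g) f = E g f`. -/
def StBp : Prop := ∀ (β : Type) [Fintype β] [DecidableEq β] (T : Finset β) (g : Equiv.Perm β → ℝ),
  (∀ σ h : Equiv.Perm β, (∀ x ∈ T, h x ∈ T) → BT T g (σ * h) = sg T h * BT T g σ) ∧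
  (avg univ (fun σ => g σ * BT T g σ) = avg univ (fun σ => (BT T g σ) ^ 2)) ∧
  (∀ D : Finset β, T ⊆ D →
    avg univ (fun σ => cE D g σ * BT T g σ) = avg univ (fun σ => (BT T g σ) ^ 2))

/-- ITEM Psi (uses StBp).  `E BT² = E g BT = (1/k!) ∑_σ g(σ) (1/(j!(k-j)!)) ∑_h sg T h g(σ h)`; average over the `C(k,j)` sets `T`, `C(k,j) j! (k-j)! = k!`, `ee j h = ∑_T sg T h` (definition), `h = σ⁻¹ τ`. -/
def StPsi : Prop := ∀ (β : Type) [Fintype β] [DecidableEq β] (g : Equiv.Perm β → ℝ) (j : ℕ),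
  j ≤ Fintype.card β →
  Psi j g = avg (powersetCard j (univ : Finset β)) (fun T => avg univ (fun σ => (BT T g σ) ^ 2))

/-- ITEM Orth (uses StSg, StBp).  Take `a ≠ b` in `T \ T'`, `s = swap a b`: `BT T g (σ s) = -BT T g σ`, `BT T' g (σ s) = BT T' g σ` (`sg T' s = 1`, `s` fixes `T'` pointwise); substitute `σ → σ s`. -/
def StOrth : Prop := ∀ (β : Type) [Fintype β] [DecidableEq β] (T T' : Finset β)
  (g : Equiv.Perm β → ℝ), 2 ≤ (T \ T').card → ∑ σ, BT T g σ * BT T' g σ = 0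

/-- ITEM Kb (`j ≥ 1`; uses StPsi, StBp, StOrth).  Fix `D`, `|D| = i`, let `n_T = E (BT T g)²`.  `∑_{T ⊆ D, |T| = j} n_T = E cE_D(g) ∑_T BT T g ≤ (E cE_D(g)²)^{1/2} (E (∑_T BT T g)²)^{1/2}`, and `E (∑_T BT T g)² = ∑_{T,T'} E BT T g BT T' g`,
where only pairs with `|T \ T'| ≤ 1` contribute, each at most `(n_T + n_{T'})/2`; for each `T ⊆ D` there are `1 + j (i-j)` such `T' ⊆ D`, `|T'| = j` (`T' = T` or `T - x + y`).  So `∑_{T ⊆ D} n_T ≤ (1 + j(i-j)) E cE_D(g)²`.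
Average over `D`: each `T` is in the same number of sets `D`: `avg_D ∑_{T⊆D} n_T = C(i,j) avg_T n_T = C(i,j) Psi j g` (double counting: `C(k,i) C(i,j) = C(k,j) C(k-j,i-j)`). -/
def StKb : Prop := ∀ (β : Type) [Fintype β] [DecidableEq β] (g : Equiv.Perm β → ℝ) (i j : ℕ),
  1 ≤ j → j ≤ i → i ≤ Fintype.card β →
  (Nat.choose i j : ℝ) * Psi j g ≤ (1 + (j : ℝ) * ((i : ℝ) - j)) * Am i g

/-- ITEM AmB (basic facts on `Am`).  (i) `Am 0 g = (E g)²` (`fixs ∅ = univ`).  (ii) for `g ≥ 0`: `|cE D (g sgn) θ| ≤ cE D g θ` pointwise.  (iii) `0 ≤ Am i g`.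
(iv) `n = |β|`, `g` with values in `{0,1}`: `Am n g = E g` (`fixs univ = {1}`) and `Am (n-1) g = E g` (`|D| = n-1`: `fixs D = {1}`). -/
def StAmB : Prop := ∀ (β : Type) [Fintype β] [DecidableEq β] (g : Equiv.Perm β → ℝ),
  Am 0 g = (avg univ g) ^ 2 ∧ ((∀ σ, 0 ≤ g σ) → ∀ i, Am i (fun σ => g σ * sgR σ) ≤ Am i g) ∧
  (∀ i, 0 ≤ Am i g) ∧
  ((∀ σ, g σ = 0 ∨ g σ = 1) → Am (Fintype.card β) g = avg univ g ∧
    Am (Fintype.card β - 1) g = avg univ g)

/-- ITEM Key (assembly; uses StHalf, StKa, StKb, StAmB, StAlg, StDpos).  `g' = g sgn`.  StHalf.  `j = 1`: StKa with `i = 16` for `g` and `g'`, `Am i g' ≤ Am i g`.  `j ≥ 3` odd: `D_j ≤ Psi_j` (StAlg (ii), `D_{j-1} ≥ 0`), StKb with `i = 32` for `j = 3` (`C(32,3) = 4960`, `1 + 3·29 = 88`),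
`i = 20` for `j = 5` (`C(20,5) = 15504`, `1 + 5·15 = 76`), `i = 2j ≤ k-1` for `j ≥ 7` (`1 + j²`); drop the condition odd for `j ≥ 7` (all terms are `≥ 0`). -/
def StKey : Prop := ∀ (β : Type) [Fintype β] [DecidableEq β] (g : Equiv.Perm β → ℝ),
  33 ≤ Fintype.card β → Odd (Fintype.card β) → (∀ σ, 0 ≤ g σ) →
  (∀ σ τ, IsFull (σ⁻¹ * τ) → g σ * g τ = 0) →
  Am 0 g ≤ Br (Fintype.card β) (fun i => Am i g)

/-- ITEM Tower.  `cE D' (restr f D θ) θ' = cE (D ∪ D') f (θ * ofSubtype θ')` for `D' : Finset {x // x ∉ D}` (`D'` mapped to `α`): `τ' ↦ ofSubtype τ'` is a bijection from `fixs D'` to `fixs (D ∪ D')`.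
Average over `θ` (for fixed `θ'`, `θ ↦ θ * ofSubtype θ'` is a bijection): `avg_θ (cE (D ∪ D') f θ)²`.  Average over `D'` and `D`: each set `E` with `r + i` elements comes from `C(r+i,r)` pairs, `C(n,r) C(n-r,i) = C(n,r+i) C(r+i,r)` (`Nat.choose_mul`-like).  -/
def StTower : Prop := ∀ (β : Type) [Fintype β] [DecidableEq β] (f : Equiv.Perm β → ℝ) (r i : ℕ),
  r + i ≤ Fintype.card β →
  avg (powersetCard r (univ : Finset β)) (fun D => avg univ (fun θ => Am i (restr f D θ))) =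
    Am (r + i) f

/-- ITEM Mono.  For `D ⊆ E`: `cE D f θ = avg_{τ ∈ fixs D} cE E f (θ τ)`, so `(cE D f θ)² ≤ avg_{τ∈fixs D} (cE E f (θτ))²` and after averaging over `θ`: `E (cE D f)² ≤ E (cE E f)²`.  Average over the pairs `D ⊂ E`, `|D| = i`, `|E| = i+1` (each `D` is in `n-i` sets `E`, each `E` contains `i+1` sets `D`, `C(n,i)(n-i) = C(n,i+1)(i+1)`).
(One can also use StTower with `i = 1` and `Am 0 ≤ Am 1`.) -/
def StMono : Prop := ∀ (β : Type) [Fintype β] [DecidableEq β] (f : Equiv.Perm β → ℝ) (i : ℕ),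
  i + 1 ≤ Fintype.card β → Am i f ≤ Am (i + 1) f

/-- ITEM Num (numerics).  `Br k (fun i => e^{(i+1)/16}) = 2 (k/(k-1) e^{17/16}/16 + 88 e^{33/16}/4960 + 76 e^{21/16}/15504 + ∑_{7 ≤ j ≤ (k-1)/2} (1+j²) e^{(2j+1)/16}/C(2j,j))`.  `k/(k-1) ≤ 33/32`; `e^{17/16} < 2.894`, `e^{33/16} < 7.867`, `e^{21/16} < 3.716`: first three terms
`< 0.1866 + 0.1396 + 0.0183`.  `t_j = (1+j²) e^{(2j+1)/16}/C(2j,j)`: `t_7 = 50 e^{15/16}/3432 < 0.0373`, `t_{j+1}/t_j = (1+(j+1)²)/(1+j²) · e^{1/8} · (j+1)/(2(2j+1)) ≤ (65/50) · 1.1332 · (8/30) < 0.4` for `j ≥ 7` (`C(2j+2,j+1) = C(2j,j) 2(2j+1)/(j+1)`, `Nat.succ_mul_centralBinom_succ`),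
so `∑_{j ≥ 7} t_j < 0.0373/0.6 < 0.0622`.  Total `< 2 · 0.4067 < 1`.  (`Real.exp_one_lt_d9`, `e^{x} = (e^{1/16})^{…}`, or `Real.exp_bound`; there is room.) -/
def StNum : Prop := ∀ k : ℕ, 33 ≤ k → Br k (fun i => Real.exp (((i : ℝ) + 1) / 16)) < 1

/-- ITEM Seq (choice of `r`; uses StNum).  Suppose `μ > e^{-(n-L)/16}`.  Among the `r ≤ n-1` with `r ≡ n-1 mod 2` choose one with `a_r e^{-r/16}` maximal; `k = n - r` is odd.  `r' ∈ {0,1}`, `r' ≡ n-1`: `μ = a_n ≥ a_r ≥ e^{(r-r')/16} a_{r'} ≥ e^{(r-r')/16} μ²`, so `r - r' < n - L`, hence `k ≥ L`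
(if `r' = 1` then `n` is even and `r < n-L+1`, i.e. `r ≤ n - L`, too).  `a_{r+i} ≤ e^{(i+1)/16} a_r` for `0 ≤ i ≤ k`: `i` even: maximality; `i` odd, `r+i+1 ≤ n-1`: `a_{r+i} ≤ a_{r+i+1} ≤ e^{(i+1)/16} a_r`; `r + i = n`: `a_n = a_{n-1}`, `n - 1 - r` is even.  Also `a_r ≥ μ² > 0`.
`Br` has nonnegative coefficients and uses only the indices `16, 32, 20, 2j ≤ k-1`, all `≤ k`: `a_r ≤ Br k (fun i => a (r+i)) ≤ a_r Br k (fun i => e^{(i+1)/16}) < a_r`, contradiction. -/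
def StSeq : Prop := ∀ (n L : ℕ) (a : ℕ → ℝ) (μ : ℝ), 33 ≤ L → L ≤ n → 0 < μ →
  (∀ i, i + 1 ≤ n → a i ≤ a (i + 1)) → a 0 = μ ^ 2 → a n = μ → a (n - 1) = μ →
  (∀ r k, r + k = n → Odd k → L ≤ k → a r ≤ Br k (fun i => a (r + i))) →
  μ ≤ Real.exp (-((n : ℝ) - L) / 16)

/-- ITEM T (THEOREM T; uses StKey, StTower, StMono, StAmB, StSeq).  `f` = indicator of `A`, `μ = |A|/n!` (if `A = ∅` trivial), `a i = Am i f`.  For `r + k = n`, `k` odd, `k ≥ L`: for each `D`, `|D| = r`, and `θ`, the function `g = restr f D θ` on `Perm {x // x ∉ D}` (`k` points) satisfies the hypothesis of StKey: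
if `σ⁻¹τ` is full then `ofSubtype (σ⁻¹τ) = (θ ofSubtype σ)⁻¹ (θ ofSubtype τ)` is a cycle with support of size `k`, so `f` cannot be `1` at both.  StKey for each `g`; average over `D, θ` (StTower with `i = 0`, `16`, `32`, `20`, `2j`; `Br` is linear) to get `a r ≤ Br k (fun i => a (r+i))`. -/
def StT : Prop := ∀ (n L : ℕ), 33 ≤ L → L ≤ n → ∀ A : Finset (Equiv.Perm (Fin n)),
  (∀ σ ∈ A, ∀ τ ∈ A, ¬ ((σ⁻¹ * τ).IsCycle ∧ Odd (σ⁻¹ * τ).support.card ∧
    L ≤ (σ⁻¹ * τ).support.card)) →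
  (A.card : ℝ) ≤ (n.factorial : ℝ) * Real.exp (-((n : ℝ) - L) / 16)

/-! ## Part 2: plane maps -/

/-- ITEM Lin (heights).  Over `ℚ`: `H = {η : η ∘ (x y) = η}`, `dim H = cyc (x y)`; `d η = η - η ∘ x`, its kernel on `H` consists of the functions invariant under `x` and `x y`, hence under `y`, i.e. the constants (connectivity), so `dim d(H) = cyc(xy) - 1`.
`K = {u : sums over all cycles of x and of y are 0}` is the orthogonal complement of `Inv x + Inv y` (invariant functions), `dim (Inv x + Inv y) = cyc x + cyc y - 1` (`Inv x ∩ Inv y` = constants), so `dim K = q - cyc x - cyc y + 1 = cyc(xy) - 1` by Euler.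
`d(H) ⊆ K`: sums over the cycles of `x` are clear; `η (x e) = η (y⁻¹ e)` because `η ∘ (x y) = η`, so the sums over the cycles of `y` vanish too.  Hence `d(H) = K`, and `1_M - 1_{M'} ∈ K` for perfect matchings.  So there is `η : Fin q → ℚ`; subtract the value at `e₀`.
Integrality: the set of `e` with `η e ∈ ℤ` contains `e₀` and is closed under `x` (`η e - η (x e) ∈ ℤ`) and under `y⁻¹` (`η (y⁻¹ e) = η (x e)`), hence (finite orders) under `y`, so it is everything.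
(Dimensions: the functions invariant under `π` are the functions on `Quotient (SameCycle.setoid π)`.) -/
def StLin : Prop := ∀ (q : ℕ) (x y : Equiv.Perm (Fin q)), IsPlaneMap x y → ∀ M M' : Finset (Fin q),
  IsPerfect x y M → IsPerfect x y M' → ∀ e₀ : Fin q,
  ∃ η : Fin q → ℤ, η e₀ = 0 ∧ (∀ e, η (x (y e)) = η e) ∧
    ∀ e, η e - η (x e) = (if e ∈ M then 1 else 0) - (if e ∈ M' then 1 else 0)

/-- ITEM Plane (colouring; uses StLin).  `q ≥ 1` (`q = 0`: `cyc = 0`, Euler fails).  Fix `e₀` and a perfect matching `M₀` (if there is none, trivial); `η_M` = the function of StLin for `(M, M₀)`; it is unique (difference invariant under `x` and `x y`, so under `y`, so constant).  `κ M = (∑_e η_M(e)) mod q`.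
Let `M ≠ M'` be perfect, `η = η_M - η_{M'}`; `η(e₀) = 0`, `η ∘ (xy) = η`, `η - η ∘ x = 1_M - 1_{M'}`; `η` is not constant.  For `c ∈ ℤ` let `χ = 1[η ≥ c]`, `u = χ - χ ∘ x`; `χ ∘ (xy) = χ`.  Claim: `1_{M'} + u` and `1_M - u` are the indicators of perfect matchings `N, N'`.  Sums over the cycles of `x`, `y` are `1`
(`χ(x e) = χ(y⁻¹ e)`), so it is enough that the values are `≥ 0`: if `1_{M'}(e) + χ(e) - χ(x e) < 0` then `χ(e) = 0, χ(xe) = 1`, so `η(e) < c ≤ η(x e)`, `1_M(e) - 1_{M'}(e) < 0`, `M'(e) = 1`, contradiction; similarly `1_M - u`.  `1_N + 1_{N'} = 1_M + 1_{M'}`, i.e. same union and intersection.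
If `(M, M')` is elementary then `N = M` or `N = M'`.  Take `c = max η`; `χ` is not constant, so `u ≠ 0` (else `χ` is invariant under `x`, `xy`), `N ≠ M'`, hence `N = M`: `χ - η` is invariant under `x` and `x y`, so constant: `η` takes exactly two values, consecutive, one of them is `η(e₀) = 0`.
So `∑_e η(e)` is in `[1, q-1]` or in `[-(q-1), -1]`, not `≡ 0 mod q`. -/
def StPlane : Prop := ∀ (q : ℕ) (x y : Equiv.Perm (Fin q)), IsPlaneMap x y →
  Colourable {M | IsPerfect x y M} q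

/-! ## Part 3: circuits of monomial sets -/

/-- ITEM Jump.  From `α ≠ β` in `J` there is `α' ∈ J` with `dst α α' ≤ 2`, `dst α' β < dst α β` and `α'` between `α` and `β` coordinatewise (take a step `γ`; if `γ ∉ J` the second step).  In particular `support α' ⊆ support α ∪ support β`; every later point is between `α'` and `β`, so its support is in
`support α' ∪ support β ⊆ support α ∪ support β`.  Strong induction on `dst α β`; the chain for `(α', β)` has all supports in `support α' ∪ support β`. -/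
def StJump : Prop := ∀ (q : ℕ) (J : Set (Fin q →₀ ℕ)), JumpSystem J → TwoStep J

/-- ITEM Mf (monomial facts).  (i) `v ≤ permMon σ`: `v (i, j) ≤ 1` and `0` unless `j = σ i`, so `v (i,j) = if σ i = j then rs v i else 0`, `rs v i ≤ 1`, `cs v (σ i) = rs v i`.  (ii) two such with the same row sums are equal.
(iii) if `v ≤ permMon σ`, `v' ≤ permMon τ` have the same row sums and column sums, then `σ` and `τ` both map `{i | rs v i = 1}` into `{j | cs v j = 1}`; stated as `rs v i = cs v (σ i)`.  (iv) `rs, cs, dg` are additive; `dg v = 0 ↔ v = 0`; `dg (single c 1) = 1`. (v) `permMon` is injective, `rs (permMon σ) i = 1`, `cs (permMon σ) j = 1`. -/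
def StMf : Prop := ∀ (m : ℕ),
  (∀ (σ : Equiv.Perm (Fin m)) (v : Mon m), v ≤ permMon σ →
    (∀ i j, v (i, j) = if σ i = j then rs v i else 0) ∧ (∀ i, rs v i ≤ 1) ∧ (∀ j, cs v j ≤ 1) ∧
    (∀ i, cs v (σ i) = rs v i) ∧ (∀ v', v' ≤ permMon σ → rs v' = rs v → v' = v) ∧
    (univ.filter (fun i => rs v i = 1)).card = dg v ∧
    (univ.filter (fun j => cs v j = 1)).card = dg v) ∧
  (∀ v v' : Mon m, (∀ i, rs (v + v') i = rs v i + rs v' i) ∧ (∀ j, cs (v + v') j = cs v j + cs v' j) ∧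
    dg (v + v') = dg v + dg v' ∧ (dg v = 0 ↔ v = 0)) ∧
  (∀ c : Fin m × Fin m, dg (Finsupp.single c 1 : Mon m) = 1) ∧
  (∀ σ τ : Equiv.Perm (Fin m), permMon σ = permMon τ → σ = τ) ∧
  (∀ (σ : Equiv.Perm (Fin m)), (∀ i, rs (permMon σ) i = 1) ∧ (∀ j, cs (permMon σ) j = 1) ∧
    dg (permMon σ) = m)

/-- ITEM Ty (types; uses StMf).  Useful: `u + v = permMon σ` for each `v ∈ G t` with one fixed `u`; so `rs v i = 1 - rs u i`, `cs v j = 1 - cs u j`, the same for all `v ∈ G t`; and `v ≤ permMon σ`. -/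
def StTy : Prop := ∀ (m : ℕ) (G : ℕ → Set (Mon m)) (T t : ℕ), PermSet (G T) → Useful G T t →
  (∀ v ∈ G t, ∀ v' ∈ G t, rs v = rs v' ∧ cs v = cs v' ∧ dg v = dg v') ∧
  (∀ v ∈ G t, (∀ i, rs v i ≤ 1) ∧ (∀ j, cs v j ≤ 1) ∧ ∃ σ : Equiv.Perm (Fin m), v ≤ permMon σ)

/-- ITEM Chj (children of jump gates; uses StMf, StTy).  Context of `t`: `u`.  For `i` with `α i > 0` the context of `a i` is `u` + all pieces except `w i 0`: replacing `w i 0` by any `v' ∈ G (a i)` gives an element of `G t`.  If `α i ≥ 2`: replace the pieces `w i 0` and `w i 1` both by `v = w i l`: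
the sum is in `G t` and has row sums `≤ 1`, so `2 rs v ≤ 1`, `rs v = 0`, `v = 0`. -/
def StChj : Prop := ∀ (m : ℕ) (G : ℕ → Set (Mon m)) (T t q : ℕ) (a : Fin q → ℕ)
  (J : Set (Fin q →₀ ℕ)), PermSet (G T) → Useful G T t →
  (∀ v, v ∈ G t ↔ ∃ α ∈ J, IsComb (fun i => G (a i)) α v) →
  ∀ α ∈ J, ∀ w : Fin q → ℕ → Mon m, (∀ i, ∀ l < α i, w i l ∈ G (a i)) →
  ∀ i, 0 < α i → Useful G T (a i) ∧ (2 ≤ α i → ∀ l < α i, w i l = 0)

/-- ITEM Chs (children of set gates).  As Chj: the context of `a i` is `u` plus the other pieces. -/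
def StChs : Prop := ∀ (m : ℕ) (G : ℕ → Set (Mon m)) (T t q : ℕ) (a : Fin q → ℕ)
  (A : Set (Finset (Fin q))), Useful G T t →
  (∀ v, v ∈ G t ↔ ∃ M ∈ A, IsCombS (fun i => G (a i)) M v) →
  ∀ M ∈ A, ∀ w : Fin q → Mon m, (∀ i ∈ M, w i ∈ G (a i)) → ∀ i ∈ M, Useful G T (a i)

/-- ITEM Desc (descent; uses StMf, StTy, StChj, StChs).  Claim for all `t ≤ T` by strong induction: if `t` is useful, `v ∈ G t`, `v ≤ permMon σ`, `2m ≤ 3 dg v`, then the conclusion holds with some `t' ≤ t`.  `inp`: `dg v ≤ 1`, `2m ≤ 3` contradicts `2 ≤ m`.  `jmp`: `v` has pieces `w i l`, all `≤ v ≤ permMon σ`.  If all have `3 dg < m`: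
StopAt.  Else one with `m ≤ 3 dg`: if `3 dg < 2m`, MidAt at `a i` (useful by StChj); else induction at `a i < t`.  `col`: choose `M ∈ A` with `IsCombS … M v` and `∑_{i∈M} 2^i` minimal, then the same.  Start: `t = T`, `v = permMon σ` (useful with `u = 0`), `dg = m`. -/
def StDesc : Prop := ∀ (m : ℕ) (G : ℕ → Set (Mon m)) (T : ℕ) (nd : ℕ → Nd m), 2 ≤ m →
  PermSet (G T) → (∀ t ≤ T, NodeOK G t (nd t)) → ∀ σ : Equiv.Perm (Fin m), permMon σ ∈ G T →
  ∃ t ≤ T, MidAt G T t σ ∨ StopAt G T t σ (nd t)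

/-- ITEM Cnt (counting).  The permutations with `σ(R) ⊆ C`, `|C| = |R| = r`, number `r! (m-r)!` (bijections `R → C` and between the complements).  `C(m,r) ≥ 2^{m/3}` for `m/3 ≤ r ≤ 2m/3` (by symmetry `r ≤ m/2`, `C(m,r) ≥ (m/r)^r ≥ 2^r`, `Nat.pow_le_choose`-like; real exponent `m/3`), and
`2^{m/3} = e^{0.231 m} ≥ 2 e^{m/24 - 4}` for all `m ≥ 0`.  So `r!(m-r)! = m!/C(m,r) ≤ (1/2) m! e^{4 - m/24}`. -/
def StCnt : Prop := ∀ (m : ℕ) (R C : Finset (Fin m)), C.card = R.card → m ≤ 3 * R.card →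
  3 * R.card ≤ 2 * m → ∀ A : Finset (Equiv.Perm (Fin m)), (∀ σ ∈ A, ∀ x ∈ R, σ x ∈ C) →
  (A.card : ℝ) ≤ 1 / 2 * (m.factorial : ℝ) * Real.exp (4 - (m : ℝ) / 24)

/-- ITEM Mst (multiset of types; uses StTy, StChj, StMf).  `ρ i ∈ G (a i)` are fixed representatives for `i ∈ W`, `W` = union of the supports of `α` and `β`; `γ, δ ∈ J` with supports in `W` and `dst γ δ ≤ 2`.  For every type `θ ≠ 0` (pair row sums, column sums) let `n_θ(γ) = ∑_{i ∈ W, type(ρ i) = θ} γ i`.  Claim `n_θ(γ) = n_θ(δ)`.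
The sums `∑_i γ_i ρ_i` and `∑_i δ_i ρ_i` are in `G t` (all pieces of `i` equal to `ρ i`), so they have the same type with entries `≤ 1`: `∑_θ n_θ(γ) θ = ∑_θ n_θ(δ) θ`, in particular `n_θ ≤ 1` for `θ ≠ 0`.  If `n_θ(γ) ≠ n_θ(δ)` for some `θ ≠ 0`, then since the sums agree and `θ ≠ 0` some `θ' ≠ θ`, `θ' ≠ 0`, also differs
(row sums and column sums have the same total, so `θ ≠ 0` means row sums `≠ 0`), and as `∑_θ |n_θ(γ) - n_θ(δ)| ≤ dst γ δ ≤ 2` exactly these two differ, by `±1` each: `±θ ± θ' = 0`, so `θ + θ' = 0` (impossible) or `θ = θ'` (impossible).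
This item: the statement for the whole chain, i.e. for `α` and `β` themselves (TwoStep, induction along the chain). -/
def StMst : Prop := ∀ (m : ℕ) (G : ℕ → Set (Mon m)) (T t q : ℕ) (a : Fin q → ℕ)
  (J : Set (Fin q →₀ ℕ)), PermSet (G T) → Useful G T t → TwoStep J →
  (∀ v, v ∈ G t ↔ ∃ α ∈ J, IsComb (fun i => G (a i)) α v) →
  ∀ α ∈ J, ∀ β ∈ J, ∀ ρ : Fin q → Mon m, (∀ i, (α i ≠ 0 ∨ β i ≠ 0) → ρ i ∈ G (a i)) →
  ∀ i, α i ≠ 0 → ρ i ≠ 0 → ∃ i', β i' ≠ 0 ∧ rs (ρ i') = rs (ρ i) ∧ cs (ρ i') = cs (ρ i)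

/-- ITEM Jst (jump gates; uses StMst, StTy, StChj, StMf).  Take one `σ₀` which stops at `t`, with `α₀`, `w₀`.  `I₀ = {i : α₀ i ≠ 0, w₀ i 0 ≠ 0}`; for `i ∈ I₀`, `α₀ i = 1` (StChj), the pieces `w₀ i 0`, `i ∈ I₀`, have sum `v₀` with `2m ≤ 3 dg v₀`, row sums `≤ 1` (so disjoint rows), each `3 dg < m`.
Greedy: some `S ⊆ I₀` has `m ≤ 3 ∑_{i∈S} dg (w₀ i 0) ≤ 2m` (minimal `S` with `m ≤ 3 ∑`).  `R` = rows of `∑_{S} w₀ i 0`, `C` = columns; `|R| = |C| = ∑_S dg`.  Let `σ` stop at `t` with `α`, `w`.  For `i ∈ S` apply StMst to `(α₀, α)` with `ρ i = w₀ i 0` for `α₀ i ≠ 0`, `ρ i = w i 0` otherwise: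
there is `i'` with `α i' ≠ 0` and `type(ρ i') = type(w₀ i 0)`; all elements of `G (a i')` have the same type (StTy, useful by StChj), so `w i' 0 ≤ permMon σ` has the type of `w₀ i 0`, and `σ` maps the rows of this type to its columns (StMf). -/
def StJst : Prop := ∀ (m : ℕ) (G : ℕ → Set (Mon m)) (T t q : ℕ) (a : Fin q → ℕ)
  (J : Set (Fin q →₀ ℕ)), 1 ≤ m → PermSet (G T) → TwoStep J →
  (∀ v, v ∈ G t ↔ ∃ α ∈ J, IsComb (fun i => G (a i)) α v) →
  (∃ σ₀, JStop G T t q a J σ₀) →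
  ∃ R C : Finset (Fin m), C.card = R.card ∧ m ≤ 3 * R.card ∧ 3 * R.card ≤ 2 * m ∧
    ∀ σ, JStop G T t q a J σ → ∀ x ∈ R, σ x ∈ C

/-- ITEM Two (two permutations; uses StMf).  `z = σ⁻¹ τ` a cycle.  `v, v'` the restrictions of `permMon σ`, `permMon τ` to a set of rows (`rs v = rs v'`), same column sums; `ν + ν' = v + v'`, `rs ν = rs v`, `cs ν = cs v`.  Then `ν = v` or `ν = v'`.
Proof: `ν (i, j) ≤ (v + v') (i,j)`, so for a row `i` with `rs v i = 1`, `ν` has its one in the column `σ i` or `τ i`.  If some row `i` with `σ i ≠ τ i` has its one in column `τ i = σ (z i)`, then `rs v (z i) = cs v (σ (z i)) = cs v (τ i) = cs v' (τ i) = rs v' i = 1`, and by the column sum of the column `τ i` the row `z i` has its one not in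
column `σ (z i)`, hence in column `τ (z i)`, `z i` is again in the support of `z`.  So the set of rows of the support of `z` where `ν` follows `τ` is closed under `z`: it is empty (`ν = v`) or contains the whole support (`ν = v'`), as `z` is a cycle. -/
def StTwo : Prop := ∀ (m : ℕ) (σ τ : Equiv.Perm (Fin m)) (v v' ν ν' : Mon m),
  (σ⁻¹ * τ).IsCycle → v ≤ permMon σ → v' ≤ permMon τ → rs v' = rs v → cs v' = cs v →
  ν + ν' = v + v' → rs ν = rs v → cs ν = cs v → (∀ i, rs v i ≤ 1) → ν = v ∨ ν = v'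

/-- ITEM Cst (colour gates; uses StTy, StChs, StMf, StTwo).  Suppose `z = σ⁻¹τ` is a cycle with `m < 3 |supp z|`.  `v = ∑_{i∈M} w i` and `v' = ∑_{i∈M'} w' i` are in `G t`, same type, `R = {rs v = 1}`, `|R| = dg v ≥ 2m/3`.  All `a i`, `i ∈ M ∪ M'`, are useful, so for `i ∈ M ∩ M'` the pieces `w i`, `w' i` have the same type, `σ` and `τ` map its rows `R_i` onto the same set,
`z` preserves `R_i`, `3|R_i| < m < 3|supp z|`, so (a cycle preserving a set contains it or avoids it) `supp z ∩ R_i = ∅`, `σ = τ` on `R_i`, `w i = w' i`.  (1) `M = M'`: then `w = w'` on `M`, `v = v'`; but `z` preserves `R`, `|supp z| > m/3 ≥ |complement of R|`, so `supp z ⊆ R`, and `v = v'` says `σ = τ` on `R`, contradiction.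
(2) `M ≠ M'`, `κ M = κ M'`: not elementary, so there are `N, N' ∈ A` with `N ∪ N' = M ∪ M'`, `N ∩ N' = M ∩ M'`, `N ≠ M`, `N ≠ M'`.  `ν = ∑_{i∈N} (w i if i ∈ M, else w' i)`, `ν' = ∑_{i∈N'} (w' i if i ∈ M', else w i)`; both in `G t` (type of `t`), `ν + ν' = v + v'` (`i ∈ M ∩ M'`: `w i = w' i`).  StTwo: `ν = v` or `ν = v'`.
If `ν = v` then `ν' = v'`: `N` represents `v`, `N'` represents `v'`, so by minimality `W(M) ≤ W(N)`, `W(M') ≤ W(N')`, `W(X) = ∑_{i∈X} 2^i`, and `W(N)+W(N') = W(M)+W(M')` (same union and intersection); so `W(N) = W(M)`, hence `N = M` (binary expansions), contradiction.  If `ν = v'` then `ν' = v`, `N` represents `v'`: `W(M') ≤ W(N)`, `W(M) ≤ W(N')`, so `N = M'`, contradiction. -/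
def StCst : Prop := ∀ (m : ℕ) (G : ℕ → Set (Mon m)) (T t q : ℕ) (a : Fin q → ℕ)
  (A : Set (Finset (Fin q))) (κ : Finset (Fin q) → ℕ), PermSet (G T) →
  (∀ M ∈ A, ∀ M' ∈ A, Elem A M M' → κ M ≠ κ M') →
  (∀ v, v ∈ G t ↔ ∃ M ∈ A, IsCombS (fun i => G (a i)) M v) →
  ∀ (σ τ : Equiv.Perm (Fin m)) (M M' : Finset (Fin q)), CStop G T t q a A σ M →
  CStop G T t q a A τ M' → κ M = κ M' →
  ¬ ((σ⁻¹ * τ).IsCycle ∧ m < 3 * (σ⁻¹ * τ).support.card)

/-- ITEM Nc (count at one node; uses StT, StCnt, StJst, StCst, StTy, StMf).  `X = m! e^{4-m/24}`.  MidAt: all `v ∈ G t` have the same type, `R` = rows, `C` = columns: StCnt, `≤ X/2`.  `jmp`: StJst and StCnt, `≤ X/2` more.  `col`: for each colour `c' < c` the set of `σ ∈ A` with some `M`, CStop, `κ M = c'` has no two elements with `σ⁻¹τ` a cycle,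
`3 |supp| > m` (StCst), so StT with `n = m`, `L = m/3 + 1 ≥ 33`: `≤ m! e^{-(m-L)/16} ≤ X` (`(m-L)/16 ≥ (2m/3-1)/16`).  Total `≤ X/2 + c X ≤ (c+1) X`. -/
def StNc : Prop := ∀ (m : ℕ) (G : ℕ → Set (Mon m)) (T t : ℕ) (d : Nd m), 96 ≤ m →
  PermSet (G T) → NodeOK G t d → ∀ A : Finset (Equiv.Perm (Fin m)),
  (∀ σ ∈ A, MidAt G T t σ ∨ StopAt G T t σ d) →
  (A.card : ℝ) ≤ (d.cost : ℝ) * ((m.factorial : ℝ) * Real.exp (4 - (m : ℝ) / 24))

/-- ITEM Cm (circuits of sets; uses StDesc, StNc).  Union bound over `t ≤ T`. -/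
def StCm : Prop := ∀ (m : ℕ) (G : ℕ → Set (Mon m)) (T : ℕ) (nd : ℕ → Nd m), 96 ≤ m →
  PermSet (G T) → (∀ t ≤ T, NodeOK G t (nd t)) → ∀ A : Finset (Equiv.Perm (Fin m)),
  (∀ σ ∈ A, permMon σ ∈ G T) →
  (A.card : ℝ) ≤ (∑ t ∈ range (T + 1), ((nd t).cost : ℝ)) *
    ((m.factorial : ℝ) * Real.exp (4 - (m : ℝ) / 24))

/-- ITEM Sup (support of a composition).  `bind₁ g p = ∑_{α ∈ supp p} coeff α · ∏_i g_i^{α_i}`; for polynomials with nonnegative coefficients: the coefficients of sums and products are `≥ 0`, `supp (f + g) = supp f ∪ supp g`, `supp (f g) = supp f + supp g` (all pairs), `supp (c f) = supp f` for `c > 0`; powers and finite products by induction. -/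
def StSup : Prop := ∀ (m q : ℕ) (p : MvPolynomial (Fin q) ℝ)
  (g : Fin q → MvPolynomial (Fin m × Fin m) ℝ), NN p → (∀ i, NN (g i)) →
  NN (MvPolynomial.bind₁ g p) ∧ ∀ v : Mon m, v ∈ (MvPolynomial.bind₁ g p).support ↔
    ∃ α ∈ p.support, IsComb (fun i => {v | v ∈ (g i).support}) α v

/-- ITEM Nodes (from circuits of polynomials to circuits of sets; uses StSup, StJump, StPlane).  `G t = supp (f t)`.  Strong induction: `NN (f t)` for all `t < s`.  `var`, `const`: `inp`.  `jump`: `jmp` with `J = supp p` (StJump).  `matching`: `col` with `A = {M | IsPerfect x y M}`, `κ` from StPlane, `c = q`;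
`IsComb G (ind M) v ↔ IsCombS G M v` (`ind M i = if i ∈ M then 1 else 0`).  The cost of the node is the cost of the gate. -/
def StNodes : Prop := ∀ (m s : ℕ) (f : ℕ → MvPolynomial (Fin m × Fin m) ℝ) (c : ℕ → ℕ),
  (∀ t < s, Gate f t (c t)) →
  ∃ nd : ℕ → Nd m, ∀ t < s, NodeOK (fun t => {v | v ∈ (f t).support}) t (nd t) ∧
    (nd t).cost = c t

/-- ITEM Main (assembly; uses StCm, StNodes, StMf).  `m < 96`: the support has at most `m!` elements (`permMon` injective), `N ≥ 1` (`t < s`, costs `≥ 1`), `e^{m/24-4} ≤ 1`.  `m ≥ 96`: StCm with `T = t`, `A` = the permutations with `permMon σ ∈ supp (f t)`; `∑_{t' ≤ t} cost ≤ N`. -/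
def StMain : Prop := ∀ (m s N : ℕ) (f : ℕ → MvPolynomial (Fin m × Fin m) ℝ), IsCircuit f s N →
  ∀ t < s, (∀ α ∈ (f t).support, ∃ σ : Equiv.Perm (Fin m), α = permMon σ) →
  Real.exp ((m : ℝ) / 24 - 4) * ((f t).support.card : ℝ) ≤ (m.factorial : ℝ) * N

end Pool.Agent.Work.MP_499dc6_lc.SG
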