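/-
MP_499dc6_lc, block SG, item Nodes: from circuits of polynomials to circuits of monomial sets.
Author: helper9.
-/
import Pool.Agent.Work.MP_499dc6_lc.SG.Stmts

set_option autoImplicit false

open Finset

namespace Pool.Agent.Work.MP_499dc6_lc.SG

namespace Nodes_aux

theorem ind_apply {q : ℕ} (M : Finset (Fin q)) (i : Fin q) :
    ind M i = if i ∈ M then 1 else 0 := by
  unfold ind
  rw [Finsupp.finsetSum_apply]
  simp [Finsupp.single_apply]

theorem dg_single {m : ℕ} (c : Fin m × Fin m) : dg (Finsupp.single c 1 : Mon m) = 1 := by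
  unfold dg rs
  rw [← Finset.sum_product' (s := univ) (t := univ)
    (f := fun i j => (Finsupp.single c 1 : Mon m) (i, j))]
  simp [Finsupp.single_apply]

theorem dg_zero {m : ℕ} : dg (0 : Mon m) = 0 := by
  unfold dg rs
  simp

theorem comb_ind {m q : ℕ} (G : Fin q → Set (Mon m)) (M : Finset (Fin q)) (v : Mon m) :
    IsComb G (ind M) v ↔ IsCombS G M v := by
  have key : ∀ w : Fin q → ℕ → Mon m,
      ∑ i, ∑ l ∈ range (ind M i), w i l = ∑ i ∈ M, w i 0 := by
    intro w
    rw [← Finset.sum_filter_add_sum_filter_not univ (fun i => i ∈ M)]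
    have h2 : ∑ i ∈ univ.filter (fun i => ¬ i ∈ M), ∑ l ∈ range (ind M i), w i l = 0 := by
      refine sum_eq_zero fun i hi => ?_
      rw [ind_apply, if_neg (mem_filter.1 hi).2, range_zero, sum_empty]
    rw [h2, add_zero]
    have h3 : univ.filter (fun i => i ∈ M) = M := by
      ext i
      simp
    rw [h3]
    refine sum_congr rfl fun i hi => ?_
    rw [ind_apply, if_pos hi, range_one, sum_singleton]
  constructor
  · rintro ⟨w, hw, hv⟩
    refine ⟨fun i => w i 0, fun i hi => hw i 0 ?_, ?_⟩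
    · rw [ind_apply, if_pos hi]
      exact one_pos
    · rw [hv, key]
  · rintro ⟨w, hw, hv⟩
    refine ⟨fun i _ => w i, fun i l hl => hw i ?_, ?_⟩
    · by_contra h
      rw [ind_apply, if_neg h] at hl
      exact absurd hl (Nat.not_lt_zero l)
    · rw [hv, key]

theorem nn_X {m : ℕ} (c : Fin m × Fin m) :
    NN (MvPolynomial.X c : MvPolynomial (Fin m × Fin m) ℝ) := by
  intro α
  rw [MvPolynomial.coeff_X]
  split_ifs
  · exact zero_le_one
  · exact le_refl 0

theorem nn_C {m : ℕ} (r : ℝ) (hr : 0 ≤ r) :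
    NN (MvPolynomial.C r : MvPolynomial (Fin m × Fin m) ℝ) := by
  intro α
  rw [MvPolynomial.coeff_C]
  split_ifs
  · exact hr
  · exact le_refl 0

theorem nn_all (hS : StSup) {m s : ℕ} {f : ℕ → MvPolynomial (Fin m × Fin m) ℝ} {c : ℕ → ℕ}
    (hG : ∀ t < s, Gate f t (c t)) : ∀ t < s, NN (f t) := by
  intro t
  induction t using Nat.strong_induction_on with
  | _ t ih =>
    intro ht
    have hg := hG t ht
    generalize c t = n at hg
    cases hg with
    | var c h =>
      rw [h]
      exact nn_X c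
    | const r hr h =>
      rw [h]
      exact nn_C r hr
    | jump q a p ha hp hJ h =>
      rw [h]
      exact (hS m q p _ hp fun i => ih (a i) (ha i) (lt_trans (ha i) ht)).1
    | matching q a p x y ha hp hxy hs h =>
      rw [h]
      exact (hS m q p _ hp fun i => ih (a i) (ha i) (lt_trans (ha i) ht)).1

theorem node (hS : StSup) (hJ : StJump) (hP : StPlane) {m s : ℕ}
    {f : ℕ → MvPolynomial (Fin m × Fin m) ℝ} {c : ℕ → ℕ}
    (hG : ∀ t < s, Gate f t (c t)) (t : ℕ) (ht : t < s) :
    ∃ d : Nd m, NodeOK (fun t => {v | v ∈ (f t).support}) t d ∧ d.cost = c t := by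
  have hn := nn_all hS hG
  have hg := hG t ht
  generalize c t = n at hg
  cases hg with
  | var c h =>
    refine ⟨.inp, ?_, rfl⟩
    intro v hv
    have hv' : v ∈ (f t).support := hv
    rw [h, MvPolynomial.support_X, Finset.mem_singleton] at hv'
    rw [hv', dg_single]
  | const r hr h =>
    refine ⟨.inp, ?_, rfl⟩
    intro v hv
    have hv' : v ∈ (f t).support := hv
    rw [h, MvPolynomial.mem_support_iff, MvPolynomial.coeff_C] at hv'
    have h0 : 0 = v := by
      by_contra h0
      rw [if_neg h0] at hv'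
      exact hv' rfl
    rw [← h0, dg_zero]
    exact Nat.zero_le 1
  | jump q a p ha hp hJp h =>
    refine ⟨.jmp q a {α | α ∈ p.support}, ⟨ha, hJ q _ hJp, ?_⟩, rfl⟩
    intro v
    have h1 := (hS m q p (fun i => f (a i)) hp
      fun i => hn (a i) (lt_trans (ha i) ht)).2 v
    rw [← h] at h1
    exact h1
  | matching q a p x y ha hp hxy hs h =>
    obtain ⟨κ, hκ1, hκ2⟩ := hP q x y hxy
    refine ⟨.col q a {M | IsPerfect x y M} κ q, ⟨ha, ⟨hκ1, hκ2⟩, ?_⟩, rfl⟩
    intro v
    have h1 := (hS m q p (fun i => f (a i)) hp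
      fun i => hn (a i) (lt_trans (ha i) ht)).2 v
    rw [← h] at h1
    refine h1.trans ⟨?_, ?_⟩
    · rintro ⟨α, hα, hc⟩
      obtain ⟨M, hM, rfl⟩ := (hs α).1 hα
      exact ⟨M, hM, (comb_ind _ M v).1 hc⟩
    · rintro ⟨M, hM, hc⟩
      exact ⟨ind M, (hs _).2 ⟨M, hM, rfl⟩, (comb_ind _ M v).2 hc⟩

end Nodes_aux

theorem iNodes (hS : StSup) (hJ : StJump) (hP : StPlane) : StNodes := by
  intro m s f c hG
  classical
  refine ⟨fun t => if ht : t < s then (Nodes_aux.node hS hJ hP hG t ht).choose else .inp,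
    fun t ht => ?_⟩
  simp only [dif_pos ht]
  exact (Nodes_aux.node hS hJ hP hG t ht).choose_spec

end Pool.Agent.Work.MP_499dc6_lc.SG
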