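import Pool.Agent.Work.MP_499dc6_lc.SG.Stmts

/-! Item Num (helper69): numerics. -/

set_option autoImplicit false

namespace Pool.Agent.Work.MP_499dc6_lc.SG

namespace Num_aux

/-- `e^{1/16}` -/
noncomputable def x : ℝ := Real.exp (1 / 16)

theorem x_pos : 0 < x := Real.exp_pos _

theorem x_pow16 : x ^ 16 = Real.exp 1 := by
  unfold x
  rw [← Real.exp_nat_mul]
  norm_num

theorem x_lt : x < 1.0645 := by
  by_contra h
  push Not at h
  have h1 : (1.0645 : ℝ) ^ 16 ≤ x ^ 16 := pow_le_pow_left₀ (by norm_num) h 16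
  rw [x_pow16] at h1
  have h2 := Real.exp_one_lt_d9
  have h3 : (2.7182818286 : ℝ) < 1.0645 ^ 16 := by norm_num
  linarith

theorem exp_eq (i : ℕ) : Real.exp (((i : ℝ) + 1) / 16) = x ^ (i + 1) := by
  unfold x
  rw [← Real.exp_nat_mul]
  congr 1
  push_cast
  ring

theorem pow_lt (m : ℕ) (hm : m ≠ 0) : x ^ m < 1.0645 ^ m :=
  pow_lt_pow_left₀ x_lt x_pos.le hm

/-- the terms of the series -/
noncomputable def t (j : ℕ) : ℝ := (1 + (j : ℝ) ^ 2) / (Nat.choose (2 * j) j : ℝ) * x ^ (2 * j + 1)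

theorem cb_pos (j : ℕ) : (0 : ℝ) < (Nat.choose (2 * j) j : ℝ) := by
  exact_mod_cast Nat.choose_pos (by omega)

theorem t_pos (j : ℕ) : 0 < t j := by
  unfold t
  have := cb_pos j
  have := x_pos
  positivity

theorem cb_succ (j : ℕ) : ((j : ℝ) + 1) * (Nat.choose (2 * (j + 1)) (j + 1) : ℝ) =
    2 * (2 * (j : ℝ) + 1) * (Nat.choose (2 * j) j : ℝ) := by
  have h := Nat.succ_mul_centralBinom_succ j
  unfold Nat.centralBinom at h
  exact_mod_cast h

theorem key (i a z y : ℝ) (hi : 0 ≤ i) (ha : 0 < a) (hz : z < 1.1332) (hy : 0 < y) :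
    (1 + (i + 7 + 1) ^ 2) / (2 * (2 * (i + 7) + 1) * a / (i + 7 + 1)) * (y * z) ≤
      2 / 5 * ((1 + (i + 7) ^ 2) / a * y) := by
  have e2 : (1 + (i + 7 + 1) ^ 2) / (2 * (2 * (i + 7) + 1) * a / (i + 7 + 1)) * (y * z) =
      ((1 + (i + 7 + 1) ^ 2) * (i + 7 + 1) * z) * y / (2 * (2 * (i + 7) + 1) * a) := by
    field_simp
  have e3 : 2 / 5 * ((1 + (i + 7) ^ 2) / a * y) =
      (4 / 5 * (2 * (i + 7) + 1) * (1 + (i + 7) ^ 2)) * y / (2 * (2 * (i + 7) + 1) * a) := by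
    field_simp
    ring
  rw [e2, e3]
  apply div_le_div_of_nonneg_right _ (by positivity)
  apply mul_le_mul_of_nonneg_right _ hy.le
  have h1 : (1 + (i + 7 + 1) ^ 2) * (i + 7 + 1) * z ≤
      (1 + (i + 7 + 1) ^ 2) * (i + 7 + 1) * 1.1332 := by
    apply mul_le_mul_of_nonneg_left hz.le
    positivity
  refine h1.trans ?_
  have h2 : 0 ≤ i ^ 2 := by positivity
  have h3 : 0 ≤ i ^ 3 := by positivity
  nlinarith

theorem t_succ {j : ℕ} (hj : 7 ≤ j) : t (j + 1) ≤ 2 / 5 * t j := by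
  obtain ⟨i, rfl⟩ : ∃ i, j = i + 7 := ⟨j - 7, by omega⟩
  have hrec := cb_succ (i + 7)
  have hi : (0 : ℝ) ≤ (i : ℝ) := Nat.cast_nonneg i
  have hb' : (Nat.choose (2 * (i + 7 + 1)) (i + 7 + 1) : ℝ) =
      2 * (2 * ((i : ℝ) + 7) + 1) * (Nat.choose (2 * (i + 7)) (i + 7) : ℝ) / ((i : ℝ) + 7 + 1) := by
    rw [eq_div_iff (by linarith : (i : ℝ) + 7 + 1 > 0).ne']
    push_cast at hrec
    linarith
  have hx2 : x ^ 2 < 1.1332 := by
    have h1 := pow_lt 2 (by norm_num)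
    have h2 : (1.0645 : ℝ) ^ 2 < 1.1332 := by norm_num
    linarith
  have e1 : x ^ (2 * (i + 7 + 1) + 1) = x ^ (2 * (i + 7) + 1) * x ^ 2 := by
    rw [← pow_add]
    congr 1
  have h := key (i : ℝ) _ (x ^ 2) (x ^ (2 * (i + 7) + 1)) hi (cb_pos (i + 7)) hx2
    (pow_pos x_pos _)
  unfold t
  rw [hb', e1]
  push_cast
  exact h

theorem sum_le (N : ℕ) (hN : 7 ≤ N) :
    ∑ j ∈ Finset.Ioc 6 N, t j ≤ 5 / 3 * t 7 - 2 / 3 * t N := by
  induction N, hN using Nat.le_induction with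
  | base =>
    have : Finset.Ioc 6 7 = {7} := rfl
    rw [this, Finset.sum_singleton]
    linarith
  | succ N hN ih =>
    rw [← Finset.insert_Ioc_right_eq_Ioc_add_one (by omega : 6 ≤ N), Finset.sum_insert (by simp)]
    have := t_succ hN
    linarith

theorem t7 : t 7 < 0.0376 := by
  unfold t
  have h1 := pow_lt (2 * 7 + 1) (by norm_num)
  have h2 : (Nat.choose (2 * 7) 7 : ℝ) = 3432 := by
    have : Nat.choose (2 * 7) 7 = 3432 := by decide
    exact_mod_cast this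
  rw [h2]
  norm_num at h1 ⊢
  linarith

end Num_aux

open Num_aux in
theorem iNum : StNum := by
  intro k hk
  unfold Br
  have hk' : (33 : ℝ) ≤ (k : ℝ) := by exact_mod_cast hk
  have e16 : Real.exp ((((16 : ℕ) : ℝ) + 1) / 16) = x ^ 17 := exp_eq 16
  have e32 : Real.exp ((((32 : ℕ) : ℝ) + 1) / 16) = x ^ 33 := exp_eq 32
  have e20 : Real.exp ((((20 : ℕ) : ℝ) + 1) / 16) = x ^ 21 := exp_eq 20
  have hsum : ∑ j ∈ Finset.Ioc 6 ((k - 1) / 2), (1 + (j : ℝ) ^ 2) / (Nat.choose (2 * j) j : ℝ) *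
      Real.exp ((((2 * j : ℕ) : ℝ) + 1) / 16) = ∑ j ∈ Finset.Ioc 6 ((k - 1) / 2), t j := by
    refine Finset.sum_congr rfl fun j _ => ?_
    rw [exp_eq]
    rfl
  have h7 := sum_le ((k - 1) / 2) (by omega)
  have hN := t_pos ((k - 1) / 2)
  have ht7 := t7
  have h17 : x ^ 17 < 2.895 := by
    have h1 := pow_lt 17 (by norm_num)
    have h2 : (1.0645 : ℝ) ^ 17 < 2.895 := by norm_num
    linarith
  have h33 : x ^ 33 < 7.87 := by
    have h1 := pow_lt 33 (by norm_num)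
    have h2 : (1.0645 : ℝ) ^ 33 < 7.87 := by norm_num
    linarith
  have h21 : x ^ 21 < 3.72 := by
    have h1 := pow_lt 21 (by norm_num)
    have h2 : (1.0645 : ℝ) ^ 21 < 3.72 := by norm_num
    linarith
  have hq : (k : ℝ) / ((k : ℝ) - 1) ≤ 33 / 32 := by
    rw [div_le_div_iff₀ (by linarith) (by norm_num)]
    linarith
  have hq0 : 0 < (k : ℝ) / ((k : ℝ) - 1) := div_pos (by linarith) (by linarith)
  have hx17 : 0 < x ^ 17 := pow_pos x_pos _
  have hfirst : (k : ℝ) / ((k : ℝ) - 1) * x ^ 17 / 16 ≤ 33 / 32 * 2.895 / 16 := by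
    apply div_le_div_of_nonneg_right _ (by norm_num)
    exact mul_le_mul hq h17.le hx17.le (by norm_num)
  show 2 * ((k : ℝ) / ((k : ℝ) - 1) * Real.exp ((((16 : ℕ) : ℝ) + 1) / 16) / 16 +
    88 / 4960 * Real.exp ((((32 : ℕ) : ℝ) + 1) / 16) +
    76 / 15504 * Real.exp ((((20 : ℕ) : ℝ) + 1) / 16) +
    ∑ j ∈ Finset.Ioc 6 ((k - 1) / 2), (1 + (j : ℝ) ^ 2) / (Nat.choose (2 * j) j : ℝ) *
      Real.exp ((((2 * j : ℕ) : ℝ) + 1) / 16)) < 1
  rw [hsum, e16, e32, e20]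
  norm_num at hfirst ⊢
  linarith

end Pool.Agent.Work.MP_499dc6_lc.SG
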