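import Pool.Agent.Work.MP_499dc6_lc.SG.Stmts

set_option autoImplicit false

open Finset

noncomputable section

namespace Pool.Agent.Work.MP_499dc6_lc.SG

namespace Orth_aux

theorem swap_mem {β : Type} [DecidableEq β] {T : Finset β} {a b x : β} (ha : a ∈ T) (hb : b ∈ T)
    (hx : x ∈ T) : Equiv.swap a b x ∈ T := by
  rcases eq_or_ne x a with rfl | h1
  · rw [Equiv.swap_apply_left]; exact hb
  · rcases eq_or_ne x b with rfl | h2
    · rw [Equiv.swap_apply_right]; exact ha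
    · rw [Equiv.swap_apply_of_ne_of_ne h1 h2]; exact hx

theorem swap_fix {β : Type} [DecidableEq β] {T : Finset β} {a b x : β} (ha : a ∉ T) (hb : b ∉ T)
    (hx : x ∈ T) : Equiv.swap a b x = x := by
  apply Equiv.swap_apply_of_ne_of_ne
  · rintro rfl; exact ha hx
  · rintro rfl; exact hb hx

end Orth_aux

theorem iOrth (h : StSg) (hB : StBp) : StOrth := by
  intro β _ _ T T' g hc
  obtain ⟨a, ha, b, hb, hab⟩ := Finset.one_lt_card.mp (show 1 < (T \ T').card by omega)
  rw [Finset.mem_sdiff] at ha hb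
  obtain ⟨-, -, -, -, -, h6, h7⟩ := h β T
  obtain ⟨-, -, -, -, -, h6', -⟩ := h β T'
  obtain ⟨hb1, -, -⟩ := hB β T g
  obtain ⟨hb1', -, -⟩ := hB β T' g
  have e1 : ∀ σ : Equiv.Perm β, BT T g (σ * Equiv.swap a b) = - BT T g σ := by
    intro σ
    rw [hb1 σ (Equiv.swap a b) (fun x hx => Orth_aux.swap_mem ha.1 hb.1 hx),
      h7 a b ha.1 hb.1 hab]
    ring
  have e2 : ∀ σ : Equiv.Perm β, BT T' g (σ * Equiv.swap a b) = BT T' g σ := by
    intro σ
    rw [hb1' σ (Equiv.swap a b) (fun x hx => by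
        rw [Orth_aux.swap_fix ha.2 hb.2 hx]; exact hx),
      h6' (Equiv.swap a b) (fun x hx => Orth_aux.swap_fix ha.2 hb.2 hx)]
    ring
  have key : ∑ σ : Equiv.Perm β, BT T g σ * BT T' g σ
      = ∑ σ : Equiv.Perm β, BT T g (σ * Equiv.swap a b) * BT T' g (σ * Equiv.swap a b) :=
    (Equiv.sum_comp (Equiv.mulRight (Equiv.swap a b))
      (fun σ => BT T g σ * BT T' g σ)).symm
  have key2 : ∑ σ : Equiv.Perm β, BT T g (σ * Equiv.swap a b) * BT T' g (σ * Equiv.swap a b)
      = - ∑ σ : Equiv.Perm β, BT T g σ * BT T' g σ := by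
    rw [← Finset.sum_neg_distrib]
    refine Finset.sum_congr rfl (fun σ _ => ?_)
    rw [e1, e2]
    ring
  linarith

end Pool.Agent.Work.MP_499dc6_lc.SG
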