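import Pool.Agent.Work.MP_499dc6_lc.SG.Stmts

/-!
MP_499dc6_lc, block SG, item Plane: the elementary pairs of the perfect matchings of a plane
bipartite map with `q` edges have a proper colouring with `q` colours.
-/

set_option autoImplicit false

open Finset

noncomputable section

namespace Pool.Agent.Work.MP_499dc6_lc.SG

namespace Plane_aux

/-- indicator -/
def id1 {q : ℕ} (M : Finset (Fin q)) (e : Fin q) : ℤ := if e ∈ M then 1 else 0

lemma id1_01 {q : ℕ} (M : Finset (Fin q)) (e : Fin q) : id1 M e = 0 ∨ id1 M e = 1 := by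
  unfold id1
  split_ifs <;> simp

lemma id1_eq_one {q : ℕ} (M : Finset (Fin q)) (e : Fin q) : id1 M e = 1 ↔ e ∈ M := by
  unfold id1
  split_ifs with h <;> simp [h]

lemma id1_eq_zero {q : ℕ} (M : Finset (Fin q)) (e : Fin q) : id1 M e = 0 ↔ e ∉ M := by
  unfold id1
  split_ifs with h <;> simp [h]

lemma ext_id1 {q : ℕ} {M M' : Finset (Fin q)} (h : ∀ e, id1 M e = id1 M' e) : M = M' := by
  ext e
  rw [← id1_eq_one, ← id1_eq_one, h e]

open Classical in
/-- the cycle of `e` -/
def cl {q : ℕ} (π : Equiv.Perm (Fin q)) (e : Fin q) : Finset (Fin q) :=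
  univ.filter (fun e' => π.SameCycle e e')

lemma mem_cl {q : ℕ} (π : Equiv.Perm (Fin q)) (e e' : Fin q) :
    e' ∈ cl π e ↔ π.SameCycle e e' := by
  classical
  simp [cl]

lemma sum_cl {q : ℕ} (π : Equiv.Perm (Fin q)) (e : Fin q) (f : Fin q → ℤ) :
    ∑ e' ∈ cl π e, f (π e') = ∑ e' ∈ cl π e, f e' := by
  refine Finset.sum_equiv π ?_ ?_
  · intro i
    rw [mem_cl, mem_cl]
    exact Equiv.Perm.sameCycle_apply_right.symm
  · intro i _
    rfl

lemma exu_iff {q : ℕ} (π : Equiv.Perm (Fin q)) (M : Finset (Fin q)) (e : Fin q) :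
    (∃! e', e' ∈ M ∧ π.SameCycle e e') ↔ ∑ e' ∈ cl π e, id1 M e' = 1 := by
  classical
  have h1 : ∑ e' ∈ cl π e, id1 M e' = (((cl π e).filter (fun e' => e' ∈ M)).card : ℤ) := by
    unfold id1
    rw [Finset.sum_boole]
  rw [h1]
  constructor
  · rintro ⟨a, ⟨ha1, ha2⟩, hu⟩
    have : (cl π e).filter (fun e' => e' ∈ M) = {a} := by
      ext b
      simp only [Finset.mem_filter, mem_cl, Finset.mem_singleton]
      constructor
      · rintro ⟨hb1, hb2⟩
        exact hu b ⟨hb2, hb1⟩
      · rintro rfl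
        exact ⟨ha2, ha1⟩
    rw [this]
    simp
  · intro h
    have h2 : ((cl π e).filter (fun e' => e' ∈ M)).card = 1 := by exact_mod_cast h
    obtain ⟨a, ha⟩ := Finset.card_eq_one.mp h2
    have hm : ∀ b, (b ∈ M ∧ π.SameCycle e b) ↔ b = a := by
      intro b
      have : b ∈ (cl π e).filter (fun e' => e' ∈ M) ↔ b ∈ ({a} : Finset (Fin q)) := by rw [ha]
      simp only [Finset.mem_filter, mem_cl, Finset.mem_singleton] at this
      rw [← this]
      tauto
    refine ⟨a, (hm a).2 rfl, ?_⟩
    intro b hb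
    exact (hm b).1 hb

lemma const_of_inv {q : ℕ} {x y : Equiv.Perm (Fin q)}
    (hc : ∀ S : Finset (Fin q), S.Nonempty → (∀ e ∈ S, x e ∈ S ∧ y e ∈ S) → S = univ)
    (f : Fin q → ℤ) (h1 : ∀ e, f (x e) = f e) (h2 : ∀ e, f (x (y e)) = f e) (e e' : Fin q) :
    f e = f e' := by
  classical
  have hS := hc (univ.filter (fun a => f a = f e')) ⟨e', by simp⟩ (by
    intro a ha
    have ha' : f a = f e' := by simpa using ha
    refine ⟨?_, ?_⟩
    · simp [h1, ha']
    · have h3 : f (y a) = f a := by rw [← h2 a, h1 (y a)]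
      simp [h3, ha'])
  have : e ∈ univ.filter (fun a => f a = f e') := by rw [hS]; exact mem_univ _
  simpa using this

/-- shifting a perfect matching by the boundary of `χ` -/
lemma perf_shift {q : ℕ} {x y : Equiv.Perm (Fin q)} {M N : Finset (Fin q)}
    (hM : IsPerfect x y M) (χ : Fin q → ℤ) (hχ : ∀ e, χ (x (y e)) = χ e)
    (hN : ∀ e, id1 N e = id1 M e + (χ e - χ (x e))) : IsPerfect x y N := by
  refine ⟨?_, ?_⟩
  · intro e
    rw [exu_iff]
    have h1 := (exu_iff x M e).1 (hM.1 e)
    calc ∑ e' ∈ cl x e, id1 N e' = ∑ e' ∈ cl x e, (id1 M e' + (χ e' - χ (x e'))) :=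
          Finset.sum_congr rfl (fun e' _ => hN e')
      _ = ∑ e' ∈ cl x e, id1 M e' + (∑ e' ∈ cl x e, χ e' - ∑ e' ∈ cl x e, χ (x e')) := by
          rw [Finset.sum_add_distrib, Finset.sum_sub_distrib]
      _ = 1 := by rw [sum_cl x e χ, h1]; ring
  · intro e
    rw [exu_iff]
    have h1 := (exu_iff y M e).1 (hM.2 e)
    have h2 : ∑ e' ∈ cl y e, χ (x e') = ∑ e' ∈ cl y e, χ e' := by
      have h3 := sum_cl y e (fun a => χ (x a))
      rw [← h3]
      exact Finset.sum_congr rfl (fun a _ => hχ a)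
    calc ∑ e' ∈ cl y e, id1 N e' = ∑ e' ∈ cl y e, (id1 M e' + (χ e' - χ (x e'))) :=
          Finset.sum_congr rfl (fun e' _ => hN e')
      _ = ∑ e' ∈ cl y e, id1 M e' + (∑ e' ∈ cl y e, χ e' - ∑ e' ∈ cl y e, χ (x e')) := by
          rw [Finset.sum_add_distrib, Finset.sum_sub_distrib]
      _ = 1 := by rw [h2, h1]; ring

lemma perf_shift' {q : ℕ} {x y : Equiv.Perm (Fin q)} {M N : Finset (Fin q)}
    (hM : IsPerfect x y M) (χ : Fin q → ℤ) (hχ : ∀ e, χ (x (y e)) = χ e)
    (hN : ∀ e, id1 N e = id1 M e - (χ e - χ (x e))) : IsPerfect x y N := by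
  refine perf_shift hM (fun e => - χ e) (fun e => by rw [hχ e]) (fun e => ?_)
  rw [hN e]
  ring

lemma union_eq {q : ℕ} {M M' N N' : Finset (Fin q)}
    (h : ∀ e, id1 N e + id1 N' e = id1 M e + id1 M' e) : N ∪ N' = M ∪ M' := by
  ext e
  have he := h e
  unfold id1 at he
  simp only [Finset.mem_union]
  by_cases h1 : e ∈ N <;> by_cases h2 : e ∈ N' <;> by_cases h3 : e ∈ M <;> by_cases h4 : e ∈ M' <;>
    simp [h1, h2, h3, h4] at he ⊢

lemma inter_eq {q : ℕ} {M M' N N' : Finset (Fin q)}
    (h : ∀ e, id1 N e + id1 N' e = id1 M e + id1 M' e) : N ∩ N' = M ∩ M' := by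
  ext e
  have he := h e
  unfold id1 at he
  simp only [Finset.mem_inter]
  by_cases h1 : e ∈ N <;> by_cases h2 : e ∈ N' <;> by_cases h3 : e ∈ M <;> by_cases h4 : e ∈ M' <;>
    simp [h1, h2, h3, h4] at he ⊢

/-- the key step: the sum of `η` for an elementary pair is not divisible by `q` -/
lemma key {q : ℕ} {x y : Equiv.Perm (Fin q)}
    (hc : ∀ S : Finset (Fin q), S.Nonempty → (∀ e ∈ S, x e ∈ S ∧ y e ∈ S) → S = univ)
    {M M' : Finset (Fin q)} (hM : IsPerfect x y M) (hM' : IsPerfect x y M')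
    (hE : Elem {M | IsPerfect x y M} M M') (e₀ : Fin q) (η : Fin q → ℤ) (h0 : η e₀ = 0)
    (h1 : ∀ e, η (x (y e)) = η e) (h2 : ∀ e, η e - η (x e) = id1 M e - id1 M' e) :
    ¬ ((q : ℤ) ∣ ∑ e, η e) := by
  classical
  obtain ⟨hne, hE⟩ := hE
  -- the maximum
  obtain ⟨em, _, hem⟩ := Finset.exists_max_image (univ : Finset (Fin q)) η ⟨e₀, mem_univ _⟩
  set c : ℤ := η em with hcdef
  have hle : ∀ e, η e ≤ c := fun e => hem e (mem_univ _)
  -- not constant
  have hnc : ¬ (∀ e, η e = η (x e)) := by
    intro h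
    apply hne
    apply ext_id1
    intro e
    have := h2 e
    rw [← h e] at this
    linarith
  set χ : Fin q → ℤ := fun e => if c ≤ η e then 1 else 0 with hχdef
  have hχ01 : ∀ e, χ e = 0 ∨ χ e = 1 := by
    intro e
    simp only [hχdef]
    split_ifs <;> simp
  have hχ1 : ∀ e, χ e = 1 ↔ c ≤ η e := by
    intro e
    simp only [hχdef]
    split_ifs with h <;> simp [h]
  have hχ0 : ∀ e, χ e = 0 ↔ η e < c := by
    intro e
    simp only [hχdef]
    split_ifs with h
    · simp [h]
    · simp only [true_iff]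
      exact not_le.mp h
  have hχm : χ em = 1 := (hχ1 em).2 le_rfl
  have hχxy : ∀ e, χ (x (y e)) = χ e := by
    intro e
    simp only [hχdef, h1 e]
  -- the values are 0 or 1
  have hv1 : ∀ e, id1 M' e + (χ e - χ (x e)) = 0 ∨ id1 M' e + (χ e - χ (x e)) = 1 := by
    intro e
    have he := h2 e
    rcases hχ01 e with ha | ha <;> rcases hχ01 (x e) with hb | hb <;>
      rcases id1_01 M' e with hd | hd <;> rcases id1_01 M e with hf | hf
    all_goals first
      | (left; rw [ha, hb, hd]; norm_num; done)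
      | (right; rw [ha, hb, hd]; norm_num; done)
      | (exfalso
         rw [hd, hf] at he
         rw [hχ0] at ha
         rw [hχ1] at hb
         linarith)
      | (exfalso
         rw [hd, hf] at he
         rw [hχ1] at ha
         rw [hχ0] at hb
         linarith)
  have hv2 : ∀ e, id1 M e - (χ e - χ (x e)) = 0 ∨ id1 M e - (χ e - χ (x e)) = 1 := by
    intro e
    have he := h2 e
    rcases hχ01 e with ha | ha <;> rcases hχ01 (x e) with hb | hb <;>
      rcases id1_01 M' e with hd | hd <;> rcases id1_01 M e with hf | hf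
    all_goals first
      | (left; rw [ha, hb, hf]; norm_num; done)
      | (right; rw [ha, hb, hf]; norm_num; done)
      | (exfalso
         rw [hd, hf] at he
         rw [hχ0] at ha
         rw [hχ1] at hb
         linarith)
      | (exfalso
         rw [hd, hf] at he
         rw [hχ1] at ha
         rw [hχ0] at hb
         linarith)
  set N : Finset (Fin q) := univ.filter (fun e => id1 M' e + (χ e - χ (x e)) = 1) with hNdef
  set N' : Finset (Fin q) := univ.filter (fun e => id1 M e - (χ e - χ (x e)) = 1) with hN'def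
  have hN : ∀ e, id1 N e = id1 M' e + (χ e - χ (x e)) := by
    intro e
    rcases hv1 e with h | h
    · rw [h, id1_eq_zero, hNdef]
      simp only [Finset.mem_filter, Finset.mem_univ, true_and]
      rw [h]
      norm_num
    · rw [h, id1_eq_one, hNdef]
      simp only [Finset.mem_filter, Finset.mem_univ, true_and]
      exact h
  have hN' : ∀ e, id1 N' e = id1 M e - (χ e - χ (x e)) := by
    intro e
    rcases hv2 e with h | h
    · rw [h, id1_eq_zero, hN'def]
      simp only [Finset.mem_filter, Finset.mem_univ, true_and]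
      rw [h]
      norm_num
    · rw [h, id1_eq_one, hN'def]
      simp only [Finset.mem_filter, Finset.mem_univ, true_and]
      exact h
  have hNp : IsPerfect x y N := perf_shift hM' χ hχxy hN
  have hN'p : IsPerfect x y N' := perf_shift' hM χ hχxy hN'
  have hsum : ∀ e, id1 N e + id1 N' e = id1 M e + id1 M' e := by
    intro e
    rw [hN, hN']
    ring
  rcases hE N hNp N' hN'p (union_eq hsum) (inter_eq hsum) with hcase | hcase
  · -- N = M
    have hd : ∀ e, (χ (x e) - η (x e)) = χ e - η e := by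
      intro e
      have h3 := hN e
      rw [hcase] at h3
      have h4 := h2 e
      linarith
    have hd2 : ∀ e, (χ (x (y e)) - η (x (y e))) = χ e - η e := by
      intro e
      rw [hχxy, h1]
    have hco : ∀ e, χ e - η e = χ e₀ := by
      intro e
      have h6 : χ e - η e = χ e₀ - η e₀ :=
        const_of_inv hc (fun e => χ e - η e) hd hd2 e e₀
      rw [h6, h0, sub_zero]
    have hs : ∑ e, η e = ∑ e, χ e - (q : ℤ) * χ e₀ := by
      have : ∀ e, η e = χ e - χ e₀ := fun e => by linarith [hco e]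
      rw [Finset.sum_congr rfl (fun e _ => this e), Finset.sum_sub_distrib]
      simp
    have hχs : ∑ e, χ e = ((univ.filter (fun e => c ≤ η e)).card : ℤ) := by
      simp only [hχdef]
      rw [Finset.sum_boole]
    have hpos : 1 ≤ ∑ e, χ e := by
      rw [hχs]
      have : 0 < (univ.filter (fun e => c ≤ η e)).card :=
        Finset.card_pos.mpr ⟨em, by simp [hcdef]⟩
      exact_mod_cast this
    have hlt : ∑ e, χ e < q := by
      rw [hχs]
      have hlt' : (univ.filter (fun e => c ≤ η e)).card < (univ : Finset (Fin q)).card := by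
        apply Finset.card_lt_card
        rw [Finset.filter_ssubset]
        by_contra hcon
        push Not at hcon
        apply hnc
        intro e
        have ha := hcon e (mem_univ _)
        have hb := hcon (x e) (mem_univ _)
        exact le_antisymm ((hle e).trans hb) ((hle (x e)).trans ha)
      rw [Finset.card_univ, Fintype.card_fin] at hlt'
      exact_mod_cast hlt'
    rw [hs]
    intro hdvd
    have hdvd2 : (q : ℤ) ∣ ∑ e, χ e := by
      have h5 : (q : ℤ) ∣ (q : ℤ) * χ e₀ := Dvd.intro _ rfl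
      have := Int.dvd_add hdvd h5
      simpa using this
    have := Int.le_of_dvd (by linarith) hdvd2
    linarith
  · -- N = M'
    exfalso
    apply hnc
    have hinv : ∀ e, χ (x e) = χ e := by
      intro e
      have h3 := hN e
      rw [hcase] at h3
      linarith
    have hall : ∀ e, χ e = 1 := by
      intro e
      rw [const_of_inv hc χ hinv hχxy e em, hχm]
    intro e
    have ha := (hχ1 e).1 (hall e)
    have hb := (hχ1 (x e)).1 (hall (x e))
    exact le_antisymm ((hle e).trans hb) ((hle (x e)).trans ha)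

lemma cyc_zero (π : Equiv.Perm (Fin 0)) : cyc π = 0 := by
  unfold cyc
  have : IsEmpty (Quotient (Equiv.Perm.SameCycle.setoid π)) := by
    constructor
    intro a
    induction a using Quotient.inductionOn with
    | h a => exact a.elim0
  exact Nat.card_of_isEmpty

end Plane_aux

open Plane_aux in
theorem iPlane (h : StLin) : StPlane := by
  classical
  intro q x y hxy
  have hq : 0 < q := by
    rcases Nat.eq_zero_or_pos q with h0 | h0
    · subst h0
      have := hxy.2
      rw [cyc_zero, cyc_zero, cyc_zero] at this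
      omega
    · exact h0
  let e₀ : Fin q := ⟨0, hq⟩
  by_cases hex : ∃ M₀, IsPerfect x y M₀
  · obtain ⟨M₀, hM₀⟩ := hex
    have hη : ∀ M : Finset (Fin q), ∃ η : Fin q → ℤ, IsPerfect x y M →
        (η e₀ = 0 ∧ (∀ e, η (x (y e)) = η e) ∧
          ∀ e, η e - η (x e) = id1 M e - id1 M₀ e) := by
      intro M
      by_cases hM : IsPerfect x y M
      · obtain ⟨η, h1, h2, h3⟩ := h q x y hxy M M₀ hM hM₀ e₀
        exact ⟨η, fun _ => ⟨h1, h2, h3⟩⟩
      · exact ⟨0, fun hh => absurd hh hM⟩
    choose η hη using hη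
    refine ⟨fun M => ((∑ e, η M e) % (q : ℤ)).toNat, ?_, ?_⟩
    · intro M _
      have h1 : (∑ e, η M e) % (q : ℤ) < q := Int.emod_lt_of_pos _ (by exact_mod_cast hq)
      have h2 : 0 ≤ (∑ e, η M e) % (q : ℤ) := Int.emod_nonneg _ (by exact_mod_cast hq.ne')
      show ((∑ e, η M e) % (q : ℤ)).toNat < q
      omega
    · intro M hM M' hM' hE hκ
      have hM1 : IsPerfect x y M := hM
      have hM1' : IsPerfect x y M' := hM'
      obtain ⟨a1, a2, a3⟩ := hη M hM1
      obtain ⟨b1, b2, b3⟩ := hη M' hM1'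
      have hk := key hxy.1 hM1 hM1' hE e₀ (fun e => η M e - η M' e) (by simp [a1, b1])
        (fun e => by simp only [a2, b2]) (fun e => by linarith [a3 e, b3 e])
      apply hk
      have hκ' : ((∑ e, η M e) % (q : ℤ)).toNat = ((∑ e, η M' e) % (q : ℤ)).toNat := hκ
      have h2 : 0 ≤ (∑ e, η M e) % (q : ℤ) := Int.emod_nonneg _ (by exact_mod_cast hq.ne')
      have h3 : 0 ≤ (∑ e, η M' e) % (q : ℤ) := Int.emod_nonneg _ (by exact_mod_cast hq.ne')
      have h4 : (∑ e, η M e) % (q : ℤ) = (∑ e, η M' e) % (q : ℤ) := by omega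
      rw [Finset.sum_sub_distrib]
      exact Int.ModEq.dvd (show (∑ e, η M' e) ≡ (∑ e, η M e) [ZMOD (q : ℤ)] from h4.symm)
  · refine ⟨fun _ => 0, fun M hM => absurd ⟨M, hM⟩ hex, fun M hM => absurd ⟨M, hM⟩ hex⟩

end Pool.Agent.Work.MP_499dc6_lc.SG
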