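import Pool.Agent.Work.MP_499dc6_lc.SG.Stmts

set_option autoImplicit false

open Finset

noncomputable section

namespace Pool.Agent.Work.MP_499dc6_lc.SG

namespace Psi_aux

variable {β : Type} [Fintype β] [DecidableEq β]

lemma ee_eq (j : ℕ) (h : Equiv.Perm β) :
    ee j h = ∑ T ∈ powersetCard j (univ : Finset β), sg T h := rfl

/-- the substitution `τ = σ h` -/
lemma shift (T : Finset β) (g : Equiv.Perm β → ℝ) (σ : Equiv.Perm β) :
    ∑ τ : Equiv.Perm β, g τ * sg T (σ⁻¹ * τ) = ∑ h : Equiv.Perm β, sg T h * g (σ * h) := by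
  have e := Equiv.sum_comp (Equiv.mulLeft σ) (fun τ : Equiv.Perm β => g τ * sg T (σ⁻¹ * τ))
  refine e.symm.trans (Finset.sum_congr rfl fun h _ => ?_)
  show g (σ * h) * sg T (σ⁻¹ * (σ * h)) = _
  rw [inv_mul_cancel_left]
  ring

lemma inner_eq (j : ℕ) (g : Equiv.Perm β → ℝ) (σ : Equiv.Perm β) :
    ∑ τ : Equiv.Perm β, g σ * g τ * ee j (σ⁻¹ * τ) =
      ∑ T ∈ powersetCard j (univ : Finset β), g σ * ∑ h : Equiv.Perm β, sg T h * g (σ * h) := by
  have h1 : ∀ τ : Equiv.Perm β, g σ * g τ * ee j (σ⁻¹ * τ) =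
      ∑ T ∈ powersetCard j (univ : Finset β), g σ * (g τ * sg T (σ⁻¹ * τ)) := by
    intro τ
    rw [ee_eq, Finset.mul_sum]
    refine Finset.sum_congr rfl fun T _ => ?_
    ring
  simp_rw [h1]
  rw [Finset.sum_comm]
  refine Finset.sum_congr rfl fun T _ => ?_
  rw [← Finset.mul_sum, shift]

end Psi_aux

open Psi_aux

/-- ITEM Psi. -/
theorem iPsi (h : StBp) : StPsi := by
  intro β _ _ g j hj
  have hc : ((Fintype.card β).choose j : ℝ) * ((j.factorial : ℝ) *
      ((Fintype.card β - j).factorial : ℝ)) = ((Fintype.card β).factorial : ℝ) := by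
    rw [← mul_assoc]
    exact_mod_cast Nat.choose_mul_factorial_mul_factorial hj
  have hch : ((Fintype.card β).choose j : ℝ) ≠ 0 := by
    have := Nat.choose_pos hj
    positivity
  have hjf : (j.factorial : ℝ) ≠ 0 := by positivity
  have hkf : ((Fintype.card β - j).factorial : ℝ) ≠ 0 := by positivity
  have hkk : ((Fintype.card β).factorial : ℝ) ≠ 0 := by positivity
  -- right side
  have hR : ∀ T ∈ powersetCard j (univ : Finset β),
      avg univ (fun σ => (BT T g σ) ^ 2) =
        (∑ σ : Equiv.Perm β, g σ * ∑ h : Equiv.Perm β, sg T h * g (σ * h)) /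
          (((j.factorial : ℝ) * ((Fintype.card β - j).factorial : ℝ)) *
            ((Fintype.card β).factorial : ℝ)) := by
    intro T hT
    have hTc : T.card = j := (Finset.mem_powersetCard.mp hT).2
    rw [← (h β T g).2.1]
    unfold avg BT
    rw [hTc, Finset.card_univ, Fintype.card_perm, div_mul_eq_div_div]
    congr 1
    rw [Finset.sum_div]
    refine Finset.sum_congr rfl fun σ _ => ?_
    rw [mul_div_assoc]
  unfold Psi quad
  have hL : avg univ (fun σ : Equiv.Perm β => avg univ (fun τ => g σ * g τ * ee j (σ⁻¹ * τ))) =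
      (∑ T ∈ powersetCard j (univ : Finset β),
        ∑ σ : Equiv.Perm β, g σ * ∑ h : Equiv.Perm β, sg T h * g (σ * h)) /
        (((Fintype.card β).factorial : ℝ) * ((Fintype.card β).factorial : ℝ)) := by
    unfold avg
    rw [Finset.card_univ, Fintype.card_perm, div_mul_eq_div_div]
    congr 1
    rw [Finset.sum_comm, Finset.sum_div]
    refine Finset.sum_congr rfl fun σ _ => ?_
    show (∑ τ : Equiv.Perm β, g σ * g τ * ee j (σ⁻¹ * τ)) / ((Fintype.card β).factorial : ℝ) = _
    rw [inner_eq]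
  rw [hL]
  have hA : avg (powersetCard j (univ : Finset β)) (fun T => avg univ (fun σ => (BT T g σ) ^ 2)) =
      (∑ T ∈ powersetCard j (univ : Finset β),
        ∑ σ : Equiv.Perm β, g σ * ∑ h : Equiv.Perm β, sg T h * g (σ * h)) /
          (((j.factorial : ℝ) * ((Fintype.card β - j).factorial : ℝ)) *
            ((Fintype.card β).factorial : ℝ)) / ((Fintype.card β).choose j : ℝ) := by
    show (∑ T ∈ powersetCard j (univ : Finset β), avg univ (fun σ => (BT T g σ) ^ 2)) /
      ((powersetCard j (univ : Finset β)).card : ℝ) = _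
    rw [Finset.sum_congr rfl hR, ← Finset.sum_div, Finset.card_powersetCard, Finset.card_univ]
  rw [hA, ← hc]
  field_simp

end Pool.Agent.Work.MP_499dc6_lc.SG
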