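import Pool.Agent.Work.MP_499dc6_lc.SG.Stmts

/-!
MP_499dc6_lc, block SG, item Seq: the choice of `r`.
-/

set_option autoImplicit false

open Finset

noncomputable section

namespace Pool.Agent.Work.MP_499dc6_lc.SG

namespace Seq_aux

lemma Br_mono (k : ℕ) (hk : 33 ≤ k) (a b : ℕ → ℝ) (h : ∀ i ≤ k, a i ≤ b i) : Br k a ≤ Br k b := by
  unfold Br
  have h16 := h 16 (by omega)
  have h32 := h 32 (by omega)
  have h20 := h 20 (by omega)
  have hk1 : (0 : ℝ) < (k : ℝ) - 1 := by
    have : (33 : ℝ) ≤ (k : ℝ) := by exact_mod_cast hk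
    linarith
  have hk0 : (0 : ℝ) ≤ (k : ℝ) / ((k : ℝ) - 1) := div_nonneg (Nat.cast_nonneg k) hk1.le
  have h1 : (k : ℝ) / ((k : ℝ) - 1) * a 16 / 16 ≤ (k : ℝ) / ((k : ℝ) - 1) * b 16 / 16 :=
    div_le_div_of_nonneg_right (mul_le_mul_of_nonneg_left h16 hk0) (by norm_num)
  have h2 : ∑ j ∈ Finset.Ioc 6 ((k - 1) / 2),
      (1 + (j : ℝ) ^ 2) / (Nat.choose (2 * j) j : ℝ) * a (2 * j) ≤
      ∑ j ∈ Finset.Ioc 6 ((k - 1) / 2),
        (1 + (j : ℝ) ^ 2) / (Nat.choose (2 * j) j : ℝ) * b (2 * j) := by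
    refine Finset.sum_le_sum fun j hj => ?_
    rw [Finset.mem_Ioc] at hj
    exact mul_le_mul_of_nonneg_left (h (2 * j) (by omega)) (by positivity)
  linarith

lemma Br_smul (k : ℕ) (c : ℝ) (a : ℕ → ℝ) : Br k (fun i => c * a i) = c * Br k a := by
  unfold Br
  have h2 : ∑ j ∈ Finset.Ioc 6 ((k - 1) / 2),
      (1 + (j : ℝ) ^ 2) / (Nat.choose (2 * j) j : ℝ) * (c * a (2 * j)) =
      c * ∑ j ∈ Finset.Ioc 6 ((k - 1) / 2),
        (1 + (j : ℝ) ^ 2) / (Nat.choose (2 * j) j : ℝ) * a (2 * j) := by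
    rw [Finset.mul_sum]
    exact Finset.sum_congr rfl fun j _ => by ring
  simp only [h2]
  ring

end Seq_aux

open Seq_aux in
theorem iSeq (h : StNum) : StSeq := by
  intro n L a μ hL hn hμ hmono h0 hn1 hn2 hB
  by_contra hcon
  push Not at hcon
  have hne : ((range n).filter (fun r => r % 2 = (n - 1) % 2)).Nonempty :=
    ⟨n - 1, by rw [Finset.mem_filter, Finset.mem_range]; exact ⟨by omega, rfl⟩⟩
  obtain ⟨r, hr, hmax⟩ := Finset.exists_max_image _
    (fun r : ℕ => a r * Real.exp (-(r : ℝ) / 16)) hne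
  rw [Finset.mem_filter, Finset.mem_range] at hr
  obtain ⟨hrn, hrp⟩ := hr
  -- monotonicity
  have hmon : ∀ i j : ℕ, i ≤ j → j ≤ n → a i ≤ a j := by
    intro i j hij
    induction j, hij using Nat.le_induction with
    | base => intro _; exact le_refl _
    | succ j hij ih => intro hj; exact (ih (by omega)).trans (hmono j hj)
  have hapos : ∀ i ≤ n, μ ^ 2 ≤ a i := by
    intro i hi
    rw [← h0]
    exact hmon 0 i (Nat.zero_le _) hi
  have hμ2 : (0 : ℝ) < μ ^ 2 := by positivity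
  have har : 0 < a r := lt_of_lt_of_le hμ2 (hapos r hrn.le)
  -- maximality
  have hmx : ∀ s : ℕ, s < n → s % 2 = (n - 1) % 2 →
      a s ≤ Real.exp (((s : ℝ) - r) / 16) * a r := by
    intro s hs hsp
    have h1 : a s * Real.exp (-(s : ℝ) / 16) ≤ a r * Real.exp (-(r : ℝ) / 16) :=
      hmax s (by rw [Finset.mem_filter, Finset.mem_range]; exact ⟨hs, hsp⟩)
    have h2 : a s = (a s * Real.exp (-(s : ℝ) / 16)) * Real.exp ((s : ℝ) / 16) := by
      rw [mul_assoc, ← Real.exp_add]
      have : -(s : ℝ) / 16 + (s : ℝ) / 16 = 0 := by ring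
      rw [this, Real.exp_zero, mul_one]
    have h3 : Real.exp (((s : ℝ) - r) / 16) * a r =
        (a r * Real.exp (-(r : ℝ) / 16)) * Real.exp ((s : ℝ) / 16) := by
      rw [mul_assoc, ← Real.exp_add, mul_comm (a r)]
      congr 2
      ring
    rw [h2, h3]
    exact mul_le_mul_of_nonneg_right h1 (Real.exp_pos _).le
  -- r is small
  have hsmall : L ≤ n - r := by
    set r' : ℕ := (n - 1) % 2 with hr'
    have hr'2 : r' < 2 := Nat.mod_lt _ (by norm_num)
    have hr'p : r' % 2 = (n - 1) % 2 := by omega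
    have h1 := hmx r' (by omega) hr'p
    have h2 : μ ^ 2 ≤ Real.exp (((r' : ℝ) - r) / 16) * μ := by
      calc μ ^ 2 ≤ a r' := hapos r' (by omega)
        _ ≤ Real.exp (((r' : ℝ) - r) / 16) * a r := h1
        _ ≤ Real.exp (((r' : ℝ) - r) / 16) * μ := by
            rw [← hn1]
            exact mul_le_mul_of_nonneg_left (hmon r n hrn.le le_rfl) (Real.exp_pos _).le
    have h3 : μ ≤ Real.exp (((r' : ℝ) - r) / 16) := by
      rw [pow_two] at h2
      exact le_of_mul_le_mul_right h2 hμ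
    have h4 : Real.exp (-((n : ℝ) - L) / 16) < Real.exp (((r' : ℝ) - r) / 16) :=
      lt_of_lt_of_le hcon h3
    rw [Real.exp_lt_exp] at h4
    have h5 : (r : ℝ) + L < n + r' := by linarith
    have h6 : r + L < n + r' := by exact_mod_cast h5
    omega
  -- bounds
  obtain ⟨k, hk⟩ : ∃ k, k = n - r := ⟨_, rfl⟩
  have hkodd : Odd k := by
    rw [Nat.odd_iff]
    omega
  have hbd : ∀ i ≤ k, a (r + i) ≤ a r * Real.exp (((i : ℝ) + 1) / 16) := by
    intro i hi
    have hev : ∀ s : ℕ, s < k → s % 2 = 0 → a (r + s) ≤ Real.exp ((s : ℝ) / 16) * a r := by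
      intro s hs hs2
      have h1 := hmx (r + s) (by omega) (by omega)
      have h2 : ((r + s : ℕ) : ℝ) - r = s := by push_cast; ring
      rwa [h2] at h1
    have hexp : ∀ s : ℕ, s ≤ i + 1 → Real.exp ((s : ℝ) / 16) * a r ≤
        a r * Real.exp (((i : ℝ) + 1) / 16) := by
      intro s hs
      rw [mul_comm]
      refine mul_le_mul_of_nonneg_left (Real.exp_le_exp.mpr ?_) har.le
      have : (s : ℝ) ≤ (i : ℝ) + 1 := by exact_mod_cast hs
      linarith
    rw [Nat.odd_iff] at hkodd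
    rcases Nat.even_or_odd i with hi2 | hi2
    · rw [Nat.even_iff] at hi2
      exact (hev i (by omega) hi2).trans (hexp i (by omega))
    · rw [Nat.odd_iff] at hi2
      by_cases hik : i + 1 < k
      · exact ((hmono (r + i) (by omega)).trans (hev (i + 1) hik (by omega))).trans
          (hexp (i + 1) le_rfl)
      · have hik' : r + i = n := by omega
        have h1 : a (r + i) = a (r + (i - 1)) := by
          rw [hik', hn1, ← hn2]
          congr 1
          omega
        rw [h1]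
        exact (hev (i - 1) (by omega) (by omega)).trans (hexp (i - 1) (by omega))
  have hk33 : 33 ≤ k := by omega
  have h1 := hB r k (by omega) hkodd (by omega)
  have h2 := Br_mono k hk33 (fun i => a (r + i)) (fun i => a r * Real.exp (((i : ℝ) + 1) / 16)) hbd
  rw [Br_smul] at h2
  have h3 : a r * Br k (fun i => Real.exp (((i : ℝ) + 1) / 16)) < a r * 1 :=
    mul_lt_mul_of_pos_left (h k hk33) har
  linarith

end Pool.Agent.Work.MP_499dc6_lc.SG
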