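import Pool.Agent.Work.MP_499dc6_lc.SG.Stmts

/-!
MP_499dc6_lc, block SG, item Sup: support of a composition of polynomials with nonnegative
coefficients.
-/

set_option autoImplicit false

open Finset

noncomputable section

namespace Pool.Agent.Work.MP_499dc6_lc.SG

namespace Sup_aux

variable {ι κ : Type} [DecidableEq ι]

theorem nn_mul {f g : MvPolynomial ι ℝ} (hf : NN f) (hg : NN g) : NN (f * g) := by
  intro v
  rw [MvPolynomial.coeff_mul]
  exact Finset.sum_nonneg fun x _ => mul_nonneg (hf x.1) (hg x.2)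

theorem nn_one : NN (1 : MvPolynomial ι ℝ) := by
  intro v
  rw [MvPolynomial.coeff_one]
  split_ifs
  · exact zero_le_one
  · exact le_rfl

theorem nn_sum {s : Finset κ} {f : κ → MvPolynomial ι ℝ} (hf : ∀ i ∈ s, NN (f i)) :
    NN (∑ i ∈ s, f i) := by
  intro v
  rw [MvPolynomial.coeff_sum]
  exact Finset.sum_nonneg fun i hi => hf i hi v

theorem nn_pow {f : MvPolynomial ι ℝ} (hf : NN f) (n : ℕ) : NN (f ^ n) := by
  induction n with
  | zero => rw [pow_zero]; exact nn_one
  | succ n ih => rw [pow_succ]; exact nn_mul ih hf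

theorem nn_prod [DecidableEq κ] {s : Finset κ} {f : κ → MvPolynomial ι ℝ}
    (hf : ∀ i ∈ s, NN (f i)) : NN (∏ i ∈ s, f i) := by
  induction s using Finset.induction_on with
  | empty => rw [Finset.prod_empty]; exact nn_one
  | insert a s ha ih =>
    rw [Finset.prod_insert ha]
    exact nn_mul (hf a (Finset.mem_insert_self a s))
      (ih fun i hi => hf i (Finset.mem_insert_of_mem hi))

theorem nn_C_mul {c : ℝ} (hc : 0 ≤ c) {f : MvPolynomial ι ℝ} (hf : NN f) :
    NN (MvPolynomial.C c * f) := by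
  intro v
  rw [MvPolynomial.coeff_C_mul]
  exact mul_nonneg hc (hf v)

theorem supp_mul {f g : MvPolynomial ι ℝ} (hf : NN f) (hg : NN g) (v : ι →₀ ℕ) :
    v ∈ (f * g).support ↔ ∃ a ∈ f.support, ∃ b ∈ g.support, v = a + b := by
  constructor
  · intro h
    rw [MvPolynomial.mem_support_iff, MvPolynomial.coeff_mul] at h
    obtain ⟨x, hx, hx2⟩ := Finset.exists_ne_zero_of_sum_ne_zero h
    refine ⟨x.1, ?_, x.2, ?_, ?_⟩
    · rw [MvPolynomial.mem_support_iff]
      exact left_ne_zero_of_mul hx2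
    · rw [MvPolynomial.mem_support_iff]
      exact right_ne_zero_of_mul hx2
    · exact (Finset.HasAntidiagonal.mem_antidiagonal.1 hx).symm
  · rintro ⟨a, ha, b, hb, rfl⟩
    rw [MvPolynomial.mem_support_iff] at ha hb ⊢
    rw [MvPolynomial.coeff_mul]
    have h1 : 0 < MvPolynomial.coeff a f * MvPolynomial.coeff b g :=
      mul_pos (lt_of_le_of_ne (hf a) (Ne.symm ha)) (lt_of_le_of_ne (hg b) (Ne.symm hb))
    have h2 : MvPolynomial.coeff a f * MvPolynomial.coeff b g ≤
        ∑ x ∈ Finset.HasAntidiagonal.antidiagonal (a + b), MvPolynomial.coeff x.1 f * MvPolynomial.coeff x.2 g :=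
      Finset.single_le_sum
        (f := fun x : (ι →₀ ℕ) × (ι →₀ ℕ) => MvPolynomial.coeff x.1 f * MvPolynomial.coeff x.2 g)
        (fun x _ => mul_nonneg (hf x.1) (hg x.2))
        (Finset.HasAntidiagonal.mem_antidiagonal.2 (rfl : (a, b).1 + (a, b).2 = a + b))
    exact (lt_of_lt_of_le h1 h2).ne'

theorem supp_sum {s : Finset κ} {f : κ → MvPolynomial ι ℝ} (hf : ∀ i ∈ s, NN (f i))
    (v : ι →₀ ℕ) : v ∈ (∑ i ∈ s, f i).support ↔ ∃ i ∈ s, v ∈ (f i).support := by
  constructor
  · intro h
    rw [MvPolynomial.mem_support_iff, MvPolynomial.coeff_sum] at h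
    obtain ⟨i, hi, hi2⟩ := Finset.exists_ne_zero_of_sum_ne_zero h
    exact ⟨i, hi, MvPolynomial.mem_support_iff.2 hi2⟩
  · rintro ⟨i, hi, hv⟩
    rw [MvPolynomial.mem_support_iff] at hv ⊢
    rw [MvPolynomial.coeff_sum]
    have h1 : 0 < MvPolynomial.coeff v (f i) := lt_of_le_of_ne (hf i hi v) (Ne.symm hv)
    have h2 : MvPolynomial.coeff v (f i) ≤ ∑ j ∈ s, MvPolynomial.coeff v (f j) :=
      Finset.single_le_sum (f := fun j => MvPolynomial.coeff v (f j))
        (fun j hj => hf j hj v) hi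
    exact (lt_of_lt_of_le h1 h2).ne'

theorem supp_C_mul {c : ℝ} (hc : c ≠ 0) (f : MvPolynomial ι ℝ) (v : ι →₀ ℕ) :
    v ∈ (MvPolynomial.C c * f).support ↔ v ∈ f.support := by
  rw [MvPolynomial.mem_support_iff, MvPolynomial.mem_support_iff, MvPolynomial.coeff_C_mul]
  constructor
  · intro h
    exact right_ne_zero_of_mul h
  · intro h
    exact mul_ne_zero hc h

theorem supp_one (v : ι →₀ ℕ) : v ∈ (1 : MvPolynomial ι ℝ).support ↔ v = 0 := by
  rw [MvPolynomial.mem_support_iff, MvPolynomial.coeff_one]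
  constructor
  · intro h
    by_contra h'
    exact h (if_neg fun h2 => h' h2.symm)
  · rintro rfl
    rw [if_pos rfl]
    exact one_ne_zero

theorem supp_pow {f : MvPolynomial ι ℝ} (hf : NN f) (n : ℕ) (v : ι →₀ ℕ) :
    v ∈ (f ^ n).support ↔
      ∃ w : ℕ → (ι →₀ ℕ), (∀ l < n, w l ∈ f.support) ∧ v = ∑ l ∈ range n, w l := by
  induction n generalizing v with
  | zero =>
    rw [pow_zero, supp_one]
    constructor
    · rintro rfl
      exact ⟨fun _ => 0, fun l hl => absurd hl (Nat.not_lt_zero l), by simp⟩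
    · rintro ⟨w, -, rfl⟩
      simp
  | succ n ih =>
    rw [pow_succ, supp_mul (nn_pow hf n) hf]
    constructor
    · rintro ⟨a, ha, b, hb, rfl⟩
      obtain ⟨w, hw, rfl⟩ := (ih a).1 ha
      refine ⟨fun l => if l = n then b else w l, ?_, ?_⟩
      · intro l hl
        by_cases h : l = n
        · simp only [h, if_true]
          exact hb
        · simp only [if_neg h]
          exact hw l (by omega)
      · rw [Finset.sum_range_succ]
        simp only [if_true]
        congr 1
        refine Finset.sum_congr rfl fun l hl => ?_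
        rw [if_neg (Finset.mem_range.1 hl).ne]
    · rintro ⟨w, hw, rfl⟩
      refine ⟨∑ l ∈ range n, w l, (ih _).2 ⟨w, fun l hl => hw l (by omega), rfl⟩, w n,
        hw n (by omega), ?_⟩
      rw [Finset.sum_range_succ]

theorem supp_prod [DecidableEq κ] {s : Finset κ} {f : κ → MvPolynomial ι ℝ}
    (hf : ∀ i ∈ s, NN (f i)) (v : ι →₀ ℕ) :
    v ∈ (∏ i ∈ s, f i).support ↔
      ∃ u : κ → (ι →₀ ℕ), (∀ i ∈ s, u i ∈ (f i).support) ∧ v = ∑ i ∈ s, u i := by
  induction s using Finset.induction_on generalizing v with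
  | empty =>
    rw [Finset.prod_empty, supp_one]
    constructor
    · rintro rfl
      exact ⟨fun _ => 0, fun i hi => absurd hi (Finset.notMem_empty i), by simp⟩
    · rintro ⟨u, -, rfl⟩
      simp
  | insert a s ha ih =>
    have hs : ∀ i ∈ s, NN (f i) := fun i hi => hf i (Finset.mem_insert_of_mem hi)
    rw [Finset.prod_insert ha, supp_mul (hf a (Finset.mem_insert_self a s)) (nn_prod hs)]
    constructor
    · rintro ⟨b, hb, c, hc, rfl⟩
      obtain ⟨u, hu, rfl⟩ := (ih hs c).1 hc
      refine ⟨fun i => if i = a then b else u i, ?_, ?_⟩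
      · intro i hi
        by_cases h : i = a
        · simp only [h, if_true]
          exact hb
        · simp only [if_neg h]
          exact hu i (Finset.mem_of_mem_insert_of_ne hi h)
      · rw [Finset.sum_insert ha]
        simp only [if_true]
        congr 1
        refine Finset.sum_congr rfl fun i hi => ?_
        rw [if_neg (fun h : i = a => ha (h ▸ hi))]
    · rintro ⟨u, hu, rfl⟩
      refine ⟨u a, hu a (Finset.mem_insert_self a s), ∑ i ∈ s, u i,
        (ih hs _).2 ⟨u, fun i hi => hu i (Finset.mem_insert_of_mem hi), rfl⟩, ?_⟩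
      rw [Finset.sum_insert ha]

end Sup_aux

open Sup_aux in
theorem iSup : StSup := by
  intro m q p g hp hg
  classical
  have hb : MvPolynomial.bind₁ g p =
      ∑ α ∈ p.support, MvPolynomial.C (MvPolynomial.coeff α p) * ∏ i, g i ^ α i := by
    change MvPolynomial.aeval g p = _
    rw [MvPolynomial.aeval_def, MvPolynomial.eval₂_eq']
    rfl
  have hnn : ∀ α ∈ p.support,
      NN (MvPolynomial.C (MvPolynomial.coeff α p) * ∏ i, g i ^ α i) := fun α _ =>
    nn_C_mul (hp α) (nn_prod fun i _ => nn_pow (hg i) (α i))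
  rw [hb]
  refine ⟨nn_sum hnn, ?_⟩
  intro v
  rw [supp_sum hnn]
  refine exists_congr fun α => and_congr_right fun hα => ?_
  rw [supp_C_mul (MvPolynomial.mem_support_iff.1 hα),
    supp_prod (fun i _ => nn_pow (hg i) (α i))]
  constructor
  · rintro ⟨u, hu, rfl⟩
    have h1 : ∀ i : Fin q, ∃ w : ℕ → Mon m, (∀ l < α i, w l ∈ (g i).support) ∧
        u i = ∑ l ∈ range (α i), w l := fun i =>
      (supp_pow (hg i) (α i) (u i)).1 (hu i (Finset.mem_univ i))
    choose w hw hw2 using h1
    exact ⟨w, fun i l hl => hw i l hl, Finset.sum_congr rfl fun i _ => hw2 i⟩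
  · rintro ⟨w, hw, rfl⟩
    exact ⟨fun i => ∑ l ∈ range (α i), w i l,
      fun i _ => (supp_pow (hg i) (α i) _).2 ⟨w i, fun l hl => hw i l hl, rfl⟩, rfl⟩

end Pool.Agent.Work.MP_499dc6_lc.SG
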