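import Pool.Agent.Work.MP_499dc6_lc.SG.Stmts

/-!
MP_499dc6_lc, block SG, item T: Theorem T (sets of permutations without long odd cycles as
quotients) from the key inequality, the tower property, monotonicity and the choice of `r`.
-/

set_option autoImplicit false

open Finset

noncomputable section

namespace Pool.Agent.Work.MP_499dc6_lc.SG

namespace T_aux

lemma avg_mono {ι : Type*} (s : Finset ι) (F G : ι → ℝ) (h : ∀ i ∈ s, F i ≤ G i) :
    avg s F ≤ avg s G :=
  div_le_div_of_nonneg_right (Finset.sum_le_sum h) (Nat.cast_nonneg _)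

lemma avg_add {ι : Type*} (s : Finset ι) (F G : ι → ℝ) :
    avg s (fun i => F i + G i) = avg s F + avg s G := by
  unfold avg
  rw [Finset.sum_add_distrib, add_div]

lemma avg_mul_left {ι : Type*} (s : Finset ι) (c : ℝ) (F : ι → ℝ) :
    avg s (fun i => c * F i) = c * avg s F := by
  unfold avg
  rw [← Finset.mul_sum, mul_div_assoc]

lemma avg_div {ι : Type*} (s : Finset ι) (c : ℝ) (F : ι → ℝ) :
    avg s (fun i => F i / c) = avg s F / c := by
  unfold avg
  rw [← Finset.sum_div, div_right_comm]

lemma avg_sum {ι κ : Type*} (s : Finset ι) (t : Finset κ) (F : κ → ι → ℝ) :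
    avg s (fun i => ∑ j ∈ t, F j i) = ∑ j ∈ t, avg s (F j) := by
  unfold avg
  rw [Finset.sum_comm, Finset.sum_div]

/-- `Br` commutes with averages -/
lemma avg_Br {ι : Type*} (s : Finset ι) (k : ℕ) (F : ι → ℕ → ℝ) :
    avg s (fun x => Br k (F x)) = Br k (fun i => avg s (fun x => F x i)) := by
  unfold Br
  rw [avg_mul_left, avg_add, avg_add, avg_add, avg_div, avg_mul_left, avg_mul_left, avg_mul_left,
    avg_sum]
  simp only [avg_mul_left]

/-- `Br` depends only on the indices `≤ k` -/
lemma Br_congr (k : ℕ) (hk : 33 ≤ k) (a b : ℕ → ℝ) (h : ∀ i ≤ k, a i = b i) :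
    Br k a = Br k b := by
  unfold Br
  rw [h 16 (by omega), h 32 (by omega), h 20 (by omega)]
  congr 2
  refine Finset.sum_congr rfl fun j hj => ?_
  rw [Finset.mem_Ioc] at hj
  rw [h (2 * j) (by omega)]

lemma isFull_ofSubtype {β : Type} [Fintype β] [DecidableEq β] (D : Finset β)
    (σ : Equiv.Perm {x // x ∉ D}) (h : IsFull σ) :
    (Equiv.Perm.ofSubtype σ : Equiv.Perm β).IsCycle ∧
      (Equiv.Perm.ofSubtype σ : Equiv.Perm β).support.card = Fintype.card {x // x ∉ D} := by
  have h1 : (Equiv.Perm.ofSubtype σ : Equiv.Perm β).cycleType = σ.cycleType :=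
    Equiv.Perm.cycleType_ofSubtype
  constructor
  · rw [← Equiv.Perm.card_cycleType_eq_one, h1, Equiv.Perm.card_cycleType_eq_one]
    exact h.1
  · rw [← Equiv.Perm.sum_cycleType, h1, Equiv.Perm.sum_cycleType, h.2, Finset.card_univ]

end T_aux

open T_aux

theorem iT (hK : StKey) (hT : StTower) (hM : StMono) (hB : StAmB) (hS : StSeq) : StT := by
  intro n L hL hLn A hA
  rcases A.eq_empty_or_nonempty with rfl | hne
  · simp only [Finset.card_empty, Nat.cast_zero]
    positivity
  set f : Equiv.Perm (Fin n) → ℝ := fun σ => if σ ∈ A then 1 else 0 with hf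
  have hf01 : ∀ σ, f σ = 0 ∨ f σ = 1 := by
    intro σ
    by_cases h : σ ∈ A
    · right; simp [hf, h]
    · left; simp [hf, h]
  have hf0 : ∀ σ, 0 ≤ f σ := by
    intro σ
    rcases hf01 σ with h | h <;> norm_num [h]
  have hcn : Fintype.card (Fin n) = n := Fintype.card_fin n
  have hfac : (0 : ℝ) < (n.factorial : ℝ) := by exact_mod_cast n.factorial_pos
  have hμ : avg univ f = (A.card : ℝ) / (n.factorial : ℝ) := by
    unfold avg
    rw [hf]
    simp only [Finset.sum_ite_mem, Finset.univ_inter, Finset.sum_const, nsmul_eq_mul, mul_one]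
    rw [Finset.card_univ, Fintype.card_perm, hcn]
  have hApos : (0 : ℝ) < (A.card : ℝ) := by exact_mod_cast hne.card_pos
  obtain ⟨b1, -, -, b4⟩ := hB (Fin n) f
  obtain ⟨b5, b6⟩ := b4 hf01
  rw [hcn] at b5 b6
  have key := hS n L (fun i => Am i f) (avg univ f) hL hLn (by rw [hμ]; positivity)
    (fun i hi => hM (Fin n) f i (by rw [hcn]; exact hi)) b1 b5 b6 ?_
  · rw [hμ, div_le_iff₀ hfac] at key
    linarith
  · intro r k hrk hodd hLk
    have hk33 : 33 ≤ k := le_trans hL hLk
    have h0 := hT (Fin n) f r 0 (by rw [hcn]; omega)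
    rw [Nat.add_zero] at h0
    show Am r f ≤ Br k (fun i => Am (r + i) f)
    have hBr : Br k (fun i => Am (r + i) f) =
        Br k (fun i => avg (powersetCard r (univ : Finset (Fin n)))
          (fun D => avg univ (fun θ => Am i (restr f D θ)))) := by
      refine Br_congr k hk33 _ _ fun i hi => ?_
      exact (hT (Fin n) f r i (by rw [hcn]; omega)).symm
    rw [hBr, ← h0, ← avg_Br]
    refine avg_mono _ _ _ fun D hD => ?_
    rw [← avg_Br]
    refine avg_mono _ _ _ fun θ _ => ?_
    have hDc : D.card = r := (Finset.mem_powersetCard.1 hD).2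
    have hcard : Fintype.card {x // x ∉ D} = k := by
      rw [Fintype.card_subtype_compl, hcn, Fintype.card_coe, hDc]
      omega
    have hkey := hK {x // x ∉ D} (restr f D θ) (by rw [hcard]; exact hk33)
      (by rw [hcard]; exact hodd) (fun σ => hf0 _) ?_
    · rw [hcard] at hkey
      exact hkey
    · intro σ τ hfull
      by_contra hne0
      have hσ : θ * Equiv.Perm.ofSubtype σ ∈ A := by
        by_contra hc
        apply hne0
        simp [restr, hf, hc]
      have hτ : θ * Equiv.Perm.ofSubtype τ ∈ A := by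
        by_contra hc
        apply hne0
        simp [restr, hf, hc]
      have he : (θ * Equiv.Perm.ofSubtype σ)⁻¹ * (θ * Equiv.Perm.ofSubtype τ) =
          Equiv.Perm.ofSubtype (σ⁻¹ * τ) := by
        rw [map_mul, map_inv]
        group
      have hno := hA _ hσ _ hτ
      rw [he] at hno
      obtain ⟨hc, hs⟩ := isFull_ofSubtype D (σ⁻¹ * τ) hfull
      apply hno
      rw [hs, hcard]
      exact ⟨hc, hodd, hLk⟩

end Pool.Agent.Work.MP_499dc6_lc.SG
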