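import Mathlib
import Pool.Agent.Work.MP_499dc6_lc.SG.Stmts

/-!
MP_499dc6_lc (VP versus VNP), block SG: item Tower.
-/

set_option autoImplicit false

open Finset

noncomputable section

namespace Pool.Agent.Work.MP_499dc6_lc.SG

namespace Tower_aux

variable {β : Type} [Fintype β] [DecidableEq β]

/-- the lift of a set of points outside `D` -/
def lift (D : Finset β) (D' : Finset {x // x ∉ D}) : Finset β :=
  D'.map (Function.Embedding.subtype _)

/-- `ofSubtype` as an embedding -/
def emb (D : Finset β) : Equiv.Perm {x // x ∉ D} ↪ Equiv.Perm β :=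
  ⟨Equiv.Perm.ofSubtype, Equiv.Perm.ofSubtype_injective⟩

lemma mem_lift {D : Finset β} {D' : Finset {x // x ∉ D}} {x : β} :
    x ∈ lift D D' ↔ ∃ h : x ∉ D, (⟨x, h⟩ : {x // x ∉ D}) ∈ D' := by
  unfold lift
  rw [mem_map]
  constructor
  · rintro ⟨⟨y, hy⟩, h1, rfl⟩
    exact ⟨hy, h1⟩
  · rintro ⟨h, h1⟩
    exact ⟨⟨x, h⟩, h1, rfl⟩

lemma fixs_lift (D : Finset β) (D' : Finset {x // x ∉ D}) :
    fixs (D ∪ lift D D') = (fixs D').map (emb D) := by
  ext τ
  rw [mem_map]
  unfold fixs
  rw [mem_filter]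
  constructor
  · rintro ⟨-, h⟩
    have hD : ∀ x ∈ D, τ x = x := fun x hx => h x (mem_union_left _ hx)
    have hinv : ∀ x, τ x ∉ D ↔ x ∉ D := by
      intro x
      rw [not_iff_not]
      constructor
      · intro hx
        have h1 := hD (τ x) hx
        have h2 := τ.injective h1
        rwa [h2] at hx
      · intro hx
        rwa [hD x hx]
    have h2 : ∀ x, τ x ≠ x → x ∉ D := fun x hx hxD => hx (hD x hxD)
    refine ⟨τ.subtypePerm hinv, ?_, ?_⟩
    · rw [mem_filter]
      refine ⟨mem_univ _, ?_⟩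
      rintro ⟨x, hx⟩ hxD'
      apply Subtype.ext
      rw [Equiv.Perm.subtypePerm_apply]
      exact h x (mem_union_right _ (mem_lift.2 ⟨hx, hxD'⟩))
    · exact Equiv.Perm.ofSubtype_subtypePerm hinv h2
  · rintro ⟨τ', hτ', rfl⟩
    refine ⟨mem_univ _, ?_⟩
    rw [mem_filter] at hτ'
    intro x hx
    rcases mem_union.1 hx with hx | hx
    · exact Equiv.Perm.ofSubtype_apply_of_not_mem τ' (by simpa using hx)
    · obtain ⟨hx1, hx2⟩ := mem_lift.1 hx
      change Equiv.Perm.ofSubtype τ' x = x
      rw [Equiv.Perm.ofSubtype_apply_of_mem τ' hx1, hτ'.2 _ hx2]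

lemma cE_restr (f : Equiv.Perm β → ℝ) (D : Finset β) (θ : Equiv.Perm β)
    (D' : Finset {x // x ∉ D}) (θ' : Equiv.Perm {x // x ∉ D}) :
    cE D' (restr f D θ) θ' = cE (D ∪ lift D D') f (θ * Equiv.Perm.ofSubtype θ') := by
  unfold cE
  rw [fixs_lift]
  unfold avg
  rw [sum_map, card_map]
  congr 1
  apply sum_congr rfl
  intro τ _
  unfold restr
  change f (θ * Equiv.Perm.ofSubtype (θ' * τ)) = f (θ * Equiv.Perm.ofSubtype θ' * Equiv.Perm.ofSubtype τ)
  rw [map_mul, mul_assoc]

/-- `E (cE E f)²` -/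
def FF (f : Equiv.Perm β → ℝ) (E : Finset β) : ℝ := avg univ (fun θ => (cE E f θ) ^ 2)

lemma avg_comm {ι κ : Type*} (s : Finset ι) (t : Finset κ) (F : ι → κ → ℝ) :
    avg s (fun a => avg t (fun b => F a b)) = avg t (fun b => avg s (fun a => F a b)) := by
  unfold avg
  rw [← sum_div, ← sum_div, sum_comm, div_div, div_div, mul_comm]

lemma avg_const {ι : Type*} (s : Finset ι) (hs : s.Nonempty) (c : ℝ) : avg s (fun _ => c) = c := by
  unfold avg
  rw [sum_const, nsmul_eq_mul]
  have : (s.card : ℝ) ≠ 0 := by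
    have := hs.card_pos
    positivity
  field_simp

lemma avg_shift (F : Equiv.Perm β → ℝ) (π : Equiv.Perm β) :
    avg univ (fun θ => F (θ * π)) = avg univ F := by
  unfold avg
  congr 1
  exact Equiv.sum_comp (Equiv.mulRight π) F

lemma avg_Am (f : Equiv.Perm β → ℝ) (D : Finset β) (i : ℕ) :
    avg univ (fun θ => Am i (restr f D θ)) =
      avg (powersetCard i (univ : Finset {x // x ∉ D})) (fun D' => FF f (D ∪ lift D D')) := by
  unfold Am
  rw [avg_comm]
  congr 1
  funext D'
  rw [avg_comm]
  have h1 : ∀ θ' : Equiv.Perm {x // x ∉ D},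
      avg univ (fun θ => (cE D' (restr f D θ) θ') ^ 2) = FF f (D ∪ lift D D') := by
    intro θ'
    have h2 : (fun θ => (cE D' (restr f D θ) θ') ^ 2) =
        fun θ => (fun π => (cE (D ∪ lift D D') f π) ^ 2) (θ * Equiv.Perm.ofSubtype θ') := by
      funext θ
      rw [cE_restr]
    rw [h2, avg_shift (fun π => (cE (D ∪ lift D D') f π) ^ 2)]
    rfl
  rw [show (fun θ' : Equiv.Perm {x // x ∉ D} => avg univ (fun θ => (cE D' (restr f D θ) θ') ^ 2)) =
    fun _ => FF f (D ∪ lift D D') from funext h1]
  exact avg_const _ ⟨1, mem_univ _⟩ _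

/-- sum over sets outside `D` = sum over the sets containing `D` -/
lemma sum_lift (F : Finset β → ℝ) (D : Finset β) (r i : ℕ) (hD : D.card = r) :
    ∑ D' ∈ powersetCard i (univ : Finset {x // x ∉ D}), F (D ∪ lift D D') =
      ∑ E ∈ (powersetCard (r + i) (univ : Finset β)).filter (fun E => D ⊆ E), F E := by
  refine sum_bij (fun D' _ => D ∪ lift D D') ?_ ?_ ?_ ?_
  · intro D' hD'
    rw [mem_powersetCard] at hD'
    rw [mem_filter, mem_powersetCard]
    refine ⟨⟨subset_univ _, ?_⟩, subset_union_left⟩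
    rw [card_union_of_disjoint, hD]
    · unfold lift
      rw [card_map, hD'.2]
    · rw [Finset.disjoint_left]
      intro x hx hx'
      exact (mem_lift.1 hx').1 hx
  · intro D1 _ D2 _ h
    ext ⟨x, hx⟩
    have h1 := Finset.ext_iff.1 h x
    rw [mem_union, mem_union] at h1
    constructor
    · intro hx1
      have := h1.1 (Or.inr (mem_lift.2 ⟨hx, hx1⟩))
      rcases this with h2 | h2
      · exact absurd h2 hx
      · exact (mem_lift.1 h2).2
    · intro hx1
      have := h1.2 (Or.inr (mem_lift.2 ⟨hx, hx1⟩))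
      rcases this with h2 | h2
      · exact absurd h2 hx
      · exact (mem_lift.1 h2).2
  · intro E hE
    rw [mem_filter, mem_powersetCard] at hE
    obtain ⟨⟨-, hE1⟩, hE2⟩ := hE
    refine ⟨(univ : Finset {x // x ∉ D}).filter (fun y => (y : β) ∈ E), ?_, ?_⟩
    · rw [mem_powersetCard]
      refine ⟨subset_univ _, ?_⟩
      have h1 : (lift D ((univ : Finset {x // x ∉ D}).filter (fun y => (y : β) ∈ E))) = E \ D := by
        ext x
        rw [mem_lift, mem_sdiff]
        constructor
        · rintro ⟨h2, h3⟩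
          exact ⟨(mem_filter.1 h3).2, h2⟩
        · rintro ⟨h2, h3⟩
          exact ⟨h3, mem_filter.2 ⟨mem_univ _, h2⟩⟩
      have h2 := congrArg Finset.card h1
      unfold lift at h2
      rw [card_map, card_sdiff_of_subset hE2, hE1, hD] at h2
      omega
    · ext x
      rw [mem_union, mem_lift]
      constructor
      · rintro (h1 | ⟨h1, h2⟩)
        · exact hE2 h1
        · exact (mem_filter.1 h2).2
      · intro h1
        by_cases h2 : x ∈ D
        · exact Or.inl h2
        · exact Or.inr ⟨h2, mem_filter.2 ⟨mem_univ _, h1⟩⟩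
  · intro D' _
    rfl

lemma card_compl' (D : Finset β) (r : ℕ) (hD : D.card = r) :
    Fintype.card {x // x ∉ D} = Fintype.card β - r := by
  rw [Fintype.card_subtype_compl]
  simp [hD]

lemma double (F : Finset β → ℝ) (r i : ℕ) :
    ∑ D ∈ powersetCard r (univ : Finset β),
      ∑ E ∈ (powersetCard (r + i) (univ : Finset β)).filter (fun E => D ⊆ E), F E =
      (Nat.choose (r + i) r : ℝ) * ∑ E ∈ powersetCard (r + i) (univ : Finset β), F E := by
  simp_rw [sum_filter]
  rw [sum_comm, mul_sum]
  apply sum_congr rfl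
  intro E hE
  rw [mem_powersetCard] at hE
  rw [← sum_filter, sum_const, nsmul_eq_mul]
  congr 2
  have h1 : (powersetCard r (univ : Finset β)).filter (fun D => D ⊆ E) = powersetCard r E := by
    ext D
    rw [mem_filter, mem_powersetCard, mem_powersetCard]
    constructor
    · rintro ⟨⟨-, h2⟩, h3⟩
      exact ⟨h3, h2⟩
    · rintro ⟨h2, h3⟩
      exact ⟨⟨subset_univ _, h3⟩, h2⟩
  rw [h1, card_powersetCard, hE.2]

end Tower_aux

open Tower_aux in
theorem iTower : StTower := by
  intro β _ _ f r i hri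
  have h0 : ∀ D ∈ powersetCard r (univ : Finset β),
      avg univ (fun θ => Am i (restr f D θ)) =
        (∑ E ∈ (powersetCard (r + i) (univ : Finset β)).filter (fun E => D ⊆ E), FF f E) /
          (Nat.choose (Fintype.card β - r) i : ℝ) := by
    intro D hD
    rw [mem_powersetCard] at hD
    rw [avg_Am]
    unfold avg
    rw [sum_lift (FF f) D r i hD.2, card_powersetCard, card_univ, card_compl' D r hD.2]
  have h1 : avg (powersetCard r (univ : Finset β))
      (fun D => avg univ (fun θ => Am i (restr f D θ))) =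
      (∑ D ∈ powersetCard r (univ : Finset β),
        (∑ E ∈ (powersetCard (r + i) (univ : Finset β)).filter (fun E => D ⊆ E), FF f E) /
          (Nat.choose (Fintype.card β - r) i : ℝ)) / (Nat.choose (Fintype.card β) r : ℝ) := by
    conv_lhs => unfold avg
    rw [card_powersetCard, card_univ]
    congr 1
    exact sum_congr rfl h0
  rw [h1, ← sum_div, double]
  have h2 : Am (r + i) f = (∑ E ∈ powersetCard (r + i) (univ : Finset β), FF f E) /
      (Nat.choose (Fintype.card β) (r + i) : ℝ) := by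
    unfold Am
    conv_lhs => unfold avg
    rw [card_powersetCard, card_univ]
    rfl
  rw [h2]
  have h3 : (Nat.choose (Fintype.card β) (r + i) : ℝ) * (Nat.choose (r + i) r : ℝ) =
      (Nat.choose (Fintype.card β) r : ℝ) * (Nat.choose (Fintype.card β - r) i : ℝ) := by
    have := Nat.choose_mul (n := Fintype.card β) (k := r + i) (s := r) (Nat.le_add_right r i)
    rw [Nat.add_sub_cancel_left] at this
    exact_mod_cast this
  have p1 : (0 : ℝ) < Nat.choose (Fintype.card β) (r + i) := by
    exact_mod_cast Nat.choose_pos hri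
  have p2 : (0 : ℝ) < Nat.choose (Fintype.card β) r := by
    exact_mod_cast Nat.choose_pos (by omega)
  have p3 : (0 : ℝ) < Nat.choose (Fintype.card β - r) i := by
    exact_mod_cast Nat.choose_pos (by omega)
  rw [div_div, div_eq_div_iff (by positivity) (by positivity)]
  rw [mul_comm (Nat.choose (Fintype.card β - r) i : ℝ), ← h3]
  ring

end Pool.Agent.Work.MP_499dc6_lc.SG
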