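import Pool.Agent.Work.MP_499dc6_lc.SG.Stmts

set_option autoImplicit false

open Finset

noncomputable section

namespace Pool.Agent.Work.MP_499dc6_lc.SG

namespace Two_aux

variable {m : ℕ}

lemma le_rs (ν : Mon m) (i j : Fin m) : ν (i, j) ≤ rs ν i := by
  unfold rs
  exact Finset.single_le_sum (f := fun j => ν (i, j)) (fun _ _ => Nat.zero_le _) (Finset.mem_univ j)

lemma rs_eq (ν : Mon m) (i j : Fin m) (h : ∀ j', j' ≠ j → ν (i, j') = 0) :
    ν (i, j) = rs ν i := by
  unfold rs
  rw [Finset.sum_eq_single j]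
  · intro b _ hb
    exact h b hb
  · intro hj
    exact absurd (Finset.mem_univ j) hj

lemma two_rs (ν : Mon m) (i j j' : Fin m) (h : j ≠ j') : ν (i, j) + ν (i, j') ≤ rs ν i := by
  unfold rs
  rw [← Finset.sum_pair (f := fun j => ν (i, j)) h]
  exact Finset.sum_le_sum_of_subset (Finset.subset_univ _)

lemma two_cs (ν : Mon m) (i i' j : Fin m) (h : i ≠ i') : ν (i, j) + ν (i', j) ≤ cs ν j := by
  unfold cs
  rw [← Finset.sum_pair (f := fun i => ν (i, j)) h]
  exact Finset.sum_le_sum_of_subset (Finset.subset_univ _)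

end Two_aux

open Two_aux

theorem iTwo (h : StMf) : StTwo := by
  intro m σ τ v v' ν ν' hz hv hv' hrs hcs hsum hrν hcν h1
  obtain ⟨hM, -⟩ := h m
  obtain ⟨hvE, -, hvc, hvcr, -, -, -⟩ := hM σ v hv
  obtain ⟨hvE', -, -, hvcr', -, -, -⟩ := hM τ v' hv'
  -- entries of ν
  have hν0 : ∀ i j, j ≠ σ i → j ≠ τ i → ν (i, j) = 0 := by
    intro i j h1 h2
    have h3 : ν (i, j) + ν' (i, j) = v (i, j) + v' (i, j) := by
      have := congrArg (fun f : Mon m => f (i, j)) hsum
      simpa using this
    rw [hvE i j, hvE' i j, if_neg (fun hh => h1 hh.symm), if_neg (fun hh => h2 hh.symm)] at h3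
    omega
  have hrνi : ∀ i, rs ν i = rs v i := fun i => congrFun hrν i
  have hcνj : ∀ j, cs ν j = cs v j := fun j => congrFun hcν j
  have hσz : ∀ i, σ ((σ⁻¹ * τ) i) = τ i := by
    intro i
    simp [Equiv.Perm.mul_apply]
  by_cases hP : ∃ i, σ i ≠ τ i ∧ ν (i, τ i) ≠ 0
  · right
    obtain ⟨i₀, hi₀, hi₀'⟩ := hP
    have hstep : ∀ i, (σ i ≠ τ i ∧ ν (i, τ i) ≠ 0) →
        (σ ((σ⁻¹ * τ) i) ≠ τ ((σ⁻¹ * τ) i) ∧ ν ((σ⁻¹ * τ) i, τ ((σ⁻¹ * τ) i)) ≠ 0) := by
      rintro i ⟨ha, hb⟩
      set k := (σ⁻¹ * τ) i with hk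
      have hσk : σ k = τ i := hσz i
      have hki : i ≠ k := by
        intro hh
        apply ha
        rw [← hσk, ← hh]
      have hne : σ k ≠ τ k := by
        intro hh
        rw [hσk] at hh
        exact hki (τ.injective hh)
      refine ⟨hne, ?_⟩
      intro hzero
      have hcol := two_cs ν i k (τ i) hki
      have hc1 : cs ν (τ i) ≤ 1 := by
        rw [hcνj]
        exact hvc _
      have hk0 : ν (k, σ k) = 0 := by
        rw [hσk]
        omega
      have hrk : rs ν k = 0 := by
        rw [← rs_eq ν k (σ k)]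
        · exact hk0
        · intro j' hj'
          by_cases hj2 : j' = τ k
          · rw [hj2]
            exact hzero
          · exact hν0 k j' hj' hj2
      have e1 : rs v k = rs v i := by
        rw [← hvcr k, hσk, ← congrFun hcs (τ i), hvcr' i, congrFun hrs i]
      have e2 : ν (i, τ i) ≤ rs ν i := le_rs ν i (τ i)
      have e3 := hrνi i
      have e4 := hrνi k
      omega
    have hall : ∀ n : ℕ, σ (((σ⁻¹ * τ) ^ n) i₀) ≠ τ (((σ⁻¹ * τ) ^ n) i₀) ∧
        ν (((σ⁻¹ * τ) ^ n) i₀, τ (((σ⁻¹ * τ) ^ n) i₀)) ≠ 0 := by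
      intro n
      induction n with
      | zero => simpa using ⟨hi₀, hi₀'⟩
      | succ n ih =>
        have := hstep _ ih
        rw [pow_succ']
        simpa [Equiv.Perm.mul_apply] using this
    have hsupp : ∀ i, σ i ≠ τ i → ν (i, τ i) ≠ 0 := by
      intro i hi
      have hx : (σ⁻¹ * τ) i₀ ≠ i₀ := by
        intro hh
        apply hi₀
        have := hσz i₀
        rw [hh] at this
        exact this
      have hy : (σ⁻¹ * τ) i ≠ i := by
        intro hh
        apply hi
        have := hσz i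
        rw [hh] at this
        exact this
      obtain ⟨n, hn⟩ := hz.exists_pow_eq hx hy
      have := (hall n).2
      rw [hn] at this
      exact this
    ext p
    obtain ⟨i, j⟩ := p
    rw [hvE' i j]
    have hother : ∀ j', j' ≠ τ i → ν (i, j') = 0 := by
      intro j' hj'
      by_cases hj2 : j' = σ i
      · have hne : σ i ≠ τ i := by
          rw [← hj2]
          exact hj'
        have h5 := hsupp i hne
        have h6 := two_rs ν i (σ i) (τ i) hne
        have h7 := hrνi i
        have h8 := h1 i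
        rw [hj2]
        omega
      · exact hν0 i j' hj2 hj'
    by_cases hj : τ i = j
    · rw [if_pos hj, ← hj, rs_eq ν i (τ i) hother, hrνi i, congrFun hrs i]
    · rw [if_neg hj]
      exact hother j (fun hh => hj hh.symm)
  · left
    push Not at hP
    ext p
    obtain ⟨i, j⟩ := p
    rw [hvE i j]
    have hother : ∀ j', j' ≠ σ i → ν (i, j') = 0 := by
      intro j' hj'
      by_cases hj2 : j' = τ i
      · rw [hj2]
        apply hP i
        intro hh
        apply hj'
        rw [hj2, hh]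
      · exact hν0 i j' hj' hj2
    by_cases hj : σ i = j
    · rw [if_pos hj, ← hj, rs_eq ν i (σ i) hother, hrνi i]
    · rw [if_neg hj]
      exact hother j (fun hh => hj hh.symm)

end Pool.Agent.Work.MP_499dc6_lc.SG
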