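import Pool.Agent.Work.MP_499dc6_lc.SG.Stmts

/-!
MP_499dc6_lc, block SG, item Ty: all monomials of a useful gate have the same row sums, column
sums and degree, the row and column sums are at most 1, and each monomial divides a permutation
monomial.
-/

set_option autoImplicit false

open Finset

noncomputable section

namespace Pool.Agent.Work.MP_499dc6_lc.SG

namespace Ty_aux

/-- with a fixed context `u`, the sums of `v` are determined -/
lemma sums (h : StMf) {m : ℕ} {G : ℕ → Set (Mon m)} {T t : ℕ} (hP : PermSet (G T)) {u : Mon m}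
    (hu : ∀ v ∈ G t, u + v ∈ G T) {v : Mon m} (hv : v ∈ G t) :
    (∀ i, rs u i + rs v i = 1) ∧ (∀ j, cs u j + cs v j = 1) ∧ dg u + dg v = m ∧
      ∃ σ : Equiv.Perm (Fin m), v ≤ permMon σ := by
  obtain ⟨_, h2, _, _, h5⟩ := h m
  obtain ⟨σ, hσ⟩ := hP _ (hu v hv)
  obtain ⟨a1, a2, a3, _⟩ := h2 u v
  obtain ⟨b1, b2, b3⟩ := h5 σ
  refine ⟨fun i => ?_, fun j => ?_, ?_, σ, ?_⟩
  · rw [← a1 i, hσ, b1 i]
  · rw [← a2 j, hσ, b2 j]
  · rw [← a3, hσ, b3]
  · rw [← hσ]
    exact le_add_self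

end Ty_aux

theorem iTy (h : StMf) : StTy := by
  intro m G T t hP hU
  obtain ⟨_, u, hu⟩ := hU
  constructor
  · intro v hv v' hv'
    obtain ⟨a1, a2, a3, _⟩ := Ty_aux.sums h hP hu hv
    obtain ⟨b1, b2, b3, _⟩ := Ty_aux.sums h hP hu hv'
    refine ⟨?_, ?_, ?_⟩
    · funext i
      have h1 := a1 i
      have h2 := b1 i
      omega
    · funext j
      have h1 := a2 j
      have h2 := b2 j
      omega
    · omega
  · intro v hv
    obtain ⟨a1, a2, _, a4⟩ := Ty_aux.sums h hP hu hv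
    refine ⟨fun i => ?_, fun j => ?_, a4⟩
    · have h1 := a1 i
      omega
    · have h1 := a2 j
      omega

end Pool.Agent.Work.MP_499dc6_lc.SG
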