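import Mathlib

/-!
MP_499dc6_lc (VP versus VNP), block SG (strong gates): definitions.

Goal: circuits without cancellation whose gates may be arbitrary polynomials with nonnegative
coefficients whose support is a jump system, or perfect matching polynomials of plane bipartite
maps, need size `exp (m/24 - 4)` for the permanent.  Overview: note 4134.
-/

set_option autoImplicit false

open Finset

noncomputable section

namespace Pool.Agent.Work.MP_499dc6_lc.SG

/-! ## 1. averages over permutations -/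

/-- average over a finset -/
def avg {ι : Type*} (s : Finset ι) (F : ι → ℝ) : ℝ := (∑ i ∈ s, F i) / (s.card : ℝ)

section perm

variable {β : Type} [Fintype β] [DecidableEq β]

/-- permutations fixing `D` pointwise -/
def fixs (D : Finset β) : Finset (Equiv.Perm β) := univ.filter (fun τ => ∀ x ∈ D, τ x = x)

/-- conditional expectation of `g`, given the values of the permutation on `D` -/
def cE (D : Finset β) (g : Equiv.Perm β → ℝ) (θ : Equiv.Perm β) : ℝ :=
  avg (fixs D) (fun τ => g (θ * τ))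

/-- `A_i(g)`: average over `D`, `|D| = i`, of the second moment of `E[g | values on D]` -/
def Am (i : ℕ) (g : Equiv.Perm β → ℝ) : ℝ :=
  avg (powersetCard i (univ : Finset β)) (fun D => avg univ (fun θ => (cE D g θ) ^ 2))

/-- permutation matrix: entry `(y, x)` is `1` if `σ x = y` -/
def PM (σ : Equiv.Perm β) : Matrix β β ℝ := Matrix.of fun y x => if σ x = y then 1 else 0

/-- permutation matrix minus `J / |β|` -/
def QM (σ : Equiv.Perm β) : Matrix β β ℝ :=
  Matrix.of fun y x => (if σ x = y then 1 else 0) - 1 / (Fintype.card β : ℝ)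

/-- sum of the principal `j`-minors -/
def em (j : ℕ) (M : Matrix β β ℝ) : ℝ :=
  ∑ S ∈ powersetCard j (univ : Finset β),
    (M.submatrix (Subtype.val : S → β) (Subtype.val : S → β)).det

/-- `e_j` of the permutation matrix -/
def ee (j : ℕ) (h : Equiv.Perm β) : ℝ := em j (PM h)

/-- `e_j` of the permutation matrix on the standard representation -/
def dd (j : ℕ) (h : Equiv.Perm β) : ℝ := em j (QM h)

/-- sign of `h` restricted to `T` (`0` if `h` does not preserve `T`) -/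
def sg (T : Finset β) (h : Equiv.Perm β) : ℝ :=
  ((PM h).submatrix (Subtype.val : T → β) (Subtype.val : T → β)).det

/-- `E_{σ,τ} g(σ) g(τ) c(σ⁻¹ τ)` -/
def quad (c g : Equiv.Perm β → ℝ) : ℝ :=
  avg univ (fun σ => avg univ (fun τ => g σ * g τ * c (σ⁻¹ * τ)))

/-- `Ψ_j(g)` -/
def Psi (j : ℕ) (g : Equiv.Perm β → ℝ) : ℝ := quad (ee j) g

/-- `D_j(g)` -/
def Dj (j : ℕ) (g : Equiv.Perm β → ℝ) : ℝ := quad (dd j) g

/-- the projection of `g` to the functions with `f(σ h) = sgn(h|T) f(σ)` for all `h` with `h(T) = T` -/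
def BT (T : Finset β) (g : Equiv.Perm β → ℝ) (σ : Equiv.Perm β) : ℝ :=
  (∑ h : Equiv.Perm β, sg T h * g (σ * h)) /
    ((T.card.factorial : ℝ) * ((Fintype.card β - T.card).factorial : ℝ))

/-- the sign as a real number -/
def sgR (σ : Equiv.Perm β) : ℝ := ((Equiv.Perm.sign σ : ℤ) : ℝ)

/-- a cycle through all points -/
def IsFull (σ : Equiv.Perm β) : Prop := σ.IsCycle ∧ σ.support = univ

/-- `f` restricted to the permutations which agree with `θ` on `D` -/
def restr (f : Equiv.Perm β → ℝ) (D : Finset β) (θ : Equiv.Perm β) :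
    Equiv.Perm {x // x ∉ D} → ℝ := fun τ => f (θ * Equiv.Perm.ofSubtype τ)

end perm

/-- the bound of the key inequality -/
def Br (k : ℕ) (a : ℕ → ℝ) : ℝ :=
  2 * ((k : ℝ) / ((k : ℝ) - 1) * a 16 / 16 + 88 / 4960 * a 32 + 76 / 15504 * a 20 +
    ∑ j ∈ Finset.Ioc 6 ((k - 1) / 2), (1 + (j : ℝ) ^ 2) / (Nat.choose (2 * j) j : ℝ) * a (2 * j))

/-! ## 2. plane bipartite maps -/

/-- number of cycles of a permutation, fixed points included -/
def cyc {q : ℕ} (π : Equiv.Perm (Fin q)) : ℕ := Nat.card (Quotient (Equiv.Perm.SameCycle.setoid π))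

/-- A plane bipartite map with `q` edges: the cycles of `x` are the black vertices (with the cyclic
order of the edges at the vertex), the cycles of `y` the white ones, the cycles of `x * y` the
faces; it is connected and satisfies Euler's formula. -/
def IsPlaneMap {q : ℕ} (x y : Equiv.Perm (Fin q)) : Prop :=
  (∀ S : Finset (Fin q), S.Nonempty → (∀ e ∈ S, x e ∈ S ∧ y e ∈ S) → S = univ) ∧
    cyc x + cyc y + cyc (x * y) = q + 2

/-- `M` is a perfect matching of the map: every vertex has exactly one edge in `M`. -/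
def IsPerfect {q : ℕ} (x y : Equiv.Perm (Fin q)) (M : Finset (Fin q)) : Prop :=
  (∀ e, ∃! e', e' ∈ M ∧ x.SameCycle e e') ∧ (∀ e, ∃! e', e' ∈ M ∧ y.SameCycle e e')

/-- `M, M'` is an elementary pair of the family `A`: no other pair in `A` has the same union and
intersection -/
def Elem {q : ℕ} (A : Set (Finset (Fin q))) (M M' : Finset (Fin q)) : Prop :=
  M ≠ M' ∧ ∀ N ∈ A, ∀ N' ∈ A, N ∪ N' = M ∪ M' → N ∩ N' = M ∩ M' → N = M ∨ N = M'

/-- the elementary pairs of `A` have a proper colouring with `c` colours -/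
def Colourable {q : ℕ} (A : Set (Finset (Fin q))) (c : ℕ) : Prop :=
  ∃ κ : Finset (Fin q) → ℕ, (∀ M ∈ A, κ M < c) ∧
    ∀ M ∈ A, ∀ M' ∈ A, Elem A M M' → κ M ≠ κ M'

/-! ## 3. jump systems -/

/-- `γ` is obtained from `α` by one step towards `β` -/
def Step {q : ℕ} (α β γ : Fin q →₀ ℕ) : Prop :=
  ∃ i, (α i < β i ∧ γ = α + Finsupp.single i 1) ∨ (β i < α i ∧ γ + Finsupp.single i 1 = α)

/-- Jump system (Bouchet, Cunningham): for `α, β ∈ J` and a step `γ` from `α` towards `β`, either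
`γ ∈ J` or some step from `γ` towards `β` leads into `J`. -/
def JumpSystem {q : ℕ} (J : Set (Fin q →₀ ℕ)) : Prop :=
  ∀ α ∈ J, ∀ β ∈ J, ∀ γ, Step α β γ → γ ∈ J ∨ ∃ δ ∈ J, Step γ β δ

/-- `l1`-distance -/
def dst {q : ℕ} (α β : Fin q →₀ ℕ) : ℕ := ∑ i, ((α i - β i) + (β i - α i))

/-- any two points of `J` are joined by a chain in `J` with steps of length at most `2`, inside
the union of the supports -/
def TwoStep {q : ℕ} (J : Set (Fin q →₀ ℕ)) : Prop :=
  ∀ α ∈ J, ∀ β ∈ J, Relation.ReflTransGen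
    (fun γ δ => dst γ δ ≤ 2 ∧ δ ∈ J ∧ δ.support ⊆ α.support ∪ β.support) α β

/-! ## 4. monomials -/

/-- monomials (exponent vectors) in the variables `x_{ij}` -/
abbrev Mon (m : ℕ) := (Fin m × Fin m) →₀ ℕ

/-- the monomial `∏ x_{i,σ(i)}` -/
def permMon {m : ℕ} (σ : Equiv.Perm (Fin m)) : Mon m := ∑ i, Finsupp.single (i, σ i) 1

/-- row sums -/
def rs {m : ℕ} (v : Mon m) (i : Fin m) : ℕ := ∑ j, v (i, j)

/-- column sums -/
def cs {m : ℕ} (v : Mon m) (j : Fin m) : ℕ := ∑ i, v (i, j)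

/-- degree -/
def dg {m : ℕ} (v : Mon m) : ℕ := ∑ i, rs v i

/-- all elements are permutation monomials -/
def PermSet {m : ℕ} (S : Set (Mon m)) : Prop := ∀ z ∈ S, ∃ σ : Equiv.Perm (Fin m), z = permMon σ

/-- `v` is a sum of `α i` elements of `G i`, `i < q` -/
def IsComb {m q : ℕ} (G : Fin q → Set (Mon m)) (α : Fin q →₀ ℕ) (v : Mon m) : Prop :=
  ∃ w : Fin q → ℕ → Mon m, (∀ i, ∀ l < α i, w i l ∈ G i) ∧ v = ∑ i, ∑ l ∈ range (α i), w i l

/-- `v` is a sum of one element of each `G i`, `i ∈ M` -/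
def IsCombS {m q : ℕ} (G : Fin q → Set (Mon m)) (M : Finset (Fin q)) (v : Mon m) : Prop :=
  ∃ w : Fin q → Mon m, (∀ i ∈ M, w i ∈ G i) ∧ v = ∑ i ∈ M, w i

/-- the gate `t` is useful for the gate `T`: in some context its monomials give monomials of `T` -/
def Useful {m : ℕ} (G : ℕ → Set (Mon m)) (T t : ℕ) : Prop :=
  (G t).Nonempty ∧ ∃ u, ∀ v ∈ G t, u + v ∈ G T

/-- data of a node of a circuit of monomial sets: an input, a jump system gate, or a gate whose
family of subsets has a proper colouring `κ` of its elementary pairs with `c` colours -/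
inductive Nd (m : ℕ) where
  | inp : Nd m
  | jmp (q : ℕ) (a : Fin q → ℕ) (J : Set (Fin q →₀ ℕ)) : Nd m
  | col (q : ℕ) (a : Fin q → ℕ) (A : Set (Finset (Fin q))) (κ : Finset (Fin q) → ℕ) (c : ℕ) : Nd m

/-- cost of a node -/
def Nd.cost {m : ℕ} : Nd m → ℕ
  | .inp => 1
  | .jmp _ _ _ => 1
  | .col _ _ _ _ c => c + 1

/-- the node `t` has the data `d` -/
def NodeOK {m : ℕ} (G : ℕ → Set (Mon m)) (t : ℕ) : Nd m → Prop
  | .inp => ∀ v ∈ G t, dg v ≤ 1
  | .jmp _ a J => (∀ i, a i < t) ∧ TwoStep J ∧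
      ∀ v, v ∈ G t ↔ ∃ α ∈ J, IsComb (fun i => G (a i)) α v
  | .col _ a A κ c => (∀ i, a i < t) ∧
      ((∀ M ∈ A, κ M < c) ∧ ∀ M ∈ A, ∀ M' ∈ A, Elem A M M' → κ M ≠ κ M') ∧
      ∀ v, v ∈ G t ↔ ∃ M ∈ A, IsCombS (fun i => G (a i)) M v

/-- `σ` passes the gate `t` with degree in `[m/3, 2m/3)` -/
def MidAt {m : ℕ} (G : ℕ → Set (Mon m)) (T t : ℕ) (σ : Equiv.Perm (Fin m)) : Prop :=
  Useful G T t ∧ ∃ v ∈ G t, v ≤ permMon σ ∧ m ≤ 3 * dg v ∧ 3 * dg v < 2 * m

/-- `σ` stops at the jump gate `t`: it passes it with degree `≥ 2m/3` and all pieces have degree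
`< m/3` -/
def JStop {m : ℕ} (G : ℕ → Set (Mon m)) (T t q : ℕ) (a : Fin q → ℕ) (J : Set (Fin q →₀ ℕ))
    (σ : Equiv.Perm (Fin m)) : Prop :=
  Useful G T t ∧ ∃ α ∈ J, ∃ w : Fin q → ℕ → Mon m, (∀ i, ∀ l < α i, w i l ∈ G (a i)) ∧
    (∑ i, ∑ l ∈ range (α i), w i l) ≤ permMon σ ∧
    2 * m ≤ 3 * dg (∑ i, ∑ l ∈ range (α i), w i l) ∧ ∀ i, ∀ l < α i, 3 * dg (w i l) < m

/-- `σ` stops at the gate `t` of the family `A` with the set `M`, which is minimal for the weight
`∑_{i ∈ M} 2^i` -/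
def CStop {m : ℕ} (G : ℕ → Set (Mon m)) (T t q : ℕ) (a : Fin q → ℕ) (A : Set (Finset (Fin q)))
    (σ : Equiv.Perm (Fin m)) (M : Finset (Fin q)) : Prop :=
  Useful G T t ∧ ∃ v ∈ G t, v ≤ permMon σ ∧ 2 * m ≤ 3 * dg v ∧ M ∈ A ∧
    (∃ w : Fin q → Mon m, (∀ i ∈ M, w i ∈ G (a i)) ∧ v = ∑ i ∈ M, w i ∧
      ∀ i ∈ M, 3 * dg (w i) < m) ∧
    ∀ M' ∈ A, IsCombS (fun i => G (a i)) M' v → ∑ i ∈ M, 2 ^ (i : ℕ) ≤ ∑ i ∈ M', 2 ^ (i : ℕ)

/-- `σ` stops at the node `t` with data `d` -/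
def StopAt {m : ℕ} (G : ℕ → Set (Mon m)) (T t : ℕ) (σ : Equiv.Perm (Fin m)) : Nd m → Prop
  | .inp => False
  | .jmp q a J => JStop G T t q a J σ
  | .col q a A _ _ => ∃ M, CStop G T t q a A σ M

/-! ## 5. circuits -/

/-- nonnegative coefficients -/
def NN {ι : Type*} (p : MvPolynomial ι ℝ) : Prop := ∀ α, 0 ≤ p.coeff α

/-- exponent vector of a set -/
def ind {q : ℕ} (M : Finset (Fin q)) : Fin q →₀ ℕ := ∑ i ∈ M, Finsupp.single i 1

/-- The gates: `f t` is a variable, a constant `≥ 0`, or `p(f_{a 0}, …, f_{a (q-1)})` with `a i < t`,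
where `p` has nonnegative coefficients and its exponent vectors form a jump system or are the
perfect matchings of a plane bipartite map.  The last argument is the cost: `1`, but `q + 1` for a
matching gate with `q` edges. -/
inductive Gate {m : ℕ} (f : ℕ → MvPolynomial (Fin m × Fin m) ℝ) (t : ℕ) : ℕ → Prop
  | var (c : Fin m × Fin m) (h : f t = MvPolynomial.X c) : Gate f t 1
  | const (r : ℝ) (hr : 0 ≤ r) (h : f t = MvPolynomial.C r) : Gate f t 1
  | jump (q : ℕ) (a : Fin q → ℕ) (p : MvPolynomial (Fin q) ℝ) (ha : ∀ i, a i < t) (hp : NN p)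
      (hJ : JumpSystem {α | α ∈ p.support})
      (h : f t = MvPolynomial.bind₁ (fun i => f (a i)) p) : Gate f t 1
  | matching (q : ℕ) (a : Fin q → ℕ) (p : MvPolynomial (Fin q) ℝ) (x y : Equiv.Perm (Fin q))
      (ha : ∀ i, a i < t) (hp : NN p) (hxy : IsPlaneMap x y)
      (hs : ∀ α, α ∈ p.support ↔ ∃ M, IsPerfect x y M ∧ α = ind M)
      (h : f t = MvPolynomial.bind₁ (fun i => f (a i)) p) : Gate f t (q + 1)

/-- `f 0, …, f (s-1)` are the gates of a circuit of size `N` -/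
def IsCircuit {m : ℕ} (f : ℕ → MvPolynomial (Fin m × Fin m) ℝ) (s N : ℕ) : Prop :=
  ∃ c : ℕ → ℕ, (∀ t < s, Gate f t (c t)) ∧ N = ∑ t ∈ range s, c t

end Pool.Agent.Work.MP_499dc6_lc.SG
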