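import Pool.Agent.Work.MP_499dc6_lc.SG.I_Alg
import Pool.Agent.Work.MP_499dc6_lc.SG.I_Alt
import Pool.Agent.Work.MP_499dc6_lc.SG.I_AmB
import Pool.Agent.Work.MP_499dc6_lc.SG.I_Bp
import Pool.Agent.Work.MP_499dc6_lc.SG.I_Chj
import Pool.Agent.Work.MP_499dc6_lc.SG.I_Chs
import Pool.Agent.Work.MP_499dc6_lc.SG.I_Cm
import Pool.Agent.Work.MP_499dc6_lc.SG.I_Cnt
import Pool.Agent.Work.MP_499dc6_lc.SG.I_Cst
import Pool.Agent.Work.MP_499dc6_lc.SG.I_Desc
import Pool.Agent.Work.MP_499dc6_lc.SG.I_Dpos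
import Pool.Agent.Work.MP_499dc6_lc.SG.I_Dual
import Pool.Agent.Work.MP_499dc6_lc.SG.I_Ee
import Pool.Agent.Work.MP_499dc6_lc.SG.I_Gram
import Pool.Agent.Work.MP_499dc6_lc.SG.I_Half
import Pool.Agent.Work.MP_499dc6_lc.SG.I_Jst
import Pool.Agent.Work.MP_499dc6_lc.SG.I_Jump
import Pool.Agent.Work.MP_499dc6_lc.SG.I_Ka
import Pool.Agent.Work.MP_499dc6_lc.SG.I_Kb
import Pool.Agent.Work.MP_499dc6_lc.SG.I_Key
import Pool.Agent.Work.MP_499dc6_lc.SG.I_Lin
import Pool.Agent.Work.MP_499dc6_lc.SG.I_Main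
import Pool.Agent.Work.MP_499dc6_lc.SG.I_Mf
import Pool.Agent.Work.MP_499dc6_lc.SG.I_Mono
import Pool.Agent.Work.MP_499dc6_lc.SG.I_Mst
import Pool.Agent.Work.MP_499dc6_lc.SG.I_Nc
import Pool.Agent.Work.MP_499dc6_lc.SG.I_Nodes
import Pool.Agent.Work.MP_499dc6_lc.SG.I_Num
import Pool.Agent.Work.MP_499dc6_lc.SG.I_Orth
import Pool.Agent.Work.MP_499dc6_lc.SG.I_Plane
import Pool.Agent.Work.MP_499dc6_lc.SG.I_Psi
import Pool.Agent.Work.MP_499dc6_lc.SG.I_Seq
import Pool.Agent.Work.MP_499dc6_lc.SG.I_Sg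
import Pool.Agent.Work.MP_499dc6_lc.SG.I_Sup
import Pool.Agent.Work.MP_499dc6_lc.SG.I_T
import Pool.Agent.Work.MP_499dc6_lc.SG.I_Tower
import Pool.Agent.Work.MP_499dc6_lc.SG.I_Two
import Pool.Agent.Work.MP_499dc6_lc.SG.I_Ty

/-!
# MP_499dc6_lc (VP versus VNP): the permanent and circuits without cancellation with strong gates

An exponential lower bound for the permanent in circuits without cancellation whose gates may be
arbitrary polynomials with nonnegative coefficients whose exponent vectors form a jump system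
(sums, products, matroid basis polynomials, stable polynomials, Lorentzian polynomials, ...), or
perfect matching polynomials of plane bipartite maps (Kasteleyn's determinants).
-/

set_option autoImplicit false

open Finset

noncomputable section

namespace Pool.Agent.Work.MP_499dc6_lc.SG.Final

open Pool.Agent.Work.MP_499dc6_lc.SG

/-- the permanent of the matrix of variables -/
def permPoly (m : ℕ) : MvPolynomial (Fin m × Fin m) ℝ :=
  ∑ σ : Equiv.Perm (Fin m), ∏ i, MvPolynomial.X (i, σ i)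

theorem main : StMain := by
  have hEe := iEe
  have hDual := iDual hEe
  have hAlt := iAlt hEe
  have hDpos := iDpos iGram
  have hAlg := iAlg hEe hDual hAlt
  have hHalf := iHalf hDpos hAlg
  have hSg := iSg
  have hBp := iBp hSg
  have hPsi := iPsi hBp
  have hOrth := iOrth hSg hBp
  have hKb := iKb hPsi hBp hOrth
  have hKey := iKey hHalf iKa hKb iAmB hAlg hDpos
  have hT := iT hKey iTower iMono iAmB (iSeq iNum)
  have hMf := iMf
  have hTy := iTy hMf
  have hChj := iChj hMf hTy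
  have hChs := iChs
  have hDesc := iDesc hMf hChj hChs
  have hMst := iMst hTy
  have hJst := iJst hMst hTy hChj hMf
  have hTwo := iTwo hMf
  have hCst := iCst hTy hChs hMf hTwo
  have hNc := iNc hT iCnt hJst hCst hTy hMf
  have hCm := iCm hDesc hNc
  have hNodes := iNodes iSup iJump (iPlane iLin)
  exact iMain hCm hNodes

lemma prod_X (m : ℕ) (σ : Equiv.Perm (Fin m)) :
    (∏ i, MvPolynomial.X (R := ℝ) (i, σ i)) = MvPolynomial.monomial (permMon σ) (1 : ℝ) := by
  unfold permMon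
  rw [MvPolynomial.monomial_sum_one]
  rfl

lemma coeff_permPoly (m : ℕ) (α : Mon m) : (permPoly m).coeff α =
    ((univ.filter (fun σ : Equiv.Perm (Fin m) => permMon σ = α)).card : ℝ) := by
  classical
  unfold permPoly
  simp_rw [prod_X]
  rw [MvPolynomial.coeff_sum]
  simp_rw [MvPolynomial.coeff_monomial]
  rw [← Finset.sum_filter, Finset.sum_const, nsmul_eq_mul, mul_one]

lemma support_permPoly (m : ℕ) (α : Mon m) :
    α ∈ (permPoly m).support ↔ ∃ σ : Equiv.Perm (Fin m), α = permMon σ := by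
  classical
  rw [MvPolynomial.mem_support_iff, coeff_permPoly]
  rw [Nat.cast_ne_zero, Finset.card_ne_zero]
  constructor
  · rintro ⟨σ, hσ⟩
    exact ⟨σ, (Finset.mem_filter.mp hσ).2.symm⟩
  · rintro ⟨σ, rfl⟩
    exact ⟨σ, Finset.mem_filter.mpr ⟨Finset.mem_univ _, rfl⟩⟩

lemma card_support_permPoly (m : ℕ) : (permPoly m).support.card = m.factorial := by
  classical
  have h : (permPoly m).support = (univ : Finset (Equiv.Perm (Fin m))).image permMon := by
    ext α
    rw [support_permPoly, Finset.mem_image]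
    constructor
    · rintro ⟨σ, rfl⟩; exact ⟨σ, Finset.mem_univ _, rfl⟩
    · rintro ⟨σ, _, rfl⟩; exact ⟨σ, rfl⟩
  rw [h, Finset.card_image_of_injective, Finset.card_univ, Fintype.card_perm, Fintype.card_fin]
  exact fun σ τ hστ => (iMf m).2.2.2.1 σ τ hστ

/-- M-convex sets (exchange axiom of Murota; supports of Lorentzian polynomials, bases of matroids)
are jump systems. -/
theorem mconvex_jump {q : ℕ} (J : Set (Fin q →₀ ℕ))
    (hJ : ∀ α ∈ J, ∀ β ∈ J, ∀ i, β i < α i → ∃ j, α j < β j ∧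
      (∃ γ ∈ J, γ + Finsupp.single i 1 = α + Finsupp.single j 1) ∧
      ∃ γ ∈ J, γ + Finsupp.single j 1 = β + Finsupp.single i 1) : JumpSystem J := by
  intro α hα β hβ γ hstep
  obtain ⟨i, ⟨hi, rfl⟩ | ⟨hi, hγ⟩⟩ := hstep
  · right
    obtain ⟨j, hj, -, δ, hδ, hδe⟩ := hJ β hβ α hα i hi
    have hij : i ≠ j := by rintro rfl; omega
    refine ⟨δ, hδ, j, Or.inr ⟨?_, hδe⟩⟩
    simp [hij]
    exact hj
  · right
    obtain ⟨j, hj, ⟨δ, hδ, hδe⟩, -⟩ := hJ α hα β hβ i hi
    have hij : i ≠ j := by rintro rfl; omega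
    have hγj : γ j = α j := by rw [← hγ]; simp [hij]
    refine ⟨δ, hδ, j, Or.inl ⟨by rw [hγj]; exact hj, ?_⟩⟩
    rw [← hγ] at hδe
    have : δ + Finsupp.single i 1 = (γ + Finsupp.single j 1) + Finsupp.single i 1 := by
      rw [hδe]; abel
    exact add_right_cancel this

/-- **Circuits without cancellation with strong gates.**  Let `f 0, …, f (s-1)` be the polynomials
of the gates of a circuit of size `N` (`IsCircuit`) in the variables `x_{ij}`, `i, j < m`, and `t < s`.
If all monomials of `f t` are of the form `∏ x_{i,σ(i)}`, then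
`exp (m/24 - 4) * #(monomials of f t) ≤ m! * N`; in particular, if `f t` is the permanent, then
`N ≥ exp (m/24 - 4)`. -/
theorem result (m s N : ℕ) (f : ℕ → MvPolynomial (Fin m × Fin m) ℝ) (hf : IsCircuit f s N)
    (t : ℕ) (ht : t < s) :
    ((∀ α ∈ (f t).support, ∃ σ : Equiv.Perm (Fin m), α = permMon σ) →
      Real.exp ((m : ℝ) / 24 - 4) * ((f t).support.card : ℝ) ≤ (m.factorial : ℝ) * N) ∧
    (f t = permPoly m → Real.exp ((m : ℝ) / 24 - 4) ≤ N) := by
  have h1 : (∀ α ∈ (f t).support, ∃ σ : Equiv.Perm (Fin m), α = permMon σ) →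
      Real.exp ((m : ℝ) / 24 - 4) * ((f t).support.card : ℝ) ≤ (m.factorial : ℝ) * N :=
    main m s N f hf t ht
  refine ⟨h1, fun h => ?_⟩
  have h2 := h1 (fun α hα => (support_permPoly m α).mp (h ▸ hα))
  rw [h, card_support_permPoly] at h2
  have h3 : (0 : ℝ) < m.factorial := by exact_mod_cast m.factorial_pos
  rw [mul_comm] at h2
  exact le_of_mul_le_mul_left h2 h3

end Pool.Agent.Work.MP_499dc6_lc.SG.Final
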