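import Pool.Agent.Work.MP_499dc6_lc.SG.Stmts

/-!
MP_499dc6_lc, block SG, item Alg (algebra of the quadratic forms).
-/

set_option autoImplicit false

open Finset

noncomputable section

namespace Pool.Agent.Work.MP_499dc6_lc.SG

namespace Alg_aux

variable {β : Type} [Fintype β] [DecidableEq β]

lemma quad_eq (c g : Equiv.Perm β → ℝ) :
    quad c g = (∑ σ : Equiv.Perm β, ∑ τ : Equiv.Perm β, g σ * g τ * c (σ⁻¹ * τ)) /
      ((Finset.univ : Finset (Equiv.Perm β)).card : ℝ) ^ 2 := by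
  unfold quad avg
  rw [← Finset.sum_div, div_div, pow_two]

lemma quad_congr {c c' g g' : Equiv.Perm β → ℝ}
    (h : ∀ σ τ, g σ * g τ * c (σ⁻¹ * τ) = g' σ * g' τ * c' (σ⁻¹ * τ)) :
    quad c g = quad c' g' := by
  rw [quad_eq, quad_eq]
  congr 1
  exact Finset.sum_congr rfl fun σ _ => Finset.sum_congr rfl fun τ _ => h σ τ

lemma quad_add (c c' g : Equiv.Perm β → ℝ) :
    quad (fun h => c h + c' h) g = quad c g + quad c' g := by
  rw [quad_eq, quad_eq, quad_eq, ← add_div, ← Finset.sum_add_distrib]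
  congr 1
  refine Finset.sum_congr rfl fun σ _ => ?_
  rw [← Finset.sum_add_distrib]
  exact Finset.sum_congr rfl fun τ _ => by ring

lemma quad_sum {ι : Type*} (s : Finset ι) (w : ι → ℝ) (c : ι → Equiv.Perm β → ℝ)
    (g : Equiv.Perm β → ℝ) :
    quad (fun h => ∑ j ∈ s, w j * c j h) g = ∑ j ∈ s, w j * quad (c j) g := by
  simp only [quad_eq]
  simp only [Finset.mul_sum, mul_div_assoc', ← Finset.sum_div]
  congr 1
  rw [Finset.sum_comm' (t' := Finset.univ) (s' := fun _ => s) (by simp)]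
  refine Finset.sum_congr rfl fun σ _ => ?_
  rw [Finset.sum_comm]
  refine Finset.sum_congr rfl fun j _ => Finset.sum_congr rfl fun τ _ => by ring

lemma sgR_inv_mul (σ τ : Equiv.Perm β) : sgR (σ⁻¹ * τ) = sgR σ * sgR τ := by
  unfold sgR
  rw [Equiv.Perm.sign_mul, Equiv.Perm.sign_inv]
  push_cast
  ring

end Alg_aux

open Alg_aux

theorem iAlg (hE : StEe) (hD : StDual) (hA : StAlt) : StAlg := by
  intro β _ _ g hk
  have h1 : 1 ≤ Fintype.card β := by omega
  refine ⟨?_, ?_, ?_, ?_⟩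
  · unfold Dj
    rw [quad_eq]
    unfold avg
    rw [div_pow]
    congr 1
    rw [pow_two, Finset.sum_mul_sum]
    refine Finset.sum_congr rfl fun σ _ => Finset.sum_congr rfl fun τ _ => ?_
    rw [(hE β (σ⁻¹ * τ) h1).2.1, mul_one]
  · intro j
    unfold Psi Dj
    rw [← quad_add]
    refine quad_congr fun σ τ => ?_
    rw [(hE β (σ⁻¹ * τ) h1).2.2.1 j]
  · intro j hj
    unfold Dj
    refine quad_congr fun σ τ => ?_
    rw [hD β (σ⁻¹ * τ) j hj, sgR_inv_mul]
    ring
  · intro hg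
    unfold Dj
    rw [← quad_sum (Finset.range (Fintype.card β)) (fun j => (-1 : ℝ) ^ j) (fun j => dd j) g,
      quad_eq]
    rw [Finset.sum_eq_zero, zero_div]
    intro σ _
    refine Finset.sum_eq_zero fun τ _ => ?_
    by_cases hf : IsFull (σ⁻¹ * τ)
    · rw [hg σ τ hf, zero_mul]
    · rw [hA β (σ⁻¹ * τ) hk hf, mul_zero]

end Pool.Agent.Work.MP_499dc6_lc.SG
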