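import Pool.Agent.Work.MP_499dc6_lc.SG.Stmts

/-!
MP_499dc6_lc, block SG, item Dpos: positivity of `Dj`.
-/

set_option autoImplicit false

open Finset

noncomputable section

namespace Pool.Agent.Work.MP_499dc6_lc.SG

namespace Dpos_aux

theorem qm_mul {β : Type} [Fintype β] [DecidableEq β] (hk : 1 ≤ Fintype.card β)
    (σ τ : Equiv.Perm β) : QM (σ⁻¹ * τ) = (QM σ).transpose * QM τ := by
  have hk0 : (Fintype.card β : ℝ) ≠ 0 := by
    have : 0 < Fintype.card β := hk
    exact_mod_cast this.ne'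
  ext y x
  rw [Matrix.mul_apply]
  have hterm : ∀ z : β, (QM σ).transpose y z * QM τ z x =
      (if τ x = z then (if σ y = z then (1 : ℝ) else 0) else 0)
        - 1 / (Fintype.card β : ℝ) * (if σ y = z then (1 : ℝ) else 0)
        - 1 / (Fintype.card β : ℝ) * (if τ x = z then (1 : ℝ) else 0)
        + 1 / (Fintype.card β : ℝ) * (1 / (Fintype.card β : ℝ)) := by
    intro z
    simp only [QM, Matrix.transpose_apply, Matrix.of_apply]
    split_ifs <;> ring
  rw [Finset.sum_congr rfl (fun z _ => hterm z)]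
  rw [Finset.sum_add_distrib, Finset.sum_sub_distrib, Finset.sum_sub_distrib,
    ← Finset.mul_sum, ← Finset.mul_sum]
  simp only [Finset.sum_ite_eq, Finset.mem_univ, if_true, Finset.sum_const, Finset.card_univ,
    nsmul_eq_mul, QM, Matrix.of_apply]
  have hiff : ((σ⁻¹ * τ) x = y) ↔ (σ y = τ x) := by
    rw [Equiv.Perm.mul_apply, Equiv.Perm.inv_eq_iff_eq]
    exact eq_comm
  by_cases hc : σ y = τ x
  · rw [if_pos (hiff.2 hc), if_pos hc]
    field_simp
    ring
  · rw [if_neg (fun h => hc (hiff.1 h)), if_neg hc]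
    field_simp
    ring

theorem avg_nonneg_of_sum {ι : Type*} (s : Finset ι) (F : ι → ℝ) (h : 0 ≤ ∑ i ∈ s, F i) :
    0 ≤ avg s F := by
  unfold avg
  exact div_nonneg h (Nat.cast_nonneg _)

end Dpos_aux

theorem iDpos (h : StGram) : StDpos := by
  intro β _ _ g j hk
  have hG := h β (fun σ => QM σ) g j
  have hsum : ∑ σ, ∑ τ, g σ * g τ * em j ((QM σ).transpose * QM τ) =
      ∑ σ, ∑ τ, g σ * g τ * dd j (σ⁻¹ * τ) := by
    refine Finset.sum_congr rfl (fun σ _ => Finset.sum_congr rfl (fun τ _ => ?_))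
    unfold dd
    rw [Dpos_aux.qm_mul hk]
  rw [hsum] at hG
  unfold Dj quad
  apply Dpos_aux.avg_nonneg_of_sum
  unfold avg
  rw [← Finset.sum_div]
  exact div_nonneg hG (Nat.cast_nonneg _)

end Pool.Agent.Work.MP_499dc6_lc.SG
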