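import Pool.Agent.Work.MP_499dc6_lc.SG.Stmts

/-! MP_499dc6_lc, block SG, item Main (assembly). -/

set_option autoImplicit false

open Finset

noncomputable section

namespace Pool.Agent.Work.MP_499dc6_lc.SG

namespace Main_aux

theorem cost_pos {m : ℕ} {f : ℕ → MvPolynomial (Fin m × Fin m) ℝ} {t c : ℕ} (h : Gate f t c) :
    1 ≤ c := by
  cases h <;> omega

end Main_aux

theorem iMain (hC : StCm) (hN : StNodes) : StMain := by
  classical
  intro m s N f hf t ht hperm
  obtain ⟨c, hg, rfl⟩ := hf
  obtain ⟨nd, hnd⟩ := hN m s f c hg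
  set A : Finset (Equiv.Perm (Fin m)) :=
    univ.filter (fun σ => (permMon σ : Mon m) ∈ (f t).support) with hA
  have hcard : (f t).support.card ≤ A.card := by
    have h1 : (f t).support ⊆ A.image (fun σ => (permMon σ : Mon m)) := by
      intro α hα
      obtain ⟨σ, rfl⟩ := hperm α hα
      exact Finset.mem_image.mpr ⟨σ, by rw [hA]; exact Finset.mem_filter.mpr ⟨mem_univ _, hα⟩, rfl⟩
    exact (Finset.card_le_card h1).trans Finset.card_image_le
  have hcardR : ((f t).support.card : ℝ) ≤ (A.card : ℝ) := by exact_mod_cast hcard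
  by_cases hm : m < 96
  · have h1 : Real.exp ((m : ℝ) / 24 - 4) ≤ 1 := by
      rw [← Real.exp_zero]
      apply Real.exp_le_exp.mpr
      have : (m : ℝ) ≤ 96 := by exact_mod_cast hm.le
      linarith
    have h2 : A.card ≤ m.factorial := by
      calc A.card ≤ (univ : Finset (Equiv.Perm (Fin m))).card := Finset.card_le_univ _
        _ = m.factorial := by rw [Finset.card_univ, Fintype.card_perm, Fintype.card_fin]
    have h3 : 1 ≤ ∑ t ∈ range s, c t := by
      calc 1 ≤ c t := Main_aux.cost_pos (hg t ht)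
        _ ≤ ∑ t ∈ range s, c t :=
          Finset.single_le_sum (f := c) (fun i _ => Nat.zero_le _) (Finset.mem_range.mpr ht)
    have h2R : (A.card : ℝ) ≤ (m.factorial : ℝ) := by exact_mod_cast h2
    have h3R : (1 : ℝ) ≤ ((∑ t ∈ range s, c t : ℕ) : ℝ) := by exact_mod_cast h3
    calc Real.exp ((m : ℝ) / 24 - 4) * ((f t).support.card : ℝ)
        ≤ 1 * (m.factorial : ℝ) := by
          apply mul_le_mul h1 (hcardR.trans h2R) (Nat.cast_nonneg _) zero_le_one
      _ ≤ (m.factorial : ℝ) * ((∑ t ∈ range s, c t : ℕ) : ℝ) := by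
          rw [mul_comm]
          exact mul_le_mul_of_nonneg_left h3R (Nat.cast_nonneg _)
  · have hP : PermSet ((fun t => {v : Mon m | v ∈ (f t).support}) t) := fun z hz => hperm z hz
    have hAll : ∀ t' ≤ t, NodeOK (fun t => {v : Mon m | v ∈ (f t).support}) t' (nd t') :=
      fun t' ht' => (hnd t' (by omega)).1
    have h1 := hC m (fun t => {v : Mon m | v ∈ (f t).support}) t nd (by omega) hP hAll A (by
      intro σ hσ
      rw [hA] at hσ
      exact (Finset.mem_filter.mp hσ).2)
    have h2 : (∑ t' ∈ range (t + 1), ((nd t').cost : ℝ)) ≤ ((∑ t ∈ range s, c t : ℕ) : ℝ) := by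
      push_cast
      calc (∑ t' ∈ range (t + 1), ((nd t').cost : ℝ)) = ∑ t' ∈ range (t + 1), (c t' : ℝ) := by
            apply Finset.sum_congr rfl
            intro t' ht'
            rw [(hnd t' (by have := Finset.mem_range.mp ht'; omega)).2]
        _ ≤ ∑ t' ∈ range s, (c t' : ℝ) := by
            apply Finset.sum_le_sum_of_subset_of_nonneg
            · intro i hi
              have := Finset.mem_range.mp hi
              exact Finset.mem_range.mpr (by omega)
            · intro i _ _
              exact Nat.cast_nonneg _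
    have hX : (0 : ℝ) ≤ (m.factorial : ℝ) * Real.exp (4 - (m : ℝ) / 24) := by positivity
    have h3 : ((f t).support.card : ℝ) ≤
        ((∑ t ∈ range s, c t : ℕ) : ℝ) * ((m.factorial : ℝ) * Real.exp (4 - (m : ℝ) / 24)) :=
      hcardR.trans (h1.trans (mul_le_mul_of_nonneg_right h2 hX))
    have hE : Real.exp ((m : ℝ) / 24 - 4) * Real.exp (4 - (m : ℝ) / 24) = 1 := by
      rw [← Real.exp_add]
      have : (m : ℝ) / 24 - 4 + (4 - (m : ℝ) / 24) = 0 := by ring
      rw [this, Real.exp_zero]
    calc Real.exp ((m : ℝ) / 24 - 4) * ((f t).support.card : ℝ)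
        ≤ Real.exp ((m : ℝ) / 24 - 4) * (((∑ t ∈ range s, c t : ℕ) : ℝ) *
            ((m.factorial : ℝ) * Real.exp (4 - (m : ℝ) / 24))) :=
          mul_le_mul_of_nonneg_left h3 (Real.exp_pos _).le
      _ = (Real.exp ((m : ℝ) / 24 - 4) * Real.exp (4 - (m : ℝ) / 24)) *
            ((m.factorial : ℝ) * ((∑ t ∈ range s, c t : ℕ) : ℝ)) := by ring
      _ = (m.factorial : ℝ) * ((∑ t ∈ range s, c t : ℕ) : ℝ) := by rw [hE, one_mul]

end Pool.Agent.Work.MP_499dc6_lc.SG
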