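import Pool.Agent.Work.MP_499dc6_lc.SG.Stmts

/-!
MP_499dc6_lc, block SG, item Sg: the restricted sign.
-/

set_option autoImplicit false

open Finset

noncomputable section

namespace Pool.Agent.Work.MP_499dc6_lc.SG

namespace Sg_aux

variable {β : Type} [DecidableEq β]

/-- if `p` is the restriction of `h` to `T`, then `sg T h` is the sign of `p` -/
theorem sg_of_perm (T : Finset β) (h : Equiv.Perm β) (p : Equiv.Perm T)
    (hp : ∀ x : T, ((p x : T) : β) = h x) : sg T h = ((Equiv.Perm.sign p : ℤ) : ℝ) := by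
  have hM : (PM h).submatrix (Subtype.val : T → β) (Subtype.val : T → β) =
      ((p.toPEquiv.toMatrix : Matrix T T ℝ)).transpose := by
    ext y x
    rw [Matrix.transpose_apply, PEquiv.toMatrix_apply, Matrix.submatrix_apply]
    simp only [PM, Matrix.of_apply, Equiv.toPEquiv_apply, Option.mem_def, Option.some.injEq]
    have : (h (x : β) = (y : β)) ↔ (p x = y) := by
      rw [← hp x]
      exact Subtype.val_injective.eq_iff
    simp only [this]
  unfold sg
  rw [hM, Matrix.det_transpose, Matrix.det_permutation]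

/-- an injective self map of a finite set is onto -/
theorem maps_iff (T : Finset β) (h : Equiv.Perm β) (hT : ∀ x ∈ T, h x ∈ T) (x : β) :
    h x ∈ T ↔ x ∈ T := by
  refine ⟨fun hx => ?_, hT x⟩
  have himg : T.image h = T := by
    apply Finset.eq_of_subset_of_card_le
    · intro y hy
      obtain ⟨z, hz, rfl⟩ := Finset.mem_image.1 hy
      exact hT z hz
    · rw [Finset.card_image_of_injective _ h.injective]
  rw [← himg] at hx
  obtain ⟨z, hz, hzx⟩ := Finset.mem_image.1 hx
  have := h.injective hzx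
  rwa [← this]

theorem sg_pm (T : Finset β) (h : Equiv.Perm β) (hT : ∀ x ∈ T, h x ∈ T) :
    sg T h = 1 ∨ sg T h = -1 := by
  have key := sg_of_perm T h (Equiv.Perm.subtypePermOfFintype h hT) (fun x => rfl)
  rw [key]
  rcases Int.units_eq_one_or (Equiv.Perm.sign (Equiv.Perm.subtypePermOfFintype h hT)) with hs | hs
  · left; rw [hs]; simp
  · right; rw [hs]; simp

theorem sg_zero (T : Finset β) (h : Equiv.Perm β) (hT : ¬ ∀ x ∈ T, h x ∈ T) : sg T h = 0 := by
  push Not at hT
  obtain ⟨x, hx, hx'⟩ := hT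
  unfold sg
  refine Matrix.det_eq_zero_of_column_eq_zero (⟨x, hx⟩ : T) (fun y => ?_)
  rw [Matrix.submatrix_apply]
  simp only [PM, Matrix.of_apply]
  rw [if_neg]
  intro hxy
  apply hx'
  rw [hxy]
  exact y.2

/-- the block of a product is the product of the blocks -/
theorem block_mul (T : Finset β) (h h' : Equiv.Perm β)
    (hz : ∀ x ∈ T, h (h' x) ∈ T → h' x ∈ T) :
    (PM (h * h')).submatrix (Subtype.val : T → β) (Subtype.val : T → β) =
      (PM h).submatrix (Subtype.val : T → β) (Subtype.val : T → β) *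
        (PM h').submatrix (Subtype.val : T → β) (Subtype.val : T → β) := by
  have hPM : ∀ (g : Equiv.Perm β) (y x : β), PM g y x = if g x = y then 1 else 0 :=
    fun _ _ _ => rfl
  ext y x
  rw [Matrix.mul_apply, Matrix.submatrix_apply]
  have hterm : ∀ z : T, (PM h).submatrix (Subtype.val : T → β) (Subtype.val : T → β) y z *
      (PM h').submatrix (Subtype.val : T → β) (Subtype.val : T → β) z x =
      (if h (z : β) = (y : β) then (1 : ℝ) else 0) * (if h' (x : β) = (z : β) then 1 else 0) :=
    fun z => rfl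
  rw [Finset.sum_congr rfl (fun z _ => hterm z), hPM]
  by_cases hx : h' x ∈ T
  · rw [Finset.sum_eq_single (⟨h' x, hx⟩ : T)]
    · by_cases hc : h (h' (x : β)) = (y : β)
      · rw [if_pos hc, if_pos (show (h * h') (x : β) = (y : β) from hc), if_pos rfl, mul_one]
      · rw [if_neg hc, if_neg (show ¬ ((h * h') (x : β) = (y : β)) from hc), zero_mul]
    · intro z _ hz'
      have : ¬ (h' (x : β) = (z : β)) := fun e => hz' (Subtype.ext e.symm)
      rw [if_neg this, mul_zero]
    · intro hn
      exact absurd (Finset.mem_univ _) hn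
  · rw [Finset.sum_eq_zero]
    · rw [if_neg]
      intro e
      apply hx
      apply hz x x.2
      have e' : h (h' (x : β)) = (y : β) := e
      rw [e']
      exact y.2
    · intro z _
      have : ¬ (h' (x : β) = (z : β)) := fun e => hx (by rw [e]; exact z.2)
      rw [if_neg this, mul_zero]

theorem sg_mul (T : Finset β) (h h' : Equiv.Perm β)
    (hz : ∀ x ∈ T, h (h' x) ∈ T → h' x ∈ T) : sg T (h * h') = sg T h * sg T h' := by
  unfold sg
  rw [block_mul T h h' hz, Matrix.det_mul]

theorem sg_inv (T : Finset β) (h : Equiv.Perm β) : sg T h⁻¹ = sg T h := by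
  have hM : (PM h⁻¹).submatrix (Subtype.val : T → β) (Subtype.val : T → β) =
      ((PM h).submatrix (Subtype.val : T → β) (Subtype.val : T → β)).transpose := by
    ext y x
    simp only [Matrix.transpose_apply, Matrix.submatrix_apply, PM, Matrix.of_apply]
    have : (h⁻¹ (x : β) = (y : β)) ↔ (h (y : β) = (x : β)) := by
      rw [Equiv.Perm.inv_eq_iff_eq]
      exact eq_comm
    simp only [this]
  unfold sg
  rw [hM, Matrix.det_transpose]

theorem sg_fix (T : Finset β) (h : Equiv.Perm β) (hT : ∀ x ∈ T, h x = x) : sg T h = 1 := by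
  have := sg_of_perm T h 1 (fun x => (hT x x.2).symm)
  rw [this]
  simp

theorem sg_swap (T : Finset β) (a b : β) (ha : a ∈ T) (hb : b ∈ T) (hab : a ≠ b) :
    sg T (Equiv.swap a b) = -1 := by
  have hne : (⟨a, ha⟩ : T) ≠ ⟨b, hb⟩ := fun e => hab (congrArg Subtype.val e)
  have := sg_of_perm T (Equiv.swap a b) (Equiv.swap (⟨a, ha⟩ : T) ⟨b, hb⟩) (fun x => by
    rw [Equiv.swap_apply_def, Equiv.swap_apply_def]
    by_cases h1 : x = ⟨a, ha⟩
    · subst h1; simp
    · by_cases h2 : x = ⟨b, hb⟩
      · subst h2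
        rw [if_neg h1, if_pos rfl, if_neg (fun e => hab e.symm), if_pos rfl]
      · have h1' : ¬ ((x : β) = a) := fun e => h1 (Subtype.ext e)
        have h2' : ¬ ((x : β) = b) := fun e => h2 (Subtype.ext e)
        rw [if_neg h1, if_neg h2, if_neg h1', if_neg h2'])
  rw [this, Equiv.Perm.sign_swap hne]
  simp

end Sg_aux

theorem iSg : StSg := by
  intro β _ _ T
  refine ⟨fun h hT => Sg_aux.sg_pm T h hT, fun h hT => Sg_aux.sg_zero T h hT, ?_, ?_,
    fun h => Sg_aux.sg_inv T h, fun h hT => Sg_aux.sg_fix T h hT,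
    fun a b ha hb hab => Sg_aux.sg_swap T a b ha hb hab⟩
  · intro h h' hT
    exact Sg_aux.sg_mul T h h' (fun x _ hx => (Sg_aux.maps_iff T h hT (h' x)).1 hx)
  · intro h h' hT
    exact Sg_aux.sg_mul T h h' (fun x hx _ => hT x hx)

end Pool.Agent.Work.MP_499dc6_lc.SG
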